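import Pool.Agent.Lib.MP_8a52c3_lc.PermDet.Dual

/-! Initial forms of bordered permanents. -/

namespace Pool.Agent.Lib.MP_8a52c3_lc.PermDet

open MvPolynomial Matrix Equiv Finset

lemma permanent_scale {ι R : Type} [Fintype ι] [DecidableEq ι] [CommRing R] (M : Matrix ι ι R)
    (u v : ι → R) : (Matrix.of fun a b => u a * v b * M a b).permanent =
      (∏ a, u a) * (∏ b, v b) * M.permanent := by
  simp only [permanent, of_apply, Finset.mul_sum, Finset.prod_mul_distrib]
  refine Finset.sum_congr rfl fun σ _ => ?_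
  rw [Equiv.prod_comp σ u]

lemma permanent_map {ι R S : Type} [Fintype ι] [DecidableEq ι] [CommRing R] [CommRing S]
    [Algebra ℂ R] [Algebra ℂ S] (φ : R →ₐ[ℂ] S) (M : Matrix ι ι R) :
    φ M.permanent = (M.map φ).permanent := by
  simp [permanent]

lemma permanent_mask {ι R C : Type} [Fintype ι] [DecidableEq ι] [DecidableEq C] [CommRing R]
    (f f' : ι → C) (g : ι → R)
    (h : ∀ k, (univ.filter fun a => f a = k).card = (univ.filter fun a => f' a = k).card) :
    ∃ n : ℕ, n ≠ 0 ∧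
      (Matrix.of fun a b => if f a = f' b then g a else 0).permanent = n • ∏ a, g a := by
  refine ⟨(univ.filter fun σ : Perm ι => ∀ b, f (σ b) = f' b).card, ?_, ?_⟩
  · rw [Finset.card_ne_zero]
    have e : ∀ k, {b // f' b = k} ≃ {a // f a = k} := fun k =>
      Fintype.equivOfCardEq (by simp only [Fintype.card_subtype]; exact (h k).symm)
    exact ⟨Equiv.ofFiberEquiv e, mem_filter.2 ⟨mem_univ _, fun b => Equiv.ofFiberEquiv_map e b⟩⟩
  · simp only [permanent, of_apply, Finset.prod_ite_zero, mem_univ, forall_const]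
    rw [← Finset.sum_filter, Finset.sum_congr rfl fun σ _ => Equiv.prod_comp σ g, Finset.sum_const]

lemma card_filter_injOn {I : Type} [DecidableEq I] (s : Finset I) (f : I → ℕ)
    (hf : Set.InjOn f s) (j : ℕ) :
    (s.filter fun i => f i = j).card = if j ∈ s.image f then 1 else 0 := by
  split_ifs with h
  · obtain ⟨i, hi, rfl⟩ := mem_image.1 h
    rw [Finset.card_eq_one]
    refine ⟨i, ?_⟩
    ext i'
    simp only [mem_filter, mem_singleton]
    exact ⟨fun h' => hf h'.1 hi h'.2, fun h' => by subst h'; exact ⟨hi, rfl⟩⟩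
  · rw [Finset.card_eq_zero, Finset.filter_eq_empty_iff]
    intro i hi he
    exact h (mem_image.2 ⟨i, hi, he⟩)

/-- Class of a row in the masked matrix. -/
def clsR {A I : Type} [DecidableEq A] [DecidableEq I] (A₀ : Finset A) (S : Finset I) (J : I → ℕ) :
    A ⊕ I → (Bool ⊕ A) ⊕ ℕ
  | Sum.inl a => if a ∈ A₀ then Sum.inl (Sum.inl true) else Sum.inl (Sum.inr a)
  | Sum.inr i => if i ∈ S then Sum.inr (J i) else Sum.inl (Sum.inl false)

/-- Class of a column in the masked matrix. -/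
def clsC {A I : Type} [DecidableEq A] [DecidableEq I] (A₀ : Finset A) (S : Finset I) (J : I → ℕ) :
    A ⊕ I → (Bool ⊕ A) ⊕ ℕ
  | Sum.inl a => if a ∈ A₀ then Sum.inl (Sum.inl false) else Sum.inl (Sum.inr a)
  | Sum.inr i => if i ∈ S then Sum.inr (J i) else Sum.inl (Sum.inl true)

lemma cls_card {A I : Type} [Fintype A] [Fintype I] [DecidableEq A] [DecidableEq I]
    (A₀ : Finset A) (S S' : Finset I) (J J' : I → ℕ) (hJ : Set.InjOn J S) (hJ' : Set.InjOn J' S')
    (him : S.image J = S'.image J') (hc : A₀.card + S.card = Fintype.card I) (k) :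
    (univ.filter fun a => clsR A₀ S J a = k).card =
      (univ.filter fun a => clsC A₀ S' J' a = k).card := by
  have hS : S'.card = S.card := by
    rw [← card_image_of_injOn hJ, ← card_image_of_injOn hJ', him]
  have c1 : (univ.filter fun i => i ∉ S).card = A₀.card := by
    have := Finset.card_compl S
    rw [show Sᶜ = univ.filter fun i => i ∉ S by ext; simp] at this
    omega
  have c2 : (univ.filter fun i => i ∉ S').card = A₀.card := by
    have := Finset.card_compl S'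
    rw [show S'ᶜ = univ.filter fun i => i ∉ S' by ext; simp] at this
    omega
  have c3 : (univ.filter fun a => a ∈ A₀).card = A₀.card := by simp
  simp only [Finset.card_filter, Fintype.sum_sum_type, clsR, clsC] at c1 c2 c3 ⊢
  rcases k with ((_ | _) | a) | j
  · have e1 : ∀ a : A, (if (if a ∈ A₀ then (Sum.inl (Sum.inl true) : (Bool ⊕ A) ⊕ ℕ)
        else Sum.inl (Sum.inr a)) = Sum.inl (Sum.inl false) then 1 else 0) = 0 := by
      intro a; split_ifs <;> simp_all
    have e2 : ∀ i : I, (if (if i ∈ S then (Sum.inr (J i) : (Bool ⊕ A) ⊕ ℕ)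
        else Sum.inl (Sum.inl false)) = Sum.inl (Sum.inl false) then 1 else 0) =
        if i ∉ S then 1 else 0 := by
      intro i; by_cases h : i ∈ S <;> simp [h]
    have e3 : ∀ a : A, (if (if a ∈ A₀ then (Sum.inl (Sum.inl false) : (Bool ⊕ A) ⊕ ℕ)
        else Sum.inl (Sum.inr a)) = Sum.inl (Sum.inl false) then 1 else 0) =
        if a ∈ A₀ then 1 else 0 := by
      intro a; by_cases h : a ∈ A₀ <;> simp [h]
    have e4 : ∀ i : I, (if (if i ∈ S' then (Sum.inr (J' i) : (Bool ⊕ A) ⊕ ℕ)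
        else Sum.inl (Sum.inl true)) = Sum.inl (Sum.inl false) then 1 else 0) = 0 := by
      intro i; by_cases h : i ∈ S' <;> simp [h]
    simp only [e1, e2, e3, e4, c1, c3]
    simp
  · have e1 : ∀ a : A, (if (if a ∈ A₀ then (Sum.inl (Sum.inl true) : (Bool ⊕ A) ⊕ ℕ)
        else Sum.inl (Sum.inr a)) = Sum.inl (Sum.inl true) then 1 else 0) =
        if a ∈ A₀ then 1 else 0 := by
      intro a; by_cases h : a ∈ A₀ <;> simp [h]
    have e2 : ∀ i : I, (if (if i ∈ S then (Sum.inr (J i) : (Bool ⊕ A) ⊕ ℕ)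
        else Sum.inl (Sum.inl false)) = Sum.inl (Sum.inl true) then 1 else 0) = 0 := by
      intro i; by_cases h : i ∈ S <;> simp [h]
    have e3 : ∀ a : A, (if (if a ∈ A₀ then (Sum.inl (Sum.inl false) : (Bool ⊕ A) ⊕ ℕ)
        else Sum.inl (Sum.inr a)) = Sum.inl (Sum.inl true) then 1 else 0) = 0 := by
      intro a; by_cases h : a ∈ A₀ <;> simp [h]
    have e4 : ∀ i : I, (if (if i ∈ S' then (Sum.inr (J' i) : (Bool ⊕ A) ⊕ ℕ)
        else Sum.inl (Sum.inl true)) = Sum.inl (Sum.inl true) then 1 else 0) =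
        if i ∉ S' then 1 else 0 := by
      intro i; by_cases h : i ∈ S' <;> simp [h]
    simp only [e1, e2, e3, e4, c2, c3]
    simp
  · congr 1
    · refine Finset.sum_congr rfl fun a' _ => ?_
      by_cases h : a' ∈ A₀ <;> simp [h]
    · rw [Finset.sum_eq_zero, Finset.sum_eq_zero]
      · intro i _; by_cases h : i ∈ S' <;> simp [h]
      · intro i _; by_cases h : i ∈ S <;> simp [h]
  · congr 1
    · refine Finset.sum_congr rfl fun a' _ => ?_
      by_cases h : a' ∈ A₀ <;> simp [h]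
    · have k1 := card_filter_injOn S J hJ j
      have k2 := card_filter_injOn S' J' hJ' j
      rw [him, ← k2, Finset.card_filter, Finset.card_filter] at k1
      have : ∀ (T : Finset I) (K : I → ℕ) (z : Bool), ∑ i, (if (if i ∈ T then
          (Sum.inr (K i) : (Bool ⊕ A) ⊕ ℕ) else Sum.inl (Sum.inl z)) = Sum.inr j then 1 else 0) =
          ∑ i ∈ T, if K i = j then 1 else 0 := by
        intro T K z
        rw [← Finset.sum_subset (Finset.subset_univ T)]
        · exact Finset.sum_congr rfl fun i hi => by simp [hi]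
        · intro i _ hi; simp [hi]
      rw [this, this, k1]

/-- Row potential for the Monge weights. -/
def potR (m : ℕ → ℤ) (x : ℕ) : ℤ := ∑ y ∈ range x, (2 * m y - 1)

/-- Column potential for the Monge weights. -/
def potC (m : ℕ → ℤ) (Y : ℕ) (j : ℤ) : ℤ := ∑ y ∈ range Y, max (2 * j + 1 - 2 * m y) 0

lemma cost_eq (m : ℕ → ℤ) (Y x : ℕ) (hx : x ≤ Y) (j : ℤ) :
    -(2 * x * j) + potR m x + potC m Y j = ∑ y ∈ range Y,
      if y < x then max (2 * m y - 2 * j - 1) 0 else max (2 * j + 1 - 2 * m y) 0 := by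
  have h1 : -(2 * x * j) + potR m x =
      ∑ y ∈ range Y, if y < x then (2 * m y - 1 - 2 * j) else 0 := by
    rw [← Finset.sum_filter, show (range Y).filter (· < x) = range x by
      ext y; simp only [mem_filter, mem_range]; omega]
    simp only [potR, Finset.sum_sub_distrib, Finset.sum_const, card_range, nsmul_eq_mul]
    ring
  rw [h1, potC, ← Finset.sum_add_distrib]
  refine Finset.sum_congr rfl fun y _ => ?_
  split_ifs <;> omega

lemma cost_nonneg (m : ℕ → ℤ) (Y x : ℕ) (hx : x ≤ Y) (j : ℤ) :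
    0 ≤ -(2 * x * j) + potR m x + potC m Y j := by
  rw [cost_eq m Y x hx]
  refine Finset.sum_nonneg fun y _ => ?_
  split_ifs <;> omega

lemma cost_eq_zero (m : ℕ → ℤ) (Y x : ℕ) (hx : x ≤ Y) (j : ℤ) :
    -(2 * x * j) + potR m x + potC m Y j = 0 ↔
      ∀ y < Y, (y < x → m y ≤ j) ∧ (x ≤ y → j < m y) := by
  rw [cost_eq m Y x hx, Finset.sum_eq_zero_iff_of_nonneg]
  · simp only [mem_range]
    refine forall₂_congr fun y _ => ?_
    split_ifs <;> omega
  · intro y _
    split_ifs <;> omega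

lemma potR_ge (m : ℕ → ℤ) (hm : ∀ y, 0 ≤ m y) (x : ℕ) : -(x : ℤ) ≤ potR m x := by
  have : ∑ _y ∈ range x, (-1 : ℤ) ≤ potR m x :=
    Finset.sum_le_sum fun y _ => by have := hm y; omega
  simpa using this

lemma potC_ge (m : ℕ → ℤ) (Y : ℕ) (j : ℤ) : 0 ≤ potC m Y j :=
  Finset.sum_nonneg fun _ _ => le_max_right _ _

/-- A power of the deformation parameter. -/
noncomputable def tm (σ : Type) (n : ℤ) : MvPolynomial (Unit ⊕ σ) ℂ :=
  X (Sum.inl ()) ^ n.toNat

lemma spec_tm {σ : Type} (t : ℂ) {n : ℤ} (hn : 0 ≤ n) :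
    spec (fun _ => t) (tm σ n) = C (t ^ n) := by
  obtain ⟨k, rfl⟩ := Int.eq_ofNat_of_zero_le hn
  simp [tm]

lemma spec_tm_zero {σ : Type} {n : ℤ} (hn : 0 ≤ n) :
    spec (fun _ => 0) (tm σ n) = if n = 0 then 1 else 0 := by
  rw [spec_tm 0 hn]
  split_ifs with h
  · simp [h]
  · simp [_root_.zero_zpow n h]

/-- Border entry `(1 + κ t) t ^ e₁ + t ^ e₂`. -/
noncomputable def uent (t κ : ℂ) (e₁ e₂ : ℤ) : ℂ := (1 + κ * t) * t ^ e₁ + t ^ e₂

/-- Normalised border entry. -/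
noncomputable def nent (σ : Type) (κ : ℂ) (e₁ e₂ α : ℤ) : MvPolynomial (Unit ⊕ σ) ℂ :=
  (1 + C κ * X (Sum.inl ())) * tm σ (e₁ - α) + tm σ (e₂ - α)

lemma spec_nent {σ : Type} {t : ℂ} (ht : t ≠ 0) (κ : ℂ) {e₁ e₂ α : ℤ} (h₁ : α ≤ e₁)
    (h₂ : α ≤ e₂) : spec (fun _ => t) (nent σ κ e₁ e₂ α) = C (t ^ (-α)) * C (uent t κ e₁ e₂) := by
  simp only [nent, map_add, map_mul, map_one, spec_tm t (sub_nonneg.2 h₁),
    spec_tm t (sub_nonneg.2 h₂), spec_X_inl, uent, algHom_C, algebraMap_eq]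
  rw [sub_eq_add_neg, sub_eq_add_neg, zpow_add₀ ht, zpow_add₀ ht, map_mul, map_mul]
  ring

lemma spec_nent_pos {σ : Type} (κ : ℂ) {e₁ e₂ α : ℤ} (h₁ : α < e₁) (h₂ : α < e₂) :
    spec (fun _ => 0) (nent σ κ e₁ e₂ α) = 0 := by
  simp only [nent, map_add, map_mul, spec_tm_zero (sub_nonneg.2 h₁.le),
    spec_tm_zero (sub_nonneg.2 h₂.le)]
  rw [if_neg (by omega), if_neg (by omega)]
  simp

lemma spec_nent_min {σ : Type} (κ : ℂ) {e₁ e₂ : ℤ} (h : e₁ ≠ e₂) :
    spec (fun _ => 0) (nent σ κ e₁ e₂ (min e₁ e₂)) = 1 := by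
  simp only [nent, map_add, map_mul, spec_tm_zero (sub_nonneg.2 (min_le_left e₁ e₂)),
    spec_tm_zero (sub_nonneg.2 (min_le_right e₁ e₂))]
  rcases lt_or_gt_of_ne h with h' | h'
  · rw [if_pos (by omega), if_neg (by omega)]; simp
  · rw [if_neg (by omega), if_pos (by omega)]; simp

/-- The bordered matrix. -/
noncomputable def Xmat {A I σ : Type} [DecidableEq A] (t : ℂ) (A₀ : Finset A) (κ : A → ℂ)
    (r₁ r₂ c₁ c₂ : I → ℤ) (x col : I → ℕ) (lab : I → ℕ → MvPolynomial σ ℂ) :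
    Matrix (A ⊕ I) (A ⊕ I) (MvPolynomial σ ℂ)
  | Sum.inl a, Sum.inl a' => if a = a' ∧ a ∉ A₀ then 1 else 0
  | Sum.inl a, Sum.inr c => if a ∈ A₀ then C (uent t (κ a) (c₁ c) (c₂ c)) else 0
  | Sum.inr i, Sum.inl a => if a ∈ A₀ then C (uent t (κ a) (r₁ i) (r₂ i)) else 0
  | Sum.inr i, Sum.inr c => C (t ^ (-(2 * (x i : ℤ) * col c))) * lab i (col c)

/-- The normalised bordered matrix. -/
noncomputable def Nmat {A I σ : Type} [DecidableEq A] (A₀ : Finset A) (κ : A → ℂ)
    (r₁ r₂ c₁ c₂ α γ : I → ℤ) (x col : I → ℕ) (lab : I → ℕ → MvPolynomial σ ℂ) :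
    Matrix (A ⊕ I) (A ⊕ I) (MvPolynomial (Unit ⊕ σ) ℂ)
  | Sum.inl a, Sum.inl a' => if a = a' ∧ a ∉ A₀ then 1 else 0
  | Sum.inl a, Sum.inr c => if a ∈ A₀ then nent σ (κ a) (c₁ c) (c₂ c) (γ c) else 0
  | Sum.inr i, Sum.inl a => if a ∈ A₀ then nent σ (κ a) (r₁ i) (r₂ i) (α i) else 0
  | Sum.inr i, Sum.inr c =>
      tm σ (-(2 * (x i : ℤ) * col c) - α i - γ c) * rename Sum.inr (lab i (col c))

lemma zpow_finsum {I : Type} {t : ℂ} (ht : t ≠ 0) (s : Finset I) (f : I → ℤ) :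
    t ^ (∑ i ∈ s, f i) = ∏ i ∈ s, t ^ f i := by
  classical
  induction s using Finset.induction_on with
  | empty => simp
  | insert a s ha ih => rw [Finset.sum_insert ha, Finset.prod_insert ha, zpow_add₀ ht, ih]

lemma Nmat_zero {A I σ : Type} [DecidableEq A] [DecidableEq I]
    (A₀ : Finset A) (κ : A → ℂ) (r₁ r₂ c₁ c₂ α γ : I → ℤ) (x col J : I → ℕ)
    (lab : I → ℕ → MvPolynomial σ ℂ) (S S' : Finset I)
    (hαr : ∀ i ∈ S, α i < r₁ i ∧ α i < r₂ i) (hγc : ∀ c ∈ S', γ c < c₁ c ∧ γ c < c₂ c)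
    (hα : ∀ i ∉ S, α i = min (r₁ i) (r₂ i) ∧ r₁ i ≠ r₂ i)
    (hγ : ∀ i ∉ S', γ i = min (c₁ i) (c₂ i) ∧ c₁ i ≠ c₂ i)
    (hY0 : ∀ i c, 0 ≤ -(2 * (x i : ℤ) * col c) - α i - γ c)
    (hY1 : ∀ i c, ¬ (i ∈ S ∧ c ∈ S') → 0 < -(2 * (x i : ℤ) * col c) - α i - γ c)
    (hY2 : ∀ i ∈ S, ∀ c ∈ S', -(2 * (x i : ℤ) * col c) - α i - γ c = 0 ↔ J i = col c) :
    (Nmat A₀ κ r₁ r₂ c₁ c₂ α γ x col lab).map (spec fun _ => 0) =
      Matrix.of fun a b => if clsR A₀ S J a = clsC A₀ S' col b then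
        Sum.elim (fun _ => 1) (fun i => if i ∈ S then lab i (J i) else 1) a else 0 := by
  ext1 a b
  rcases a with a | i <;> rcases b with b | c
  · by_cases hab : a = b
    · subst hab
      by_cases ha : a ∈ A₀ <;> simp [Nmat, clsR, clsC, ha]
    · by_cases ha : a ∈ A₀ <;> by_cases hb : b ∈ A₀ <;> simp [Nmat, clsR, clsC, ha, hb, hab]
  · by_cases ha : a ∈ A₀
    · by_cases hc' : c ∈ S'
      · simp [Nmat, clsR, clsC, ha, hc', spec_nent_pos _ (hγc c hc').1 (hγc c hc').2]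
      · simp [Nmat, clsR, clsC, ha, hc', (hγ c hc').1, spec_nent_min _ (hγ c hc').2]
    · by_cases hc' : c ∈ S' <;> simp [Nmat, clsR, clsC, ha, hc']
  · by_cases hb : b ∈ A₀
    · by_cases hi : i ∈ S
      · simp [Nmat, clsR, clsC, hb, hi, spec_nent_pos _ (hαr i hi).1 (hαr i hi).2]
      · simp [Nmat, clsR, clsC, hb, hi, (hα i hi).1, spec_nent_min _ (hα i hi).2]
    · by_cases hi : i ∈ S <;> simp [Nmat, clsR, clsC, hb, hi]
  · simp only [map_apply, Nmat, map_mul, spec_rename, of_apply, spec_tm_zero (hY0 i c)]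
    by_cases h : i ∈ S ∧ c ∈ S'
    · simp only [hY2 i h.1 c h.2, clsR, clsC, if_pos h.1, if_pos h.2, Sum.inr.injEq, Sum.elim_inr]
      split_ifs with h'
      · rw [h', one_mul]
      · rw [zero_mul]
    · rw [if_neg (hY1 i c h).ne', zero_mul, if_neg]
      by_cases hi : i ∈ S <;> by_cases hc' : c ∈ S'
      · exact absurd ⟨hi, hc'⟩ h
      all_goals simp [clsR, clsC, hi, hc']

lemma Nmat_ne {A I σ : Type} [DecidableEq A]
    (A₀ : Finset A) (κ : A → ℂ) (r₁ r₂ c₁ c₂ α γ : I → ℤ) (x col : I → ℕ)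
    (lab : I → ℕ → MvPolynomial σ ℂ) {t : ℂ} (ht : t ≠ 0)
    (hαr' : ∀ i, α i ≤ r₁ i ∧ α i ≤ r₂ i) (hγc' : ∀ c, γ c ≤ c₁ c ∧ γ c ≤ c₂ c)
    (hY0 : ∀ i c, 0 ≤ -(2 * (x i : ℤ) * col c) - α i - γ c) :
    (Nmat A₀ κ r₁ r₂ c₁ c₂ α γ x col lab).map (spec fun _ => t) =
      Matrix.of fun a b => C (t ^ (-(Sum.elim (fun _ => 0) α a : ℤ))) *
        C (t ^ (-(Sum.elim (fun _ => 0) γ b : ℤ))) * Xmat t A₀ κ r₁ r₂ c₁ c₂ x col lab a b := by
  ext1 a b
  rcases a with a | i <;> rcases b with b | c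
  · simp only [map_apply, Nmat, Xmat, of_apply]
    split_ifs <;> simp
  · simp only [map_apply, Nmat, Xmat, of_apply]
    split_ifs
    · rw [spec_nent ht _ (hγc' c).1 (hγc' c).2]; simp
    · simp
  · simp only [map_apply, Nmat, Xmat, of_apply]
    split_ifs
    · rw [spec_nent ht _ (hαr' i).1 (hαr' i).2]; simp
    · simp
  · simp only [map_apply, Nmat, Xmat, of_apply, map_mul, spec_rename, spec_tm t (hY0 i c),
      Sum.elim_inr]
    rw [sub_eq_add_neg, sub_eq_add_neg, zpow_add₀ ht, zpow_add₀ ht, map_mul, map_mul]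
    ring

/-- The initial form of a bordered permanent is a nonzero multiple of a product of labels. -/
theorem trop {A I σ : Type} [Fintype A] [Fintype I] [DecidableEq A] [DecidableEq I]
    (A₀ : Finset A) (κ : A → ℂ) (r₁ r₂ c₁ c₂ : I → ℤ) (x col : I → ℕ)
    (lab : I → ℕ → MvPolynomial σ ℂ) (S S' : Finset I) (μ : ℤ) (L : ℕ)
    (hx : Function.Injective x) (hcol : Function.Injective col)
    (hμ : ∀ i c, 2 * (x i : ℤ) * col c + x i < μ)
    (hS : ∀ i ∈ S, μ ≤ r₁ i ∧ μ ≤ r₂ i) (hS0 : ∀ i ∉ S, min (r₁ i) (r₂ i) ≤ -μ ∧ r₁ i ≠ r₂ i)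
    (hS' : ∀ i ∈ S', μ ≤ c₁ i ∧ μ ≤ c₂ i) (hS0' : ∀ i ∉ S', min (c₁ i) (c₂ i) ≤ -μ ∧ c₁ i ≠ c₂ i)
    (him : S'.image col = Finset.Ico L (L + S.card)) (hc : A₀.card + S.card = Fintype.card I) :
    ∃ (P : MvPolynomial (Unit ⊕ σ) ℂ) (E : ℤ) (n : ℕ), n ≠ 0 ∧
      spec (fun _ => 0) P = n • ∏ i ∈ S, lab i (L + (S.filter fun i' => x i' < x i).card) ∧
      ∀ t : ℂ, t ≠ 0 →
        spec (fun _ => t) P = C (t ^ E) * (Xmat t A₀ κ r₁ r₂ c₁ c₂ x col lab).permanent := by
  set J : I → ℕ := fun i => L + (S.filter fun i' => x i' < x i).card with hJ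
  set m : ℕ → ℤ := fun y => L + ((S.filter fun i' => x i' ≤ y).card : ℕ) with hm
  set Y : ℕ := univ.sup x + 1 with hY
  have hxY : ∀ i, x i < Y := fun i => Nat.lt_succ_of_le (Finset.le_sup (f := x) (mem_univ i))
  set α : I → ℤ := fun i => if i ∈ S then -potR m (x i) else min (r₁ i) (r₂ i) with hα
  set γ : I → ℤ := fun c => if c ∈ S' then -potC m Y (col c) else min (c₁ c) (c₂ c) with hγ
  have hm0 : ∀ y, 0 ≤ m y := fun y => by simp only [hm]; positivity
  have hxn : ∀ i c, 0 ≤ 2 * (x i : ℤ) * col c := fun i c => by positivity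
  have hmx : ∀ i ∈ S, m (x i) = J i + 1 := by
    intro i hi
    have : (S.filter fun i' => x i' ≤ x i) = insert i (S.filter fun i' => x i' < x i) := by
      ext i'
      simp only [mem_filter, mem_insert]
      constructor
      · rintro ⟨h1, h2⟩
        rcases h2.lt_or_eq with h | h
        · exact Or.inr ⟨h1, h⟩
        · exact Or.inl (hx h)
      · rintro (rfl | h)
        · exact ⟨hi, le_rfl⟩
        · exact ⟨h.1, h.2.le⟩
    simp only [hm, hJ, this]
    rw [card_insert_of_notMem (by simp)]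
    push_cast; ring
  have hmono : ∀ y y', y ≤ y' → m y ≤ m y' := by
    intro y y' h
    simp only [hm]
    have : (S.filter fun i' => x i' ≤ y).card ≤ (S.filter fun i' => x i' ≤ y').card :=
      card_le_card (monotone_filter_right _ fun i _ hi => hi.trans h)
    omega
  have hmlt : ∀ i y, y < x i → m y ≤ J i := by
    intro i y h
    simp only [hm, hJ]
    have : (S.filter fun i' => x i' ≤ y).card ≤ (S.filter fun i' => x i' < x i).card :=
      card_le_card (monotone_filter_right _ fun i _ hi => hi.trans_lt h)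
    omega
  have hzero : ∀ i ∈ S, ∀ j : ℕ, L ≤ j →
      (-(2 * (x i : ℤ) * j) + potR m (x i) + potC m Y j = 0 ↔ J i = j) := by
    intro i hi j hj
    rw [cost_eq_zero m Y (x i) (hxY i).le]
    constructor
    · intro h
      have h1 := (h (x i) (hxY i)).2 le_rfl
      rw [hmx i hi] at h1
      rcases Nat.eq_zero_or_pos (x i) with h0 | h0
      · have : J i = L := by simp [hJ, h0]
        omega
      · have h2 := (h (x i - 1) (by have := hxY i; omega)).1 (by omega)
        have : m (x i - 1) = J i := by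
          simp only [hm, hJ]
          rw [show (S.filter fun i' => x i' ≤ x i - 1) = S.filter fun i' => x i' < x i from
            filter_congr fun i' _ => by omega]
          push_cast; ring
        omega
    · rintro rfl y _
      refine ⟨hmlt i y, fun h => ?_⟩
      have := hmono _ _ h
      rw [hmx i hi] at this
      omega
  have hJinj : Set.InjOn J S := by
    have key : ∀ i ∈ S, ∀ i' ∈ S, x i < x i' → J i < J i' := by
      intro i hi i' _ h
      have h1 := hmlt i' (x i) h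
      rw [hmx i hi] at h1
      omega
    intro i hi i' hi' h
    rcases lt_trichotomy (x i) (x i') with h' | h' | h'
    · exact absurd h (key i hi i' hi' h').ne
    · exact hx h'
    · exact absurd h (key i' hi' i hi h').ne'
  have hJim : S.image J = S'.image col := by
    rw [him]
    refine Finset.eq_of_subset_of_card_le ?_ (by simp [card_image_of_injOn hJinj])
    intro j hj
    obtain ⟨i, hi, rfl⟩ := mem_image.1 hj
    have : (S.filter fun i' => x i' < x i).card < S.card :=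
      card_lt_card (filter_ssubset.2 ⟨i, hi, lt_irrefl _⟩)
    simp only [hJ, mem_Ico]
    omega
  have hL : ∀ c ∈ S', L ≤ col c := fun c hc' => by
    have := mem_image_of_mem col hc'
    rw [him, mem_Ico] at this
    exact this.1
  have hαr : ∀ i ∈ S, α i < r₁ i ∧ α i < r₂ i := by
    intro i hi
    have h1 := potR_ge m hm0 (x i)
    have h2 := hμ i i
    have h3 := hxn i i
    have h4 := hS i hi
    simp only [hα, if_pos hi]
    omega
  have hγc : ∀ c ∈ S', γ c < c₁ c ∧ γ c < c₂ c := by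
    intro c hc'
    have h1 := potC_ge m Y (col c)
    have h2 := hμ c c
    have h3 := hxn c c
    have h4 := hS' c hc'
    simp only [hγ, if_pos hc']
    omega
  have hαr' : ∀ i, α i ≤ r₁ i ∧ α i ≤ r₂ i := by
    intro i
    by_cases hi : i ∈ S
    · exact ⟨(hαr i hi).1.le, (hαr i hi).2.le⟩
    · simp [hα, hi]
  have hγc' : ∀ c, γ c ≤ c₁ c ∧ γ c ≤ c₂ c := by
    intro i
    by_cases hi : i ∈ S'
    · exact ⟨(hγc i hi).1.le, (hγc i hi).2.le⟩
    · simp [hγ, hi]
  have hY1 : ∀ i c, ¬ (i ∈ S ∧ c ∈ S') → 0 < -(2 * (x i : ℤ) * col c) - α i - γ c := by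
    intro i c h
    have h1 := potR_ge m hm0 (x i)
    have h1' := potC_ge m Y (col c)
    have h2 := hμ i c
    have h3 := hxn i c
    simp only [hα, hγ]
    by_cases hi : i ∈ S
    · have hc' : c ∉ S' := fun hc' => h ⟨hi, hc'⟩
      have := (hS0' c hc').1
      rw [if_pos hi, if_neg hc']; omega
    · have := (hS0 i hi).1
      by_cases hc' : c ∈ S'
      · rw [if_neg hi, if_pos hc']; omega
      · have := (hS0' c hc').1
        rw [if_neg hi, if_neg hc']; omega
  have hY2 : ∀ i ∈ S, ∀ c ∈ S', -(2 * (x i : ℤ) * col c) - α i - γ c =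
      -(2 * (x i : ℤ) * col c) + potR m (x i) + potC m Y (col c) := by
    intro i hi c hc'
    simp only [hα, hγ, if_pos hi, if_pos hc']; ring
  have hY0 : ∀ i c, 0 ≤ -(2 * (x i : ℤ) * col c) - α i - γ c := by
    intro i c
    by_cases h : i ∈ S ∧ c ∈ S'
    · rw [hY2 i h.1 c h.2]; exact cost_nonneg m Y _ (hxY i).le _
    · exact (hY1 i c h).le
  set g : A ⊕ I → MvPolynomial σ ℂ :=
    Sum.elim (fun _ => 1) fun i => if i ∈ S then lab i (J i) else 1 with hg
  obtain ⟨n, hn, hperm⟩ := permanent_mask (clsR A₀ S J) (clsC A₀ S' col) g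
    (cls_card A₀ S S' J col hJinj hcol.injOn hJim hc)
  refine ⟨(Nmat A₀ κ r₁ r₂ c₁ c₂ α γ x col lab).permanent, -∑ i, α i - ∑ c, γ c, n, hn, ?_, ?_⟩
  · have : ∏ a, g a = ∏ i ∈ S, lab i (J i) := by
      rw [Fintype.prod_sum_type]
      simp [hg, Finset.prod_ite_mem]
    rw [← this, ← hperm, permanent_map, Nmat_zero A₀ κ r₁ r₂ c₁ c₂ α γ x col J lab S S' hαr hγc
      (fun i hi => ⟨by simp only [hα, if_neg hi], (hS0 i hi).2⟩)
      (fun i hi => ⟨by simp only [hγ, if_neg hi], (hS0' i hi).2⟩) hY0 hY1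
      (fun i hi c hc' => by rw [hY2 i hi c hc', hzero i hi (col c) (hL c hc')])]
  · intro t ht
    have hprod : ∀ f : I → ℤ, ∏ a : A ⊕ I, (C (t ^ (-(Sum.elim (fun _ => 0) f a : ℤ))) :
        MvPolynomial σ ℂ) = C (t ^ (-∑ i, f i)) := by
      intro f
      rw [Fintype.prod_sum_type, ← Finset.sum_neg_distrib, zpow_finsum ht, map_prod]
      simp
    rw [permanent_map, sub_eq_add_neg, zpow_add₀ ht, map_mul, ← hprod, ← hprod,
      ← permanent_scale, Nmat_ne A₀ κ r₁ r₂ c₁ c₂ α γ x col lab ht hαr' hγc' hY0]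

end Pool.Agent.Lib.MP_8a52c3_lc.PermDet
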