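import Pool.Agent.Lib.MP_8a52c3_lc.PermDet.PermAlg
import Pool.Agent.Lib.MP_8a52c3_lc.PermDet.Tropical

/-! From an interval design to a polar system of the permanent with many solutions. -/

namespace Pool.Agent.Lib.MP_8a52c3_lc.PermDet

open MvPolynomial Matrix Finset Filter Topology

lemma Good.of_scale {σ : Type} [Fintype σ] [DecidableEq σ] {F : σ → MvPolynomial σ ℂ}
    {G : MvPolynomial σ ℂ} {x : σ → ℂ} (u : σ → ℂ) (hu : ∀ j, u j ≠ 0)
    (h : Good (fun j => C (u j) * F j) G x) : Good F G x := by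
  refine ⟨fun j => ?_, fun h0 => h.2.1 ?_, h.2.2⟩
  · have := h.1 j
    simp only [map_mul, eval_C] at this
    exact (mul_eq_zero.1 this).resolve_left (hu j)
  · have : jac (fun j => C (u j) * F j) x = Matrix.of fun i j => u i * jac F x i j := by
      ext i j; simp [jac]
    rw [this, det_mul_column, h0, mul_zero]

/-- First exponent of a tent. -/
def tent₁ (μ d k : ℤ) : ℤ := μ * (2 * d - 1 - 2 * k)

/-- Second exponent of a tent. -/
def tent₂ (μ b k : ℤ) : ℤ := μ * (2 * k + 1 - 2 * b)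

lemma tent_alive {μ b d k : ℤ} (hμ : 0 < μ) (h : b ≤ k ∧ k < d) :
    μ ≤ tent₁ μ d k ∧ μ ≤ tent₂ μ b k := by
  unfold tent₁ tent₂
  constructor <;> nlinarith [h.1, h.2]

lemma tent_dead {μ b d k : ℤ} (hμ : 0 < μ) (hbd : b ≤ d) (h : ¬ (b ≤ k ∧ k < d)) :
    min (tent₁ μ d k) (tent₂ μ b k) ≤ -μ ∧ tent₁ μ d k ≠ tent₂ μ b k := by
  unfold tent₁ tent₂
  by_cases h1 : b ≤ k
  · have h2 : d ≤ k := by omega
    exact ⟨(min_le_left _ _).trans (by nlinarith), ne_of_lt (by nlinarith)⟩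
  · have h2 : k + 1 ≤ b := by omega
    exact ⟨(min_le_right _ _).trans (by nlinarith), ne_of_gt (by nlinarith)⟩

/-- Rows alive at time `k`. -/
def alive {I : Type} [Fintype I] (b d : I → ℤ) (k : ℤ) : Finset I :=
  univ.filter fun i => b i ≤ k ∧ k < d i

/-- The product of the labels along the monotone matching at row time `k`, column time `L`. -/
noncomputable def labProd {I σ : Type} [Fintype I] (b d : I → ℤ) (x : I → ℕ)
    (lab : I → ℕ → MvPolynomial σ ℂ) (k : ℤ) (L : ℕ) : MvPolynomial σ ℂ :=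
  ∏ i ∈ alive b d k, lab i (L + ((alive b d k).filter fun i' => x i' < x i).card)

/-- The bordered matrix at row time `k` and column time `L`. -/
noncomputable def Xat {A I σ : Type} [DecidableEq A] (μ : ℤ) (w : ℕ) (b d : I → ℤ) (x col : I → ℕ)
    (lab : I → ℕ → MvPolynomial σ ℂ) (t : ℂ) (A₀ : Finset A) (κ : A → ℂ) (k : ℤ) (L : ℕ) :
    Matrix (A ⊕ I) (A ⊕ I) (MvPolynomial σ ℂ) :=
  Xmat t A₀ κ (fun i => tent₁ μ (d i) k) (fun i => tent₂ μ (b i) k)
    (fun c => tent₁ μ (col c + 1) L) (fun c => tent₂ μ (col c + 1 - w) L) x col lab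

lemma trop_at {A I σ : Type} [Fintype A] [Fintype I] [DecidableEq A] [DecidableEq I]
    (μ : ℤ) (w : ℕ) (b d : I → ℤ) (x col : I → ℕ) (lab : I → ℕ → MvPolynomial σ ℂ)
    (hbd : ∀ i, b i ≤ d i) (hx : Function.Injective x) (hcol : Function.Injective col)
    (hcol' : univ.image col = range (Fintype.card I)) (hμ0 : 0 < μ)
    (hμ : ∀ i c, 2 * (x i : ℤ) * col c + x i < μ) (A₀ : Finset A) (κ : A → ℂ) (k : ℤ) (L : ℕ)
    (hc : A₀.card + (alive b d k).card = Fintype.card I)
    (hL : L + (alive b d k).card ≤ Fintype.card I) (hw : (alive b d k).card ≤ w)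
    (hw' : (alive b d k).card = w ∨ L + (alive b d k).card = Fintype.card I) :
    ∃ (P : MvPolynomial (Unit ⊕ σ) ℂ) (E : ℤ) (n : ℕ), n ≠ 0 ∧
      spec (fun _ => 0) P = n • labProd b d x lab k L ∧
      ∀ t : ℂ, t ≠ 0 →
        spec (fun _ => t) P = C (t ^ E) * (Xat μ w b d x col lab t A₀ κ k L).permanent := by
  refine trop A₀ κ _ _ _ _ x col lab (alive b d k)
    (univ.filter fun c => (col c + 1 - w : ℤ) ≤ L ∧ (L : ℤ) < col c + 1) μ L hx hcol hμ
    (fun i hi => tent_alive hμ0 (mem_filter.1 hi).2)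
    (fun i hi => tent_dead hμ0 (hbd i) fun h => hi (mem_filter.2 ⟨mem_univ _, h⟩))
    (fun i hi => tent_alive hμ0 (mem_filter.1 hi).2)
    (fun i hi => tent_dead hμ0 (by omega) fun h => hi (mem_filter.2 ⟨mem_univ _, h⟩)) ?_ hc
  ext j
  simp only [mem_image, mem_filter, mem_univ, true_and, mem_Ico]
  constructor
  · rintro ⟨c, hc', rfl⟩
    have : col c ∈ range (Fintype.card I) := hcol' ▸ mem_image_of_mem col (mem_univ c)
    rw [mem_range] at this
    omega
  · intro hj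
    have : j ∈ univ.image col := by rw [hcol', mem_range]; omega
    obtain ⟨c, -, rfl⟩ := mem_image.1 this
    exact ⟨c, by omega, rfl⟩

lemma dperm_Xat {A I σ : Type} [Fintype A] [Fintype I] [DecidableEq A] [DecidableEq I]
    (μ : ℤ) (w : ℕ) (b d : I → ℤ) (x col : I → ℕ) (lab : I → ℕ → MvPolynomial σ ℂ)
    {t : ℂ} (ht : t ≠ 0) (A₁ : Finset A) (κ : A → ℂ) (hκ : Function.Injective κ) (a₀ : A)
    (ha₀ : a₀ ∈ A₁) (k₀ k : ℤ) (L₀ L : ℕ) :
    ∃ W : Matrix (A ⊕ I) (A ⊕ I) ℂ,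
      dperm (Xat μ w b d x col lab t A₁ κ k₀ L₀) (W.map (algebraMap ℂ _)) =
        (Xat μ w b d x col lab t (A₁.erase a₀) (fun _ => 0) k L).permanent := by
  obtain ⟨W, hW⟩ := two_sided (R := MvPolynomial σ ℂ) (A₁.map Function.Embedding.inl)
    (Sum.inl a₀ : A ⊕ I) (by simpa using ha₀) (Sum.elim (fun a => 1 + κ a * t) fun _ => 0)
    (by
      intro u hu v hv huv
      obtain ⟨a, -, rfl⟩ := mem_map.1 hu
      obtain ⟨a', -, rfl⟩ := mem_map.1 hv
      simp only [Function.Embedding.inl_apply, Sum.elim_inl, add_right_inj] at huv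
      rw [hκ (mul_right_cancel₀ ht huv)])
    (t ^ (2 * μ * (L₀ - L))) (t ^ (2 * μ * (L - L₀))) (t ^ (2 * μ * (k₀ - k))) (t ^ (2 * μ * (k - k₀)))
  refine ⟨W, ?_⟩
  have z1 : ∀ (u v e : ℤ), (t ^ (2 * μ * (u - v))) • (C (t ^ tent₁ μ e u) : MvPolynomial σ ℂ) =
      C (t ^ tent₁ μ e v) := by
    intro u v e
    rw [smul_eq_C_mul, ← map_mul, ← zpow_add₀ ht]
    congr 2
    unfold tent₁; ring
  have z2 : ∀ (u v e : ℤ), (t ^ (2 * μ * (v - u))) • (C (t ^ tent₂ μ e u) : MvPolynomial σ ℂ) =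
      C (t ^ tent₂ μ e v) := by
    intro u v e
    rw [smul_eq_C_mul, ← map_mul, ← zpow_add₀ ht]
    congr 2
    unfold tent₂; ring
  rw [hW _ (Sum.elim (fun _ => 0) fun c => C (t ^ tent₁ μ (col c + 1) L₀))
    (Sum.elim (fun _ => 0) fun c => C (t ^ tent₂ μ (col c + 1 - w) L₀))
    (Sum.elim (fun _ => 0) fun i => C (t ^ tent₁ μ (d i) k₀))
    (Sum.elim (fun _ => 0) fun i => C (t ^ tent₂ μ (b i) k₀))]
  · congr 1
    ext1 u v
    rcases u with a | i <;> rcases v with a' | c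
    · by_cases h1 : a = a₀
      · subst h1
        by_cases h2 : a' = a
        · subst h2; simp [Xat, Xmat]
        · simp [Xat, Xmat, h2, Ne.symm h2]
      · by_cases h2 : a' = a₀
        · subst h2; simp [Xat, Xmat, h1]
        · by_cases h3 : a ∈ A₁
          · simp [Xat, Xmat, h1, h2, h3]
          · by_cases h4 : a' ∈ A₁
            · have : a ≠ a' := fun h => h3 (h ▸ h4)
              simp [Xat, Xmat, h1, h2, h3, h4, this]
            · simp [Xat, Xmat, h1, h2, h3, h4]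
    · by_cases h1 : a = a₀
      · subst h1; simp [Xat, Xmat]
      · by_cases h3 : a ∈ A₁
        · simp [Xat, Xmat, h1, h3, z1, z2, uent, -eq_intCast, -map_zpow₀]
        · simp [Xat, Xmat, h1, h3]
    · by_cases h1 : a' = a₀
      · subst h1; simp [Xat, Xmat]
      · by_cases h3 : a' ∈ A₁
        · simp [Xat, Xmat, h1, h3, z1, z2, uent, -eq_intCast, -map_zpow₀]
        · simp [Xat, Xmat, h1, h3]
    · simp [Xat, Xmat]
  · intro u hu v
    obtain ⟨a, ha, rfl⟩ := mem_map.1 hu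
    rcases v with a' | c
    · simp [Xat, Xmat, ha]
    · simp [Xat, Xmat, ha, uent, smul_eq_C_mul]
  · intro u hu v
    obtain ⟨a, ha, rfl⟩ := mem_map.1 hu
    rcases v with a' | c
    · have : ¬ (a' = a ∧ a' ∉ A₁) := fun h => h.2 (h.1 ▸ ha)
      simp [Xat, Xmat, this]
    · simp [Xat, Xmat, ha, uent, smul_eq_C_mul]
  · intro u hu
    obtain ⟨a, ha, rfl⟩ := mem_map.1 hu
    simp

lemma aff_Xat {A I σ : Type} [DecidableEq A]
    (μ : ℤ) (w : ℕ) (b d : I → ℤ) (x col : I → ℕ) (lab : I → ℕ → MvPolynomial σ ℂ)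
    (hlab : ∀ i j, Aff (lab i j)) (t : ℂ) (A₁ : Finset A) (κ : A → ℂ) (k : ℤ) (L : ℕ) (u v) :
    Aff (Xat μ w b d x col lab t A₁ κ k L u v) := by
  have h0 : Aff (0 : MvPolynomial σ ℂ) := Submodule.zero_mem _
  rcases u with a | i <;> rcases v with a' | c <;> simp only [Xat, Xmat]
  · split_ifs
    exacts [aff_one, h0]
  · split_ifs
    exacts [aff_C _, h0]
  · split_ifs
    exacts [aff_C _, h0]
  · exact (hlab _ _).C_mul _

/-- An interval design yields a polar system of the permanent with as many nondegenerate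
solutions as its initial system. -/
theorem assemble {A I V : Type} [Fintype A] [Fintype I] [Fintype V] [DecidableEq A]
    [DecidableEq I] [DecidableEq V] (w : ℕ) (b d : I → ℤ) (x : I → ℕ)
    (lab : I → ℕ → MvPolynomial (Option V) ℂ) (hlab : ∀ i j, Aff (lab i j))
    (hbd : ∀ i, b i ≤ d i) (hx : Function.Injective x) (hw : 1 ≤ w) (hwI : w ≤ Fintype.card I)
    (hA : Fintype.card I + 1 ≤ Fintype.card A + w)
    (k₀ : ℤ) (hk₀ : (alive b d k₀).card + 1 = w)
    (h₀ : labProd b d x lab k₀ (Fintype.card I + 1 - w) = X none)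
    (k : Option V → ℤ) (L : Option V → ℕ) (hk : ∀ v, (alive b d (k v)).card = w)
    (hL : ∀ v, L v + w ≤ Fintype.card I) (h₁ : labProd b d x lab (k none) (L none) = 1)
    (Z : Finset (Option V → ℂ))
    (hZ : ∀ z ∈ Z, Good (fun j : Option V => j.elim (X none)
      fun v => labProd b d x lab (k (some v)) (L (some v)) - 1) 1 z) :
    ∃ (Xt : (A ⊕ I) × (A ⊕ I) → MvPolynomial (Option V) ℂ) (W : V → (A ⊕ I) × (A ⊕ I) → ℂ)
      (W₀ : (A ⊕ I) × (A ⊕ I) → ℂ) (Z' : Finset (Option V → ℂ)), (∀ a, Aff (Xt a)) ∧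
      Z'.card = Z.card ∧ ∀ z ∈ Z', Good (sys Xt W (permPoly (A ⊕ I)))
        (aeval Xt (dirD W₀ (permPoly (A ⊕ I)))) z := by
  classical
  set col : I → ℕ := fun i => Fintype.equivFin I i with hcoldef
  have hcol : Function.Injective col := fun i j h => (Fintype.equivFin I).injective (Fin.ext h)
  have hcol' : univ.image col = range (Fintype.card I) := by
    ext j
    simp only [mem_image, mem_univ, true_and, mem_range]
    constructor
    · rintro ⟨i, rfl⟩; exact (Fintype.equivFin I i).2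
    · intro hj; exact ⟨(Fintype.equivFin I).symm ⟨j, hj⟩, by simp [hcoldef]⟩
  set μ : ℤ := ((univ.sup fun ic : I × I => 2 * x ic.1 * col ic.2 + x ic.1 : ℕ) : ℤ) + 1 with hμdef
  have hμ0 : 0 < μ := by positivity
  have hμ : ∀ i c, 2 * (x i : ℤ) * col c + x i < μ := by
    intro i c
    have := Finset.le_sup (f := fun ic : I × I => 2 * x ic.1 * col ic.2 + x ic.1) (mem_univ (i, c))
    simp only at this
    rw [hμdef]
    exact_mod_cast Nat.lt_succ_of_le this
  obtain ⟨A₁, -, hA₁⟩ := Finset.exists_subset_card_eq (s := (univ : Finset A))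
    (n := Fintype.card I + 1 - w) (by rw [card_univ]; omega)
  obtain ⟨a₀, ha₀⟩ : A₁.Nonempty := by rw [← Finset.card_pos]; omega
  set κ : A → ℂ := fun a => ((Fintype.equivFin A a : ℕ) : ℂ) with hκdef
  have hκ : Function.Injective κ := fun i j h =>
    (Fintype.equivFin A).injective (Fin.ext (Nat.cast_injective (R := ℂ) h))
  obtain ⟨P₀, E₀, n₀, hn₀, hP₀, hP₀'⟩ := trop_at μ w b d x col lab hbd hx hcol hcol' hμ0 hμ A₁ κ k₀
    (Fintype.card I + 1 - w) (by omega) (by omega) (by omega) (by omega)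
  have hv := fun v => trop_at μ w b d x col lab hbd hx hcol hcol' hμ0 hμ (A₁.erase a₀) (fun _ => 0)
    (k v) (L v) (by rw [card_erase_of_mem ha₀, hk]; omega) (by rw [hk]; exact hL v) (hk v).le
    (Or.inl (hk v))
  choose P E n hn hP hP' using hv
  have hnC : ∀ {m : ℕ}, m ≠ 0 → ∀ Q : MvPolynomial (Option V) ℂ, C (m : ℂ)⁻¹ * (m • Q) = Q := by
    intro m hm Q
    rw [nsmul_eq_mul, ← mul_assoc, ← map_natCast (C : ℂ →+* MvPolynomial (Option V) ℂ), ← map_mul,
      inv_mul_cancel₀ (Nat.cast_ne_zero.2 hm), map_one, one_mul]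
  have hev := persist (π := Unit) (fun j : Option V => j.elim (C (n₀ : ℂ)⁻¹ * P₀)
    fun v => C (n (some v) : ℂ)⁻¹ * P (some v) - C (n none : ℂ)⁻¹ * P none)
    (C (n none : ℂ)⁻¹ * P none) (fun _ => 0) Z (by
      intro z hz
      have := hZ z hz
      convert this using 2 with j
      · cases j with
        | none => simp only [Option.elim, map_mul, algHom_C, algebraMap_eq, hP₀, hnC hn₀, h₀]
        | some v =>
          simp only [Option.elim, map_mul, map_sub, algHom_C, algebraMap_eq, hP, hnC (hn _), h₁]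
      · simp only [map_mul, algHom_C, algebraMap_eq, hP, hnC (hn _), h₁])
  have hcont : Tendsto (fun t : ℂ => (fun _ : Unit => t)) (𝓝[≠] 0) (𝓝 fun _ => 0) :=
    (Continuous.tendsto (by fun_prop) 0).mono_left nhdsWithin_le_nhds
  obtain ⟨t, ⟨Z', hZ', hgood⟩, ht⟩ := ((hcont.eventually hev).and self_mem_nhdsWithin).exists
  have ht : t ≠ 0 := ht
  choose W hW using fun v => dperm_Xat μ w b d x col lab ht A₁ κ hκ a₀ ha₀ k₀ (k v)
    (Fintype.card I + 1 - w) (L v)
  set Xs := Xat μ w b d x col lab t A₁ κ k₀ (Fintype.card I + 1 - w) with hXs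
  set s : Option V → ℂ := fun v => (n v : ℂ)⁻¹ * t ^ E v with hs
  have hd : ∀ (c c' : ℂ) (v v' : Option V),
      aeval (fun ab : (A ⊕ I) × (A ⊕ I) => Xs ab.1 ab.2)
        (dirD (fun ab => c * W v ab.1 ab.2 - c' * W v' ab.1 ab.2) (permPoly (A ⊕ I))) =
      C c * dperm Xs ((W v).map (algebraMap ℂ _)) - C c' * dperm Xs ((W v').map (algebraMap ℂ _)) := by
    intro c c' v v'
    rw [aeval_dirD_permPoly, ← dperm_lin]
    congr 1
    ext1 a b
    simp
  have hsp : ∀ v, spec (fun _ => t) (C (n v : ℂ)⁻¹ * P v) =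
      C (s v) * dperm Xs ((W v).map (algebraMap ℂ _)) := by
    intro v
    rw [map_mul, hP' v t ht, hW v, hs]
    simp only [algHom_C, algebraMap_eq, map_mul, mul_assoc]
  refine ⟨fun ab => Xs ab.1 ab.2,
    fun v ab => s (some v) * W (some v) ab.1 ab.2 - s none * W none ab.1 ab.2,
    fun ab => s none * W none ab.1 ab.2 - 0 * W none ab.1 ab.2, Z',
    fun ab => aff_Xat _ _ _ _ _ _ _ hlab _ _ _ _ _ _ _, hZ', fun z hz => ?_⟩
  refine Good.of_scale (fun j => j.elim ((n₀ : ℂ)⁻¹ * t ^ E₀) fun _ => 1) ?_ ?_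
  · rintro (_ | v)
    · exact mul_ne_zero (inv_ne_zero (Nat.cast_ne_zero.2 hn₀)) (zpow_ne_zero _ ht)
    · exact one_ne_zero
  · have := hgood z hz
    convert this using 2 with j
    · cases j with
      | none =>
        simp only [Option.elim, sys, aeval_permPoly, map_mul, algHom_C, algebraMap_eq,
          hP₀' t ht, mul_assoc]
        rfl
      | some v => simp only [Option.elim, sys, hd, map_sub, hsp, map_one, one_mul]
    · rw [hd, hsp, map_zero, zero_mul, sub_zero]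

end Pool.Agent.Lib.MP_8a52c3_lc.PermDet
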