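import Mathlib

/-! An elementary trihomogeneous Bezout-type inequality for nondegenerate solutions. -/

namespace Pool.Agent.Lib.MP_8a52c3_lc.PermDet

open Finset Filter Topology
open scoped Pointwise

/-- Products of a separating function with monomials in local coordinates are independent. -/
theorem linIndep_jets {R E ζ : Type} [CommRing R] [Algebra ℂ R] [Fintype E] [DecidableEq E]
    [DecidableEq ζ] (F : E → R) (g : ζ → R)
    (h : ∀ (z : ζ) (y : E → ℂ), ∃ φ : R →ₐ[ℂ] Polynomial ℂ,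
      (∀ e, (φ (F e)).coeff 0 = 0 ∧ (φ (F e)).coeff 1 = y e) ∧
        ∀ z', (φ (g z')).coeff 0 = if z' = z then 1 else 0) :
    LinearIndependent ℂ (fun p : ζ × (E → ℕ) => g p.1 * ∏ e, F e ^ p.2 e) := by
  classical
  rw [linearIndependent_iff']
  intro s c hsum p₁ hp₁
  by_contra hc₁
  set S := s.filter fun p => c p ≠ 0 with hS
  have hSne : S.Nonempty := ⟨p₁, mem_filter.2 ⟨hp₁, hc₁⟩⟩
  obtain ⟨p₀, hp₀, hmin⟩ := S.exists_min_image (fun p => ∑ e, p.2 e) hSne
  set τ := ∑ e, p₀.2 e with hτ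
  set T := S.filter fun p => p.1 = p₀.1 ∧ ∑ e, p.2 e = τ with hT
  set H : MvPolynomial E ℂ :=
    ∑ p ∈ T, MvPolynomial.monomial (Finsupp.equivFunOnFinite.symm p.2) (c p) with hH
  have hsum' : ∑ p ∈ S, c p • (g p.1 * ∏ e, F e ^ p.2 e) = 0 := by
    rw [← hsum, hS, Finset.sum_filter]
    refine Finset.sum_congr rfl fun p _ => ?_
    by_cases hp : c p = 0 <;> simp [hp]
  have hH0 : H = 0 := by
    refine MvPolynomial.funext fun y => ?_
    obtain ⟨φ, hφ, hg⟩ := h p₀.1 y
    have hF : ∀ e, φ (F e) = Polynomial.X * Polynomial.divX (φ (F e)) := by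
      intro e
      have := Polynomial.X_mul_divX_add (φ (F e))
      rw [(hφ e).1] at this
      simpa using this.symm
    have h1 := congrArg (fun q => (φ q).coeff τ) hsum'
    simp only [map_sum, map_smul, map_mul, map_prod, map_pow, map_zero,
      Polynomial.finset_sum_coeff, Polynomial.coeff_smul, Polynomial.coeff_zero] at h1
    rw [hH, map_sum, map_zero, ← h1, hT, Finset.sum_filter]
    refine Finset.sum_congr rfl fun p hp => ?_
    have e1 : φ (g p.1) * ∏ e, φ (F e) ^ p.2 e =
        Polynomial.X ^ (∑ e, p.2 e) * (φ (g p.1) * ∏ e, Polynomial.divX (φ (F e)) ^ p.2 e) := by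
      conv_lhs => rw [Finset.prod_congr rfl fun e _ => by rw [hF e, mul_pow]]
      rw [Finset.prod_mul_distrib, Finset.prod_pow_eq_pow_sum]
      ring
    rw [e1, Polynomial.coeff_X_pow_mul']
    have hge : τ ≤ ∑ e, p.2 e := hmin p hp
    by_cases hd : ∑ e, p.2 e = τ
    · rw [hd, if_pos le_rfl, Nat.sub_self, Polynomial.mul_coeff_zero, hg,
        Polynomial.coeff_zero_prod]
      have e2 : ∀ e, (Polynomial.divX (φ (F e)) ^ p.2 e).coeff 0 = y e ^ p.2 e := by
        intro e
        rw [Polynomial.coeff_zero_eq_eval_zero, Polynomial.eval_pow,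
          ← Polynomial.coeff_zero_eq_eval_zero, Polynomial.coeff_divX, zero_add, (hφ e).2]
      simp only [e2]
      by_cases hz : p.1 = p₀.1
      · simp [hz, MvPolynomial.eval_monomial, Finsupp.prod_fintype]
      · simp [hz]
    · have : ¬ (∑ e, p.2 e ≤ τ) := fun hle => hd (le_antisymm hle hge)
      simp [hd, this]
  have hp₀T : p₀ ∈ T := mem_filter.2 ⟨hp₀, rfl, rfl⟩
  have hco := congrArg (MvPolynomial.coeff (Finsupp.equivFunOnFinite.symm p₀.2)) hH0
  rw [hH, MvPolynomial.coeff_sum, Finset.sum_eq_single p₀] at hco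
  · simp at hco
    exact (mem_filter.1 hp₀).2 hco
  · intro p hp hne
    rw [MvPolynomial.coeff_monomial, if_neg]
    intro he
    apply hne
    exact Prod.ext (mem_filter.1 hp).2.1 (Finsupp.equivFunOnFinite.symm.injective he)
  · intro hn; exact absurd hp₀T hn

lemma prod_pow_mem {R E : Type} [CommRing R] [Algebra ℂ R] (N : Submodule ℂ R) (f : E → R)
    (hf : ∀ e, f e ∈ N) (α : E → ℕ) (s : Finset E) :
    ∏ e ∈ s, f e ^ α e ∈ N ^ (∑ e ∈ s, α e) := by
  classical
  induction s using Finset.induction_on with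
  | empty => simp [Submodule.one_le.1 le_rfl]
  | insert a s ha ih =>
    rw [Finset.prod_insert ha, Finset.sum_insert ha, pow_add]
    exact Submodule.mul_mem_mul (Submodule.pow_mem_pow _ (hf a) _) ih

/-- Monomials of degree `a` in a finite family. -/
noncomputable def mons {R A : Type} [CommRing R] [DecidableEq R] [Fintype A] [DecidableEq A]
    (ℓ : A → R) (a : ℕ) : Finset R :=
  ((univ : Finset A).finsuppAntidiag a).image fun α => ∏ i, ℓ i ^ α i

lemma card_mons_le {R A : Type} [CommRing R] [DecidableEq R] [Fintype A] [DecidableEq A]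
    (ℓ : A → R) (a : ℕ) : (mons ℓ a).card ≤ (Fintype.card A).multichoose a := by
  refine card_image_le.trans ?_
  rw [card_finsuppAntidiag_nat_eq_multichoose, card_univ]

lemma pow_le_span_mons {R A : Type} [CommRing R] [Algebra ℂ R] [DecidableEq R] [Fintype A]
    [DecidableEq A] (ℓ : A → R) (a : ℕ) :
    Submodule.span ℂ (Set.range ℓ) ^ a ≤ Submodule.span ℂ (mons ℓ a : Set R) := by
  induction a with
  | zero =>
    rw [pow_zero, Submodule.one_le]
    refine Submodule.subset_span ?_
    simp only [mons, coe_image]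
    exact ⟨0, by simp, by simp⟩
  | succ a ih =>
    rw [pow_succ]
    refine (mul_le_mul' ih le_rfl).trans ?_
    rw [Submodule.span_mul_span]
    refine Submodule.span_mono ?_
    rintro _ ⟨x, hx, _, ⟨i, rfl⟩, rfl⟩
    simp only [mons, coe_image] at hx ⊢
    obtain ⟨α, hα, rfl⟩ := hx
    refine ⟨α + Finsupp.single i 1, ?_, ?_⟩
    · simp only [mem_coe, mem_finsuppAntidiag, subset_univ, and_true] at hα ⊢
      simp only [Finsupp.coe_add, Pi.add_apply, Finset.sum_add_distrib]
      rw [hα]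
      simp [Finsupp.single_apply]
    · simp only [Finsupp.coe_add, Pi.add_apply, pow_add, Finset.prod_mul_distrib]
      congr 1
      rw [Finset.prod_eq_single i]
      · simp
      · intro j _ hj; simp [Finsupp.single_apply, hj.symm]
      · simp

/-- The finite form of the counting inequality. -/
theorem count_le {R ζ E₁ E₂ E₃ A₁ A₂ A₃ : Type} [CommRing R] [Algebra ℂ R] [Fintype ζ]
    [Fintype E₁] [Fintype E₂] [Fintype E₃] [Fintype A₁] [Fintype A₂] [Fintype A₃]
    (ℓ₁ : A₁ → R) (ℓ₂ : A₂ → R) (ℓ₃ : A₃ → R)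
    (F₁ : E₁ → R) (F₂ : E₂ → R) (F₃ : E₃ → R) (g : ζ → R) (e₀ : ℕ)
    (o₁ : (1 : R) ∈ Submodule.span ℂ (Set.range ℓ₁))
    (o₂ : (1 : R) ∈ Submodule.span ℂ (Set.range ℓ₂))
    (o₃ : (1 : R) ∈ Submodule.span ℂ (Set.range ℓ₃))
    (h₁ : ∀ e, F₁ e ∈ Submodule.span ℂ (Set.range ℓ₁) * Submodule.span ℂ (Set.range ℓ₃))
    (h₂ : ∀ e, F₂ e ∈ Submodule.span ℂ (Set.range ℓ₁) * Submodule.span ℂ (Set.range ℓ₂))
    (h₃ : ∀ e, F₃ e ∈ Submodule.span ℂ (Set.range ℓ₂) * Submodule.span ℂ (Set.range ℓ₃))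
    (hg : ∀ z, g z ∈ Submodule.span ℂ (Set.range ℓ₁) ^ e₀)
    (hli : LinearIndependent ℂ (fun p : ζ × ((E₁ ⊕ E₂ ⊕ E₃) → ℕ) =>
      g p.1 * ∏ e, Sum.elim F₁ (Sum.elim F₂ F₃) e ^ p.2 e)) (P Q : ℕ) :
    Fintype.card ζ * ((Fintype.card E₁ + 1).multichoose P * ((Fintype.card E₂ + 1).multichoose P *
      (Fintype.card E₃ + 1).multichoose Q)) ≤
      (Fintype.card A₁).multichoose (2 * P + e₀) * (Fintype.card A₂).multichoose (P + Q) *
        (Fintype.card A₃).multichoose (P + Q) := by
  classical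
  set L₁ := Submodule.span ℂ (Set.range ℓ₁) with hL₁
  set L₂ := Submodule.span ℂ (Set.range ℓ₂) with hL₂
  set L₃ := Submodule.span ℂ (Set.range ℓ₃) with hL₃
  let I := ζ × ((univ : Finset (Option E₁)).finsuppAntidiag P) ×
    ((univ : Finset (Option E₂)).finsuppAntidiag P) × ((univ : Finset (Option E₃)).finsuppAntidiag Q)
  let ι : I → ζ × ((E₁ ⊕ E₂ ⊕ E₃) → ℕ) := fun p =>
    (p.1, Sum.elim (fun e => p.2.1.1 (some e))
      (Sum.elim (fun e => p.2.2.1.1 (some e)) (fun e => p.2.2.2.1 (some e))))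
  have inj : ∀ {E : Type} [Fintype E] [DecidableEq E] (n : ℕ)
      (α β : (univ : Finset (Option E)).finsuppAntidiag n),
      (∀ e, α.1 (some e) = β.1 (some e)) → α = β := by
    intro E _ _ n α β hαβ
    have ha := (mem_finsuppAntidiag.1 α.2).1
    have hb := (mem_finsuppAntidiag.1 β.2).1
    rw [Fintype.sum_option] at ha hb
    simp only [hαβ] at ha
    refine Subtype.ext (Finsupp.ext fun o => ?_)
    cases o with
    | none => omega
    | some e => exact hαβ e
  have hι : Function.Injective ι := by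
    rintro ⟨z, α, β, γ⟩ ⟨z', α', β', γ'⟩ hh
    simp only [ι, Prod.mk.injEq] at hh
    obtain ⟨rfl, hh⟩ := hh
    obtain rfl : α = α' := inj P α α' fun e => congrFun hh (Sum.inl e)
    obtain rfl : β = β' := inj P β β' fun e => congrFun hh (Sum.inr (Sum.inl e))
    obtain rfl : γ = γ' := inj Q γ γ' fun e => congrFun hh (Sum.inr (Sum.inr e))
    rfl
  have hli' := hli.comp ι hι
  have mem : ∀ {E : Type} [Fintype E] [DecidableEq E] (N : Submodule ℂ R) (f : E → R) (n : ℕ)
      (α : (univ : Finset (Option E)).finsuppAntidiag n), (1 : R) ∈ N → (∀ e, f e ∈ N) →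
      ∏ e, f e ^ α.1 (some e) ∈ N ^ n := by
    intro E _ _ N f n α h1 hf
    have := prod_pow_mem N (fun o : Option E => o.elim 1 f) (by rintro (_ | e) <;> simp [h1, hf])
      α.1 univ
    rw [(mem_finsuppAntidiag.1 α.2).1, Fintype.prod_option] at this
    simpa using this
  set W : Finset R := mons ℓ₁ (2 * P + e₀) * mons ℓ₂ (P + Q) * mons ℓ₃ (P + Q) with hW
  have hsub : Set.range ((fun p : ζ × ((E₁ ⊕ E₂ ⊕ E₃) → ℕ) =>
      g p.1 * ∏ e, Sum.elim F₁ (Sum.elim F₂ F₃) e ^ p.2 e) ∘ ι) ≤
      Submodule.span ℂ (W : Set R) := by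
    rintro _ ⟨⟨z, α, β, γ⟩, rfl⟩
    have hle : L₁ ^ e₀ * ((L₁ * L₃) ^ P * ((L₁ * L₂) ^ P * (L₂ * L₃) ^ Q)) ≤
        Submodule.span ℂ (W : Set R) := by
      have : L₁ ^ e₀ * ((L₁ * L₃) ^ P * ((L₁ * L₂) ^ P * (L₂ * L₃) ^ Q)) =
          L₁ ^ (2 * P + e₀) * L₂ ^ (P + Q) * L₃ ^ (P + Q) := by ring
      rw [this, hW, coe_mul, coe_mul, ← Submodule.span_mul_span, ← Submodule.span_mul_span]
      exact mul_le_mul'
        (mul_le_mul' (pow_le_span_mons _ _) (pow_le_span_mons _ _)) (pow_le_span_mons _ _)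
    refine hle ?_
    simp only [Function.comp, ι, Fintype.prod_sum_type, Sum.elim_inl, Sum.elim_inr]
    refine Submodule.mul_mem_mul (hg z) (Submodule.mul_mem_mul ?_ (Submodule.mul_mem_mul ?_ ?_))
    · exact mem _ _ _ α (by simpa using Submodule.mul_mem_mul o₁ o₃) h₁
    · exact mem _ _ _ β (by simpa using Submodule.mul_mem_mul o₁ o₂) h₂
    · exact mem _ _ _ γ (by simpa using Submodule.mul_mem_mul o₂ o₃) h₃
  have hcard := linearIndependent_le_span_aux' _ hli' (W : Set R) hsub
  have hI : Fintype.card I = Fintype.card ζ * ((Fintype.card E₁ + 1).multichoose P *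
      ((Fintype.card E₂ + 1).multichoose P * (Fintype.card E₃ + 1).multichoose Q)) := by
    simp only [I, Fintype.card_prod, Fintype.card_coe, card_finsuppAntidiag_nat_eq_multichoose,
      card_univ, Fintype.card_option]
  rw [← hI]
  refine hcard.trans ?_
  simp only [Finset.coe_sort_coe, Fintype.card_coe]
  refine card_mul_le.trans (Nat.mul_le_mul (card_mul_le.trans ?_) (card_mons_le _ _))
  exact Nat.mul_le_mul (card_mons_le _ _) (card_mons_le _ _)

lemma multichoose_lower (n x : ℕ) : x ^ n ≤ n.factorial * (n + 1).multichoose x := by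
  rw [Nat.multichoose_eq, show n + 1 + x - 1 = x + n by omega, Nat.choose_symm_add,
    ← Nat.ascFactorial_eq_factorial_mul_choose]
  exact (Nat.pow_le_pow_left (Nat.le_succ x) n).trans (Nat.pow_succ_le_ascFactorial _ _)

lemma multichoose_upper (n x : ℕ) : n.factorial * (n + 1).multichoose x ≤ (x + n) ^ n := by
  rw [Nat.multichoose_eq, show n + 1 + x - 1 = x + n by omega, Nat.choose_symm_add,
    ← Nat.ascFactorial_eq_factorial_mul_choose]
  exact Nat.ascFactorial_le_pow_add _ _

/-- Passing to the limit in the counting inequality. -/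
theorem limit_le (D m K e₀ : ℕ)
    (h : ∀ P Q : ℕ, D * ((m + 1 + 1).multichoose P * ((m + 1 + 1).multichoose P *
      (K + 1).multichoose Q)) ≤
      (K + 1 + 1).multichoose (2 * P + e₀) * (m + 1 + 1).multichoose (P + Q) *
        (m + 1).multichoose (P + Q)) :
    (D : ℝ) ≤ (15 * (m + 1) / (K + 1)) ^ (K + 1) := by
  set p : ℕ := m + 1 with hp
  set q : ℕ := K + 1 with hq
  have step : ∀ T : ℕ, D * q * ((p * T) ^ p * ((p * T) ^ p * (q * T) ^ K)) ≤
      p * ((2 * (p * T) + e₀ + q) ^ q * (p * T + q * T + p) ^ p * (p * T + q * T + m) ^ m) := by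
    intro T
    have h0 := h (p * T) (q * T)
    have a1 := multichoose_lower p (p * T)
    have a2 := multichoose_lower K (q * T)
    have b1 := multichoose_upper q (2 * (p * T) + e₀)
    have b2 := multichoose_upper p (p * T + q * T)
    have b3 := multichoose_upper m (p * T + q * T)
    have fq : q.factorial = q * K.factorial := Nat.factorial_succ K
    have fp : p.factorial = p * m.factorial := Nat.factorial_succ m
    calc D * q * ((p * T) ^ p * ((p * T) ^ p * (q * T) ^ K))
        ≤ D * q * ((p.factorial * (p + 1).multichoose (p * T)) *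
          ((p.factorial * (p + 1).multichoose (p * T)) *
            (K.factorial * (K + 1).multichoose (q * T)))) := by gcongr
      _ = (q * K.factorial * p.factorial * p.factorial) * (D * ((p + 1).multichoose (p * T) *
          ((p + 1).multichoose (p * T) * (K + 1).multichoose (q * T)))) := by ring
      _ ≤ (q * K.factorial * p.factorial * p.factorial) *
          ((q + 1).multichoose (2 * (p * T) + e₀) * (p + 1).multichoose (p * T + q * T) *
            (m + 1).multichoose (p * T + q * T)) := Nat.mul_le_mul_left _ h0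
      _ = p * ((q.factorial * (q + 1).multichoose (2 * (p * T) + e₀)) *
          (p.factorial * (p + 1).multichoose (p * T + q * T)) *
            (m.factorial * (m + 1).multichoose (p * T + q * T))) := by
          rw [fq]
          conv_lhs => rw [show q * K.factorial * p.factorial * p.factorial =
            q * K.factorial * p.factorial * (p * m.factorial) by rw [← fp]]
          ring
      _ ≤ _ := by gcongr
  have hpos : (0 : ℝ) < p := by positivity
  have hqos : (0 : ℝ) < q := by positivity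
  have lim : Tendsto (fun T : ℕ => (p : ℝ) * ((2 * p + (e₀ + q : ℝ) / T) ^ q *
      (p + q + (p : ℝ) / T) ^ p * (p + q + (m : ℝ) / T) ^ m)) atTop
      (𝓝 ((p : ℝ) * ((2 * p + 0) ^ q * (p + q + 0) ^ p * (p + q + 0) ^ m))) := by
    have t : ∀ c : ℝ, Tendsto (fun T : ℕ => c / T) atTop (𝓝 0) :=
      fun c => tendsto_const_div_atTop_nhds_zero_nat c
    refine Tendsto.const_mul _ (Tendsto.mul (Tendsto.mul ?_ ?_) ?_)
    · exact ((t _).const_add _).pow _
    · exact ((t _).const_add _).pow _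
    · exact ((t _).const_add _).pow _
  have main : (D : ℝ) * q * (p ^ p * (p ^ p * q ^ K)) ≤
      (p : ℝ) * ((2 * p + 0) ^ q * (p + q + 0) ^ p * (p + q + 0) ^ m) := by
    refine ge_of_tendsto lim ?_
    filter_upwards [eventually_ge_atTop 1] with T hT
    have hT0 : (0 : ℝ) < T := by exact_mod_cast hT
    have hs : ((D * q * ((p * T) ^ p * ((p * T) ^ p * (q * T) ^ K)) : ℕ) : ℝ) ≤
        ((p * ((2 * (p * T) + e₀ + q) ^ q * (p * T + q * T + p) ^ p *
          (p * T + q * T + m) ^ m) : ℕ) : ℝ) := by exact_mod_cast step T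
    push_cast at hs
    have e1 : (2 * ((p : ℝ) * T) + e₀ + q) = (2 * p + (e₀ + q : ℝ) / T) * T := by
      field_simp; ring
    have e2 : ((p : ℝ) * T + q * T + p) = (p + q + (p : ℝ) / T) * T := by field_simp
    have e3 : ((p : ℝ) * T + q * T + m) = (p + q + (m : ℝ) / T) * T := by field_simp
    rw [e1, e2, e3] at hs
    simp only [mul_pow] at hs
    have hTpow : (0 : ℝ) < (T : ℝ) ^ (p + p + K) := by positivity
    refine le_of_mul_le_mul_right ?_ hTpow
    have e4 : (T : ℝ) ^ (p + p + K) = T ^ q * T ^ p * T ^ m := by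
      rw [← pow_add, ← pow_add]; congr 1; omega
    calc (D : ℝ) * q * (p ^ p * (p ^ p * q ^ K)) * T ^ (p + p + K)
        = D * q * (p ^ p * T ^ p * (p ^ p * T ^ p * (q ^ K * T ^ K))) := by ring
      _ ≤ _ := hs
      _ = _ := by rw [e4]; ring
  simp only [add_zero] at main
  have hexp : (1 + (q : ℝ) / p) ^ p ≤ Real.exp 1 ^ q := by
    calc (1 + (q : ℝ) / p) ^ p ≤ Real.exp (q / p) ^ p := by
          gcongr
          linarith [Real.add_one_le_exp ((q : ℝ) / p)]
      _ = Real.exp 1 ^ q := by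
          rw [← Real.exp_nat_mul, ← Real.exp_nat_mul]
          congr 1
          field_simp
  have hpq : ((p : ℝ) + q) = p * (1 + q / p) := by field_simp
  have hm : ((p : ℝ) + q) ^ m * p ≤ (p + q) ^ p := by
    rw [hp, pow_succ, ← hp]
    gcongr
    linarith
  have h2 : (D : ℝ) * q ^ q * (p ^ p * p ^ p) ≤ (2 * p) ^ q * ((p + q) ^ p * (p + q) ^ p) := by
    calc (D : ℝ) * q ^ q * (p ^ p * p ^ p) = D * q * (p ^ p * (p ^ p * q ^ K)) := by
          rw [hq, pow_succ, ← hq]; ring
      _ ≤ _ := main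
      _ = (2 * p) ^ q * ((p + q) ^ p * ((p + q) ^ m * p)) := by ring
      _ ≤ _ := by gcongr
  have h3 : (D : ℝ) * q ^ q ≤ (2 * p) ^ q * (Real.exp 1 ^ q * Real.exp 1 ^ q) := by
    have hpp : (0 : ℝ) < p ^ p * p ^ p := by positivity
    refine le_of_mul_le_mul_right (h2.trans ?_) hpp
    rw [hpq, mul_pow (p : ℝ)]
    calc (2 * (p : ℝ)) ^ q * (p ^ p * (1 + q / p) ^ p * (p ^ p * (1 + q / p) ^ p))
        ≤ (2 * p) ^ q * (p ^ p * Real.exp 1 ^ q * (p ^ p * Real.exp 1 ^ q)) := by gcongr
      _ = _ := by ring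
  have he : 2 * (Real.exp 1 * Real.exp 1) ≤ 15 := by
    have := Real.exp_one_lt_d9
    have h0 := Real.exp_pos 1
    nlinarith
  have hcast : ((m : ℝ) + 1) = p := by rw [hp]; push_cast; ring
  have hcast' : ((K : ℝ) + 1) = q := by rw [hq]; push_cast; ring
  rw [hcast, hcast', div_pow, le_div_iff₀ (by positivity)]
  refine h3.trans ?_
  rw [← mul_pow, ← mul_pow]
  refine pow_le_pow_left₀ (by positivity) ?_ _
  nlinarith

end Pool.Agent.Lib.MP_8a52c3_lc.PermDet
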