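import Pool.Agent.Lib.MP_8a52c3_lc.PermDet.Tropical

/-! Block factorisation of permanents and permanents of acyclic graphs. -/

namespace Pool.Agent.Lib.MP_8a52c3_lc.PermDet

open Matrix Equiv Finset

variable {R : Type} [CommRing R]

lemma permanent_submatrix_equiv {ι κ : Type} [Fintype ι] [DecidableEq ι] [Fintype κ]
    [DecidableEq κ] (M : Matrix ι ι R) (e₁ e₂ : κ ≃ ι) :
    (M.submatrix e₁ e₂).permanent = M.permanent := by
  simp only [permanent, submatrix_apply]
  refine Fintype.sum_equiv (Equiv.equivCongr e₂ e₁) _ _ fun σ => ?_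
  refine Fintype.prod_equiv e₂ _ _ fun i => ?_
  simp

lemma permanent_fromBlocks {m n : Type} [Fintype m] [DecidableEq m] [Fintype n] [DecidableEq n]
    (A : Matrix m m R) (B : Matrix m n R) (D : Matrix n n R) :
    (fromBlocks A B 0 D).permanent = A.permanent * D.permanent := by
  simp only [permanent]
  rw [← sum_subset (subset_univ (univ.image fun σ : Perm m × Perm n => σ.1.sumCongr σ.2)),
    sum_image, sum_mul_sum, ← sum_product', univ_product_univ]
  · refine sum_congr rfl fun σ _ => ?_
    rw [Fintype.prod_sum_type]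
    simp
  · intro σ₁ _ σ₂ _ h
    have h2 : ∀ x, Perm.sumCongr σ₁.fst σ₁.snd x = Perm.sumCongr σ₂.fst σ₂.snd x :=
      DFunLike.congr_fun h
    simp only [Sum.map_inr, Sum.map_inl, Perm.sumCongr_apply, Sum.forall, Sum.inl.injEq,
      Sum.inr.injEq] at h2
    ext x
    · exact h2.left x
    · exact h2.right x
  · intro σ _ hσ
    have h1 : ¬ Set.MapsTo σ (Set.range Sum.inl) (Set.range Sum.inl) := by
      intro h
      obtain ⟨τ, hτ⟩ := Perm.mem_sumCongrHom_range_of_perm_mapsTo_inl h
      exact hσ (mem_image.2 ⟨τ, mem_univ _, hτ⟩)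
    simp only [Set.MapsTo, Set.mem_range, forall_exists_index, forall_apply_eq_imp_iff,
      not_forall] at h1
    obtain ⟨a, ha⟩ := h1
    rcases hx : σ (Sum.inl a) with a2 | b
    · exact absurd ⟨a2, hx.symm⟩ ha
    · rw [Finset.prod_eq_zero (Finset.mem_univ (Sum.inl a))]
      rw [hx, fromBlocks_apply₂₁, Matrix.zero_apply]

lemma permanent_factor {ι J : Type} [Fintype ι] [DecidableEq ι] [Fintype J] [DecidableEq J]
    (M M' : Matrix ι ι R) (ρ γ : J → ι) (hρ : Function.Injective ρ) (hγ : Function.Injective γ)
    (h0 : ∀ a ∉ Set.range ρ, ∀ j, M a (γ j) = 0) (h0' : ∀ a ∉ Set.range ρ, ∀ j, M' a (γ j) = 0)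
    (hout : ∀ a ∉ Set.range ρ, ∀ c ∉ Set.range γ, M a c = M' a c)
    (h1 : ∀ j j', M' (ρ j) (γ j') = if j = j' then 1 else 0) :
    M.permanent = (Matrix.of fun j j' => M (ρ j) (γ j')).permanent * M'.permanent := by
  classical
  let f : {a // a ∉ Set.range ρ} ≃ {a // a ∉ Set.range γ} := Fintype.equivOfCardEq (by
    rw [Fintype.card_subtype_compl, Fintype.card_subtype_compl]
    congr 1
    exact Fintype.card_congr ((Equiv.ofInjective ρ hρ).symm.trans (Equiv.ofInjective γ hγ)))
  let e₁ : J ⊕ {a // a ∉ Set.range ρ} ≃ ι :=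
    (Equiv.sumCongr (Equiv.ofInjective ρ hρ) (Equiv.refl _)).trans (Equiv.sumCompl _)
  let e₂ : J ⊕ {a // a ∉ Set.range ρ} ≃ ι :=
    (Equiv.sumCongr (Equiv.ofInjective γ hγ) f).trans (Equiv.sumCompl _)
  have key : ∀ N : Matrix ι ι R, (∀ a ∉ Set.range ρ, ∀ j, N a (γ j) = 0) →
      N.permanent = (Matrix.of fun j j' => N (ρ j) (γ j')).permanent *
        (Matrix.of fun a c : {a // a ∉ Set.range ρ} => N a (f c)).permanent := by
    intro N hN
    rw [← permanent_submatrix_equiv N e₁ e₂, ← permanent_fromBlocks _
      (Matrix.of fun j (c : {a // a ∉ Set.range ρ}) => N (ρ j) (f c))]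
    congr 1
    ext a c
    rcases a with a | a <;> rcases c with c | c
    · rfl
    · rfl
    · exact hN a a.2 c
    · rfl
  rw [key M h0, key M' h0', show (Matrix.of fun j j' => M' (ρ j) (γ j')) = 1 by
    ext j j'; simp [h1, Matrix.one_apply], permanent_one, one_mul]
  congr 2
  ext a c
  exact hout a a.2 (f c) (f c).2

/-- The permanent attached to an acyclic graph with loops is the sum over its paths. -/
lemma permanent_path {J : Type} [Fintype J] [DecidableEq J] (M : Matrix J J R) (s : J)
    (ord : J → ℕ) (hd : ∀ j ≠ s, M j j = 1)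
    (ho : ∀ i, ∀ j ≠ s, i ≠ j → M i j ≠ 0 → ord i < ord j) (Q : J → R)
    (hQ : ∀ i, Q i = M i s + ∑ j ∈ univ.erase s, if j = i then 0 else M i j * Q j) :
    M.permanent = Q s := by
  set g : Perm J → R := fun σ => ∏ j ∈ univ.erase s, M (σ j) j with hg
  have hle : ∀ σ : Perm J, g σ ≠ 0 → ∀ j ≠ s, σ j = j ∨ ord (σ j) < ord j := by
    intro σ hσ j hj
    by_cases h : σ j = j
    · exact Or.inl h
    · exact Or.inr (ho _ j hj h fun h0 => hσ (prod_eq_zero (by simp [hj]) h0))
  set w : J → R := fun i => ∑ σ : Perm J, if σ s = i then g σ else 0 with hw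
  have hws : w s = 1 := by
    simp only [hw]
    rw [Finset.sum_eq_single 1]
    · simp only [Perm.coe_one, id_eq, if_true, hg]
      exact prod_eq_one fun j hj => hd j (ne_of_mem_erase hj)
    · intro σ _ hσ
      split_ifs with h
      · by_contra h0
        apply hσ
        have h1 : ∀ j ∈ (univ : Finset J), ord (σ j) ≤ ord j := by
          intro j _
          by_cases hj : j = s
          · rw [hj, h]
          · rcases hle σ h0 j hj with h' | h'
            · rw [h']
            · exact h'.le
        have h2 := (Finset.sum_eq_sum_iff_of_le h1).1 (Equiv.sum_comp σ ord)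
        ext j
        by_cases hj : j = s
        · rw [hj, h]; rfl
        · rcases hle σ h0 j hj with h' | h'
          · exact h'
          · exact absurd (h2 j (mem_univ _)) h'.ne
      · rfl
    · simp
  have hwj : ∀ j ≠ s, w j = ∑ i, if j = i then 0 else M i j * w i := by
    intro j hj
    have e1 : ∀ i, (if j = i then 0 else M i j * w i) =
        ∑ σ : Perm J, if σ s = i then (if σ j = j then M i j * g σ else 0) else 0 := by
      intro i
      split_ifs with hji
      · subst hji
        refine (sum_eq_zero fun σ _ => ?_).symm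
        split_ifs with h1 h2
        · exact absurd (σ.injective (h1.trans h2.symm)) hj.symm
        · rfl
        · rfl
      · simp only [hw, Finset.mul_sum]
        refine sum_congr rfl fun σ _ => ?_
        split_ifs with h1 h2
        · rfl
        · by_contra h0
          have h3 := ho i j hj (Ne.symm hji) (left_ne_zero_of_mul h0)
          have h4 := hle σ (right_ne_zero_of_mul h0)
          have h5 := Equiv.sum_comp σ fun y => if ord j ≤ ord y then 1 else 0
          refine absurd h5 (ne_of_lt (Finset.sum_lt_sum (fun y _ => ?_) ⟨j, mem_univ _, ?_⟩))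
          · by_cases hy : y = s
            · rw [hy, h1, if_neg (by omega)]; exact Nat.zero_le _
            · rcases h4 y hy with h' | h'
              · rw [h']
              · split_ifs <;> omega
          · have := (h4 j hj).resolve_left h2
            rw [if_neg (by omega), if_pos le_rfl]
            exact one_pos
        · exact mul_zero _
    simp only [e1]
    rw [Finset.sum_comm]
    simp only [Finset.sum_ite_eq, mem_univ, if_true, hw]
    refine Fintype.sum_equiv (Equiv.mulRight (Equiv.swap s j)) _ _ fun σ => ?_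
    simp only [Equiv.coe_mulRight, Perm.coe_mul, Function.comp_apply, swap_apply_left,
      swap_apply_right, hg]
    split_ifs with h
    · rw [← Finset.mul_prod_erase _ _ (show j ∈ univ.erase s by simp [hj]),
        ← Finset.mul_prod_erase (univ.erase s) _ (show j ∈ univ.erase s by simp [hj]),
        swap_apply_right, h, hd j hj, one_mul]
      congr 1
      refine prod_congr rfl fun y hy => ?_
      rw [swap_apply_of_ne_of_ne (ne_of_mem_erase (mem_of_mem_erase hy)) (ne_of_mem_erase hy)]
    · rfl
  have h1 : M.permanent = ∑ i, M i s * w i := by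
    simp only [hw, Finset.mul_sum, mul_ite, mul_zero]
    rw [Finset.sum_comm]
    simp only [Finset.sum_ite_eq, mem_univ, if_true, permanent, hg]
    exact sum_congr rfl fun σ _ => (Finset.mul_prod_erase _ _ (mem_univ s)).symm
  have h2 : ∑ i, Q i * w i = ∑ i, M i s * w i + ∑ j ∈ univ.erase s, Q j * w j := by
    rw [sum_congr rfl fun j hj => congrArg (Q j * ·) (hwj j (ne_of_mem_erase hj))]
    simp only [Finset.mul_sum]
    rw [Finset.sum_comm, ← Finset.sum_add_distrib]
    refine sum_congr rfl fun i _ => ?_
    rw [hQ i, add_mul, Finset.sum_mul]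
    congr 1
    refine sum_congr rfl fun j _ => ?_
    split_ifs <;> ring
  rw [← Finset.add_sum_erase _ _ (mem_univ s), hws, mul_one] at h2
  rw [h1]
  exact (add_right_cancel h2).symm

end Pool.Agent.Lib.MP_8a52c3_lc.PermDet
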