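import Pool.Agent.Lib.MP_8a52c3_lc.PermDet.Assemble

/-! The digit design: tracked rows, shifting rows and fresh rows. -/

namespace Pool.Agent.Lib.MP_8a52c3_lc.PermDet

open MvPolynomial Finset

/-- Value of a digit string. -/
def dval {b r : ℕ} (k : Fin r → Fin b) : ℕ := finFunctionFinEquiv k

/-- Value of the reversed digit string. -/
def dpos {b r : ℕ} (i : Fin r → Fin b) : ℕ := dval fun s => i s.rev

lemma dval_lt {b r : ℕ} (k : Fin r → Fin b) : dval k < b ^ r := (finFunctionFinEquiv k).2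

lemma dval_digit {b r : ℕ} (k : Fin r → Fin b) (s : Fin r) : dval k / b ^ (s : ℕ) % b = k s := by
  rw [dval, ← finFunctionFinEquiv_symm_apply_val, Equiv.symm_apply_apply]

lemma dpos_digit {b r : ℕ} (i : Fin r → Fin b) (s : Fin r) :
    dpos i / b ^ (s.rev : ℕ) % b = i s := by
  rw [dpos, dval_digit, Fin.rev_rev]

lemma dpos_injective {b r : ℕ} : Function.Injective (dpos : (Fin r → Fin b) → ℕ) := by
  intro i j h
  funext s
  exact Fin.ext (by rw [← dpos_digit i s, ← dpos_digit j s, h])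

lemma card_dpos_lt {b r : ℕ} (n : ℕ) (hn : n ≤ b ^ r) :
    (univ.filter fun i : Fin r → Fin b => dpos i < n).card = n := by
  have him : (univ : Finset (Fin r → Fin b)).image dpos = range (b ^ r) := by
    refine Finset.eq_of_subset_of_card_le (fun j hj => ?_) ?_
    · obtain ⟨i, -, rfl⟩ := mem_image.1 hj
      exact mem_range.2 (dval_lt _)
    · simp [card_image_of_injective _ dpos_injective]
  rw [← card_image_of_injective _ dpos_injective, ← Finset.filter_image (p := fun j => j < n), him,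
    show (range (b ^ r)).filter (fun j => j < n) = range n by
      ext j; simp only [mem_filter, mem_range]; omega, card_range]

lemma card_shift (n u : ℕ) (hu : u < n) (h : ℕ → ℕ) (hh : ∀ z, h z ≤ 1) :
    ((range n).filter fun z => z + h z ≤ u).card = u + (1 - h u) := by
  rcases Nat.le_one_iff_eq_zero_or_eq_one.1 (hh u) with h0 | h0
  · rw [h0, show (range n).filter (fun z => z + h z ≤ u) = range (u + 1) from ?_, card_range]
    ext z
    simp only [mem_filter, mem_range]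
    have := hh z
    constructor
    · omega
    · intro hz
      rcases Nat.lt_succ_iff_lt_or_eq.1 hz with h' | h'
      · omega
      · subst h'; omega
  · rw [h0, show (range n).filter (fun z => z + h z ≤ u) = range u from ?_, card_range]
    · simp
    ext z
    simp only [mem_filter, mem_range]
    have := hh z
    constructor
    · rintro ⟨-, hz⟩
      by_contra hc
      have : z = u := by omega
      subst this; omega
    · omega

/-- Shifting rows. -/
abbrev Dum (b r : ℕ) := Σ s : Fin r, Fin (b ^ (r - s)) × Fin (b ^ ((s : ℕ) + 1))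

/-- Window length. -/
def wd (b r : ℕ) : ℕ := b ^ r + ∑ s : Fin r, b ^ ((s : ℕ) + 1)

/-- All rows. -/
abbrev Row (b r : ℕ) := (Fin r → Fin b) ⊕ Dum b r ⊕ Fin (wd b r - 1)

noncomputable instance (b r : ℕ) : DecidableEq (Row b r) := Classical.decEq _

/-- Birth times. -/
def bi (b r : ℕ) : Row b r → ℤ
  | Sum.inl _ => 0
  | Sum.inr (Sum.inl d) => ((d.2.1 * b ^ (d.1 : ℕ) : ℕ) : ℤ)
  | Sum.inr (Sum.inr _) => ((b ^ r : ℕ) : ℤ)

/-- Death times. -/
def de (b r : ℕ) : Row b r → ℤ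
  | Sum.inl _ => ((b ^ r : ℕ) : ℤ)
  | Sum.inr (Sum.inl d) => (((d.2.1 + 1) * b ^ (d.1 : ℕ) : ℕ) : ℤ)
  | Sum.inr (Sum.inr _) => ((b ^ r + 1 : ℕ) : ℤ)

/-- Coarse positions. -/
def x0 (b r : ℕ) (Hn : ℕ → ℕ → ℕ) : Row b r → ℕ
  | Sum.inl i => 2 * dpos i + 1
  | Sum.inr (Sum.inl d) => 2 * (b ^ (d.1.rev : ℕ) * (d.2.2 + Hn d.2.1 d.2.2))
  | Sum.inr (Sum.inr _) => 0

/-- Positions with ties broken. -/
noncomputable def xr (b r : ℕ) (Hn : ℕ → ℕ → ℕ) (i : Row b r) : ℕ :=
  x0 b r Hn i * Fintype.card (Row b r) + Fintype.equivFin (Row b r) i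

/-- Reference offset of a tracked row. -/
def off {b r : ℕ} (i : Fin r → Fin b) : ℕ := dpos i + ∑ s : Fin r, dpos i / b ^ (s.rev : ℕ)

/-- Labels of the entries. -/
noncomputable def lab (b r nl : ℕ) : Row b r → ℕ →
    MvPolynomial (Option ((Fin r → Fin b) × Fin nl)) ℂ
  | Sum.inl i, j => 1 + ∑ l : Fin nl, if j = (r + 1) * l + off i then X (some (i, l)) - 1 else 0
  | Sum.inr (Sum.inl _), _ => 1
  | Sum.inr (Sum.inr ρ), _ => if (ρ : ℕ) = 0 then X none else 1

lemma aff_lab (b r nl : ℕ) (i : Row b r) (j : ℕ) : Aff (lab b r nl i j) := by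
  rcases i with i | d | ρ
  · refine Submodule.add_mem _ aff_one (Submodule.sum_mem _ fun l _ => ?_)
    split_ifs
    · exact Submodule.sub_mem _ (aff_X _) aff_one
    · exact Submodule.zero_mem _
  · exact aff_one
  · simp only [lab]
    split_ifs
    exacts [aff_X _, aff_one]

lemma bi_le_de (b r : ℕ) (i : Row b r) : bi b r i ≤ de b r i := by
  rcases i with i | d | ρ <;> simp only [bi, de]
  · positivity
  · exact_mod_cast Nat.mul_le_mul_right _ (Nat.le_succ _)
  · exact_mod_cast Nat.le_succ _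

lemma xr_lt {b r : ℕ} {Hn : ℕ → ℕ → ℕ} {i j : Row b r} (h : x0 b r Hn i < x0 b r Hn j) :
    xr b r Hn i < xr b r Hn j := by
  have h1 := (Fintype.equivFin (Row b r) i).2
  have h2 := Nat.mul_le_mul_right (Fintype.card (Row b r)) (Nat.succ_le_of_lt h)
  unfold xr
  rw [Nat.succ_mul] at h2
  omega

lemma xr_injective (b r : ℕ) (Hn : ℕ → ℕ → ℕ) : Function.Injective (xr b r Hn) := by
  intro i j h
  rcases lt_trichotomy (x0 b r Hn i) (x0 b r Hn j) with h' | h' | h'
  · exact absurd h (xr_lt h').ne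
  · unfold xr at h
    rw [h'] at h
    exact (Fintype.equivFin _).injective (Fin.ext (Nat.add_left_cancel h))
  · exact absurd h (xr_lt h').ne'

lemma xr_lt_iff {b r : ℕ} {Hn : ℕ → ℕ → ℕ} (i : Fin r → Fin b) (j : Row b r) :
    xr b r Hn j < xr b r Hn (Sum.inl i) ↔ x0 b r Hn j < 2 * dpos i + 1 := by
  refine ⟨fun h => ?_, fun h => xr_lt h⟩
  rcases lt_trichotomy (x0 b r Hn j) (x0 b r Hn (Sum.inl i)) with h' | h' | h'
  · exact h'
  · exfalso
    rcases j with j | d | ρ
    · simp only [x0] at h'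
      have : j = i := dpos_injective (by omega)
      subst this
      exact lt_irrefl _ h
    · simp only [x0] at h'; omega
    · simp only [x0] at h'; omega
  · exact absurd (xr_lt h') h.le.not_gt

lemma alive_dum {b r : ℕ} (hb : 0 < b) (κ : ℕ) (d : Dum b r) :
    (bi b r (Sum.inr (Sum.inl d)) ≤ κ ∧ (κ : ℤ) < de b r (Sum.inr (Sum.inl d))) ↔
      (d.2.1 : ℕ) = κ / b ^ (d.1 : ℕ) := by
  simp only [bi, de, Nat.cast_le, Nat.cast_lt]
  rw [eq_comm, Nat.div_eq_iff (pow_pos hb _), Nat.succ_mul]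
  have := pow_pos hb (d.1 : ℕ)
  omega

lemma sum_dum {b r : ℕ} (hb : 0 < b) (κ : ℕ) (hκ : κ < b ^ r) (f : Fin r → ℕ → ℕ → ℕ) :
    ∑ d : Dum b r, (if (d.2.1 : ℕ) = κ / b ^ (d.1 : ℕ) then f d.1 d.2.1 d.2.2 else 0) =
      ∑ s : Fin r, ∑ z ∈ range (b ^ ((s : ℕ) + 1)), f s (κ / b ^ (s : ℕ)) z := by
  rw [Fintype.sum_sigma]
  refine Finset.sum_congr rfl fun s _ => ?_
  have hlt : κ / b ^ (s : ℕ) < b ^ (r - s) := by
    rw [Nat.div_lt_iff_lt_mul (pow_pos hb _), ← pow_add, Nat.sub_add_cancel s.2.le]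
    exact hκ
  rw [Fintype.sum_prod_type, Finset.sum_eq_single (⟨_, hlt⟩ : Fin (b ^ (r - s)))]
  · simp only [if_true]
    exact Fin.sum_univ_eq_sum_range (fun z => f s (κ / b ^ (s : ℕ)) z) _
  · intro ν _ hν
    refine Finset.sum_eq_zero fun z _ => if_neg fun h => hν (Fin.ext h)
  · simp

lemma card_alive_filter {b r : ℕ} (hb : 0 < b) (κ : ℕ) (hκ : κ < b ^ r) (P : Row b r → Prop)
    [DecidablePred P] (f : Fin r → ℕ → ℕ → Prop) [∀ s u, DecidablePred (f s u)]
    (hf : ∀ d : Dum b r, P (Sum.inr (Sum.inl d)) ↔ f d.1 d.2.1 d.2.2) :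
    ((alive (bi b r) (de b r) κ).filter P).card = (univ.filter fun i => P (Sum.inl i)).card +
      ∑ s : Fin r, ((range (b ^ ((s : ℕ) + 1))).filter (f s (κ / b ^ (s : ℕ)))).card := by
  rw [alive, Finset.filter_filter]
  simp only [Finset.card_filter]
  rw [Fintype.sum_sum_type, Fintype.sum_sum_type,
    ← sum_dum hb κ hκ fun s u z => if f s u z then 1 else 0]
  congr 1
  · refine Finset.sum_congr rfl fun i _ => ?_
    have : bi b r (Sum.inl i) ≤ κ ∧ (κ : ℤ) < de b r (Sum.inl i) := by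
      simp only [bi, de]
      exact ⟨by positivity, by exact_mod_cast hκ⟩
    simp [this]
  · rw [Finset.sum_eq_zero (s := (univ : Finset (Fin (wd b r - 1)))), add_zero]
    · refine Finset.sum_congr rfl fun d _ => ?_
      simp only [alive_dum hb, hf]
      by_cases h : (d.2.1 : ℕ) = κ / b ^ (d.1 : ℕ) <;> simp [h]
    · intro ρ _
      have : ¬ (bi b r (Sum.inr (Sum.inr ρ)) ≤ κ) := by
        simp only [bi, Nat.cast_le]; omega
      simp [this]

lemma card_alive {b r : ℕ} (hb : 0 < b) (κ : ℕ) (hκ : κ < b ^ r) :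
    (alive (bi b r) (de b r) κ).card = wd b r := by
  have := card_alive_filter hb κ hκ (fun _ => True) (fun _ _ _ => True) fun _ => Iff.rfl
  simpa [wd] using this

lemma rank_tracked {b r : ℕ} (hb : 0 < b) (Hn : ℕ → ℕ → ℕ) (hH : ∀ u v, Hn u v ≤ 1)
    (k i : Fin r → Fin b) :
    ((alive (bi b r) (de b r) (dval k : ℕ)).filter
      fun j => xr b r Hn j < xr b r Hn (Sum.inl i)).card =
      off i + ∑ s : Fin r, (1 - Hn (dval k / b ^ (s : ℕ)) (dpos i / b ^ (s.rev : ℕ))) := by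
  rw [card_alive_filter hb _ (dval_lt k) _
    (fun s u z => z + Hn u z ≤ dpos i / b ^ (s.rev : ℕ))]
  · have h1 : (univ.filter fun j : Fin r → Fin b =>
        xr b r Hn (Sum.inl j) < xr b r Hn (Sum.inl i)).card = dpos i := by
      rw [← card_dpos_lt (b := b) (r := r) (dpos i) (dval_lt _).le]
      congr 1
      refine filter_congr fun j _ => ?_
      rw [xr_lt_iff]; simp only [x0]; omega
    rw [h1, off, add_assoc, ← Finset.sum_add_distrib]
    congr 1
    refine Finset.sum_congr rfl fun s _ => card_shift _ _ ?_ _ (hH _)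
    rw [Nat.div_lt_iff_lt_mul (pow_pos hb _), ← pow_add,
      show (s : ℕ) + 1 + s.rev = r by rw [Fin.val_rev]; omega]
    exact dval_lt _
  · intro d
    rw [xr_lt_iff, Nat.le_div_iff_mul_le (pow_pos hb _), mul_comm (_ + _)]
    simp only [x0]
    omega

lemma lab_tracked {b r nl : ℕ} (i : Fin r → Fin b) (l η : ℕ) (hη : η ≤ r) :
    lab b r nl (Sum.inl i) ((r + 1) * l + (off i + η)) =
      if h : η = 0 ∧ l < nl then X (some (i, ⟨l, h.2⟩)) else 1 := by
  have key : ∀ l' : ℕ, (r + 1) * l + (off i + η) = (r + 1) * l' + off i ↔ η = 0 ∧ l' = l := by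
    intro l'
    constructor
    · intro h
      have h1 : (r + 1) * l + η = (r + 1) * l' := by omega
      have h2 : η = 0 := Nat.eq_zero_of_dvd_of_lt
        ((Nat.dvd_add_right (Dvd.intro _ rfl)).1 (h1 ▸ Dvd.intro _ rfl)) (by omega)
      subst h2
      exact ⟨rfl, (Nat.eq_of_mul_eq_mul_left (by omega) h1).symm⟩
    · rintro ⟨rfl, rfl⟩; rfl
  simp only [lab, key]
  split_ifs with h
  · rw [Finset.sum_eq_single (⟨l, h.2⟩ : Fin nl)]
    · simp [h.1]
    · intro l' _ hl'
      exact if_neg fun h' => hl' (Fin.ext h'.2)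
    · simp
  · rw [Finset.sum_eq_zero, add_zero]
    intro l' _
    have := l'.2
    exact if_neg fun h' => h ⟨h'.1, by omega⟩

lemma labProd_time {b r nl : ℕ} (hb : 0 < b) (H₀ : Fin b → Fin b → ℕ) (hH : ∀ u v, H₀ u v ≤ 1)
    (k : Fin r → Fin b) (l : ℕ) :
    labProd (bi b r) (de b r)
      (xr b r fun u v => H₀ ⟨u % b, Nat.mod_lt _ hb⟩ ⟨v % b, Nat.mod_lt _ hb⟩) (lab b r nl)
      (dval k : ℕ) ((r + 1) * l) =
      if h : l < nl then ∏ i, X (some (i, ⟨l, h⟩)) ^ ∏ s, H₀ (k s) (i s) else 1 := by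
  have htr : ∀ i : Fin r → Fin b, lab b r nl (Sum.inl i) ((r + 1) * l +
      ((alive (bi b r) (de b r) (dval k : ℕ)).filter fun j =>
        xr b r (fun u v => H₀ ⟨u % b, Nat.mod_lt _ hb⟩ ⟨v % b, Nat.mod_lt _ hb⟩) j <
        xr b r (fun u v => H₀ ⟨u % b, Nat.mod_lt _ hb⟩ ⟨v % b, Nat.mod_lt _ hb⟩) (Sum.inl i)).card) =
      if h : l < nl then X (some (i, ⟨l, h⟩)) ^ ∏ s, H₀ (k s) (i s) else 1 := by
    intro i
    rw [rank_tracked hb _ fun _ _ => hH _ _]
    simp only [dval_digit, dpos_digit, Fin.eta]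
    rw [lab_tracked]
    · by_cases hl : l < nl
      · by_cases h1 : ∀ s, H₀ (k s) (i s) = 1
        · simp [hl, h1]
        · obtain ⟨s, hs⟩ := not_forall.1 h1
          have hs0 : H₀ (k s) (i s) = 0 := by have := hH (k s) (i s); omega
          rw [dif_neg, dif_pos hl, Finset.prod_eq_zero (mem_univ s) hs0, pow_zero]
          rintro ⟨h2, -⟩
          have := (Finset.sum_eq_zero_iff.1 h2) s (mem_univ s)
          omega
      · simp [hl]
    · calc ∑ s, (1 - H₀ (k s) (i s)) ≤ ∑ _s : Fin r, 1 := Finset.sum_le_sum fun _ _ => by omega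
        _ = r := by simp
  rw [labProd, alive, Finset.prod_filter, Fintype.prod_sum_type, Fintype.prod_sum_type,
    Finset.prod_eq_one (s := (univ : Finset (Dum b r))),
    Finset.prod_eq_one (s := (univ : Finset (Fin (wd b r - 1)))), mul_one, mul_one]
  · have : ∀ i : Fin r → Fin b, bi b r (Sum.inl i) ≤ (dval k : ℕ) ∧
        ((dval k : ℕ) : ℤ) < de b r (Sum.inl i) := fun i => by
      simp only [bi, de]
      exact ⟨by positivity, by exact_mod_cast dval_lt k⟩
    simp only [this, and_self, if_true]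
    rw [← alive]
    simp only [htr]
    split_ifs <;> simp
  · intro ρ _
    refine if_neg fun h => ?_
    have h1 := h.1
    have := dval_lt k
    simp only [bi, Nat.cast_le] at h1
    omega
  · intro d _
    split_ifs <;> rfl

lemma alive_last {b r : ℕ} (i : Row b r) :
    (bi b r i ≤ ((b ^ r : ℕ) : ℤ) ∧ ((b ^ r : ℕ) : ℤ) < de b r i) ↔
      ∃ ρ, i = Sum.inr (Sum.inr ρ) := by
  rcases i with i | d | ρ
  · simp [bi, de]
  · have h1 := Nat.mul_le_mul_right (b ^ (d.1 : ℕ)) (Nat.succ_le_of_lt d.2.1.2)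
    rw [← pow_add, Nat.sub_add_cancel d.1.2.le] at h1
    simp only [bi, de, Nat.cast_le, Nat.cast_lt, Sum.inr.injEq, reduceCtorEq, exists_false,
      iff_false, not_and, not_lt]
    exact fun _ => h1
  · simp only [bi, de, Nat.cast_le, Nat.cast_lt]
    simp

lemma alive_last_eq (b r : ℕ) : alive (bi b r) (de b r) ((b ^ r : ℕ) : ℤ) =
    univ.map (Function.Embedding.inr.trans Function.Embedding.inr) := by
  ext i
  simp only [alive, mem_filter, mem_univ, true_and, alive_last, mem_map, eq_comm]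
  rfl

lemma card_Row (b r : ℕ) : Fintype.card (Row b r) = b ^ r + (r * b ^ (r + 1) + (wd b r - 1)) := by
  simp only [Fintype.card_sum, Fintype.card_fun, Fintype.card_fin, Fintype.card_sigma,
    Fintype.card_prod]
  congr 2
  rw [Finset.sum_congr rfl fun (s : Fin r) _ =>
    show b ^ (r - (s : ℕ)) * b ^ ((s : ℕ) + 1) = b ^ (r + 1) by
    rw [← pow_add]; congr 1; have := s.2; omega]
  simp

lemma two_le_wd {b r : ℕ} (hb : 0 < b) (hr : 0 < r) : 2 ≤ wd b r := by
  have h1 := pow_pos hb r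
  have h2 : b ^ (((⟨0, hr⟩ : Fin r) : ℕ) + 1) ≤ ∑ s : Fin r, b ^ ((s : ℕ) + 1) :=
    Finset.single_le_sum (f := fun s : Fin r => b ^ ((s : ℕ) + 1)) (fun _ _ => Nat.zero_le _)
      (mem_univ _)
  have h3 := pow_pos hb (((⟨0, hr⟩ : Fin r) : ℕ) + 1)
  unfold wd
  omega

lemma wd_le {b r : ℕ} (hb : 0 < b) : wd b r ≤ (r + 1) * b ^ r := by
  have : ∑ s : Fin r, b ^ ((s : ℕ) + 1) ≤ ∑ _s : Fin r, b ^ r :=
    Finset.sum_le_sum fun s _ => Nat.pow_le_pow_right hb s.2
  simp only [Finset.sum_const, card_univ, Fintype.card_fin, smul_eq_mul] at this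
  unfold wd
  rw [Nat.succ_mul]
  omega

/-- The polar system of the permanent attached to the digit design. -/
theorem design {A : Type} [Fintype A] [DecidableEq A] {b r nl : ℕ} (hb : 0 < b) (hr : 0 < r)
    (H₀ : Fin b → Fin b → ℕ) (hH : ∀ u v, H₀ u v ≤ 1) (hnl : (r + 1) * nl ≤ r * b ^ (r + 1))
    (hA : Fintype.card (Row b r) ≤ Fintype.card A)
    (Z : Finset (Option ((Fin r → Fin b) × Fin nl) → ℂ))
    (hZ : ∀ z ∈ Z, Good (fun j : Option ((Fin r → Fin b) × Fin nl) => j.elim (X none)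
        fun v => (∏ i, X (some (i, v.2)) ^ ∏ s, H₀ (v.1 s) (i s)) - 1) 1 z) :
    ∃ (Xt : (A ⊕ Row b r) × (A ⊕ Row b r) → MvPolynomial (Option ((Fin r → Fin b) × Fin nl)) ℂ)
      (W : (Fin r → Fin b) × Fin nl → (A ⊕ Row b r) × (A ⊕ Row b r) → ℂ)
      (W₀ : (A ⊕ Row b r) × (A ⊕ Row b r) → ℂ) (Z' : Finset (Option _ → ℂ)), (∀ a, Aff (Xt a)) ∧
      Z'.card = Z.card ∧ ∀ z ∈ Z', Good (sys Xt W (permPoly (A ⊕ Row b r)))
        (aeval Xt (dirD W₀ (permPoly (A ⊕ Row b r)))) z := by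
  have hw := two_le_wd hb hr
  have hc := card_Row b r
  have hp := pow_pos hb r
  refine assemble (wd b r) (bi b r) (de b r)
    (xr b r fun u v => H₀ ⟨u % b, Nat.mod_lt _ hb⟩ ⟨v % b, Nat.mod_lt _ hb⟩) (lab b r nl)
    (aff_lab b r nl) (bi_le_de b r) (xr_injective _ _ _) (by omega) (by omega) (by omega)
    ((b ^ r : ℕ) : ℤ) ?_ ?_
    (fun v => (dval (v.elim (fun _ : Fin r => (⟨0, hb⟩ : Fin b)) Prod.fst) : ℕ))
    (fun v => (r + 1) * v.elim nl fun v => (v.2 : ℕ)) (fun v => card_alive hb _ (dval_lt _))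
    ?_ ?_ Z ?_
  · rw [alive_last_eq, card_map, card_univ, Fintype.card_fin]; omega
  · rw [labProd, alive_last_eq, Finset.prod_map,
      Finset.prod_eq_single (⟨0, by omega⟩ : Fin (wd b r - 1))]
    · simp [lab]
    · intro ρ _ hρ
      have : (ρ : ℕ) ≠ 0 := fun h => hρ (Fin.ext h)
      simp [lab, this]
    · simp
  · intro v
    have : (v.elim nl fun v => (v.2 : ℕ)) ≤ nl := by
      cases v with
      | none => exact le_rfl
      | some v => exact v.2.2.le
    have := Nat.mul_le_mul_left (r + 1) this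
    omega
  · simp only [Option.elim]
    rw [labProd_time hb H₀ hH, dif_neg (lt_irrefl _)]
  · intro z hz
    have := hZ z hz
    convert this using 3 with j v
    funext v
    simp only [Option.elim]
    rw [labProd_time hb H₀ hH, dif_pos v.2.2]

end Pool.Agent.Lib.MP_8a52c3_lc.PermDet
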