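import Pool.Agent.Lib.MP_8a52c3_lc.PermDet.Lanes
import Pool.Agent.Lib.MP_8a52c3_lc.PermDet.Design

/-! Many nondegenerate zeros for a composite of layers of characteristic polynomial maps. -/

namespace Pool.Agent.Lib.MP_8a52c3_lc.PermDet

open MvPolynomial Matrix Finset Filter Topology

lemma eval_aeval_poly {σ : Type} (Φ : σ → MvPolynomial σ ℂ) (z : σ → ℂ) (P : MvPolynomial σ ℂ) :
    eval z (aeval Φ P) = eval (fun a => eval z (Φ a)) P := by
  induction P using MvPolynomial.induction_on with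
  | C a => simp
  | add p q hp hq => simp only [map_add, hp, hq]
  | mul_X p i hp => simp only [map_mul, hp, aeval_X, eval_X]

lemma pderiv_aeval_poly {σ : Type} [Fintype σ] [DecidableEq σ] (Φ : σ → MvPolynomial σ ℂ)
    (z : σ → ℂ) (i : σ) (P : MvPolynomial σ ℂ) : eval z (pderiv i (aeval Φ P)) =
      ∑ a, eval (fun a => eval z (Φ a)) (pderiv a P) * eval z (pderiv i (Φ a)) := by
  induction P using MvPolynomial.induction_on with
  | C a => simp
  | add p q hp hq => simp only [map_add, hp, hq, add_mul, Finset.sum_add_distrib]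
  | mul_X p j hp =>
    simp only [map_mul, aeval_X, pderiv_mul, map_add, hp, eval_X, add_mul, Finset.sum_add_distrib,
      eval_aeval_poly, Finset.sum_mul, pderiv_X]
    congr 1
    · exact Finset.sum_congr rfl fun a _ => by ring
    · rw [Finset.sum_eq_single j]
      · simp
      · intro a _ ha
        simp [Pi.single_apply, ha.symm]
      · simp

lemma jac_comp {σ : Type} [Fintype σ] [DecidableEq σ] (Φ Ψ : σ → MvPolynomial σ ℂ) (z : σ → ℂ) :
    jac (fun j => aeval Φ (Ψ j)) z = jac Ψ (fun a => eval z (Φ a)) * jac Φ z := by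
  ext j i
  simp only [jac, of_apply, Matrix.mul_apply, pderiv_aeval_poly]

/-- Small values have at least `N` nondegenerate preimages. -/
def Many {σ : Type} [Fintype σ] [DecidableEq σ] (Φ : σ → MvPolynomial σ ℂ) (N : ℕ) : Prop :=
  ∀ᶠ c in 𝓝 (0 : σ → ℂ), ∃ Z : Finset (σ → ℂ), N ≤ Z.card ∧
    ∀ z ∈ Z, Good (fun j => Φ j - C (c j)) 1 z

lemma many_of_good {σ : Type} [Fintype σ] [DecidableEq σ] (Φ : σ → MvPolynomial σ ℂ) (N : ℕ)
    (Z : Finset (σ → ℂ)) (hN : N ≤ Z.card) (hZ : ∀ z ∈ Z, Good Φ 1 z) : Many Φ N := by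
  have := persist (π := σ) (fun j => rename Sum.inr (Φ j) - X (Sum.inl j)) 1 0 Z
    (fun z hz => by simpa using hZ z hz)
  filter_upwards [this] with c ⟨Z', h1, h2⟩
  exact ⟨Z', h1 ▸ hN, fun z hz => by simpa using h2 z hz⟩

lemma Many.comp {σ : Type} [Fintype σ] [DecidableEq σ] {Φ : σ → MvPolynomial σ ℂ} {N : ℕ}
    (h : Many Φ N) (Ψ : ℂ → σ → MvPolynomial σ ℂ) (Z₁ : Finset (σ → ℂ))
    (hΨ : ∀ δ ≠ 0, ∀ y ∈ Z₁, Good (Ψ δ) 1 (δ • y)) :
    ∃ δ, Many (fun j => aeval Φ (Ψ δ j)) (Z₁.card * N) := by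
  classical
  have h1 : ∀ y ∈ Z₁, ∀ᶠ δ : ℂ in 𝓝[≠] 0, ∃ Z : Finset (σ → ℂ), N ≤ Z.card ∧
      ∀ z ∈ Z, Good (fun j => Φ j - C ((δ • y) j)) 1 z := by
    intro y _
    have : Tendsto (fun δ : ℂ => δ • y) (𝓝 0) (𝓝 0) := by
      simpa using (Continuous.tendsto (f := fun δ : ℂ => δ • y) (by fun_prop) 0)
    exact (this.mono_left nhdsWithin_le_nhds).eventually h
  obtain ⟨δ, hδ, hδ0⟩ := (((eventually_all_finset Z₁).2 h1).and self_mem_nhdsWithin).exists
  have hδ0 : δ ≠ 0 := hδ0
  choose! Z hZ1 hZ2 using hδ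
  have hev : ∀ y ∈ Z₁, ∀ z ∈ Z y, (fun a => eval z (Φ a)) = δ • y := by
    intro y hy z hz
    funext a
    have := (hZ2 y hy z hz).1 a
    simpa [sub_eq_zero] using this
  refine ⟨δ, many_of_good _ _ (Z₁.biUnion Z) ?_ fun z hz => ?_⟩
  · rw [card_biUnion]
    · exact card_nsmul_le_sum Z₁ (fun y => (Z y).card) N hZ1
    · intro y hy y' hy' hne
      refine Finset.disjoint_left.2 fun z hz hz' => hne ?_
      exact smul_right_injective _ hδ0 ((hev y hy z hz).symm.trans (hev y' hy' z hz'))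
  · obtain ⟨y, hy, hz⟩ := mem_biUnion.1 hz
    refine ⟨fun j => ?_, ?_, by simp⟩
    · rw [eval_aeval_poly, hev y hy z hz]
      exact (hΨ δ hδ0 y hy).1 j
    · rw [jac_comp, hev y hy z hz, det_mul]
      refine mul_ne_zero (hΨ δ hδ0 y hy).2.1 ?_
      have := (hZ2 y hy z hz).2.1
      simpa [jac] using this

/-- One layer: characteristic polynomials along the digit `t`. -/
noncomputable def lay {b r : ℕ} (L : Type) (t : Fin r) (δ : ℂ) :
    Option ((Fin r → Fin b) × L) → MvPolynomial (Option ((Fin r → Fin b) × L)) ℂ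
  | none => X none
  | some v => ∏ j, (X (some (Function.update v.1 t j, v.2)) - C (δ * (v.1 t : ℕ)))

lemma lay_zeros {b r : ℕ} (L : Type) [Fintype L] [DecidableEq L] (t : Fin r) :
    ∃ Z₁ : Finset (Option ((Fin r → Fin b) × L) → ℂ),
      Z₁.card = b.factorial ^ (b ^ (r - 1) * Fintype.card L) ∧
      ∀ δ ≠ 0, ∀ y ∈ Z₁, Good (lay L t δ) 1 (δ • y) := by
  classical
  let pt : (({s // s ≠ t} → Fin b) × L → Equiv.Perm (Fin b)) → Option ((Fin r → Fin b) × L) → ℂ :=
    fun π o => o.elim 0 fun v => ((π (fun s => v.1 s, v.2) (v.1 t) : ℕ) : ℂ)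
  have hres : ∀ (y : Fin r → Fin b) (j : Fin b),
      (fun s : {s // s ≠ t} => Function.update y t j s) = fun s : {s // s ≠ t} => y s :=
    fun y j => funext fun s => Function.update_of_ne s.2 _ _
  refine ⟨univ.image pt, ?_, fun δ hδ y hy => ?_⟩
  · rw [card_image_of_injective]
    · simp [Fintype.card_perm, Fintype.card_subtype_compl]
    · intro π π' h
      funext ⟨y, l⟩
      ext j
      have := congrFun h (some ((Equiv.funSplitAt t (Fin b)).symm (j, y), l))
      have e1 : (fun s : {s // s ≠ t} => (Equiv.funSplitAt t (Fin b)).symm (j, y) s) = y :=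
        funext fun s => by simp [s.2]
      simp only [pt, Option.elim, e1] at this
      simpa using this
  · obtain ⟨π, -, rfl⟩ := mem_image.1 hy
    refine ⟨?_, fun h0 => ?_, by simp⟩
    · rintro (_ | ⟨y, l⟩)
      · simp [lay, pt]
      · simp only [lay, map_prod]
        refine prod_eq_zero (mem_univ ((π (fun s => y s, l)).symm (y t))) ?_
        simp [pt, hres]
    · obtain ⟨x, hx0, hx⟩ := Matrix.exists_mulVec_eq_zero_iff.2 h0
      apply hx0
      have hx' : ∀ j, (aeval (dpt (δ • pt π) x) (lay L t δ j)).snd = 0 := by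
        intro j
        rw [snd_aeval_dpt]
        exact congrFun hx j
      funext o
      rcases o with _ | ⟨y, l⟩
      · simpa [lay] using hx' none
      · have := hx' (some (Function.update y t (π (fun s => y s, l) (y t)), l))
        simp only [lay, map_prod, Function.update_idem, Function.update_self] at this
        rw [← Finset.mul_prod_erase _ _ (mem_univ (y t)), DualNumber.snd_mul] at this
        simp only [Function.update_eq_self, map_sub, aeval_X, aeval_C, TrivSqZeroExt.fst_sub,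
          fst_dpt, TrivSqZeroExt.snd_sub, snd_dpt, TrivSqZeroExt.algebraMap_eq_inl,
          TrivSqZeroExt.fst_inl, TrivSqZeroExt.snd_inl, sub_zero, Pi.smul_apply, smul_eq_mul, pt,
          Option.elim, sub_self, zero_mul, zero_add, Algebra.algebraMap_self,
          RingHom.id_apply] at this
        refine (mul_eq_zero.1 this).resolve_right ?_
        rw [← TrivSqZeroExt.fstHom_apply ℂ, map_prod]
        refine prod_ne_zero_iff.2 fun j hj => ?_
        simp only [TrivSqZeroExt.fstHom_apply, TrivSqZeroExt.fst_sub, fst_dpt, Pi.smul_apply,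
          smul_eq_mul, TrivSqZeroExt.fst_inl, hres, Function.update_self]
        rw [← mul_sub]
        refine mul_ne_zero hδ (sub_ne_zero.2 fun h => ne_of_mem_erase hj ?_)
        exact (π _).injective (Fin.ext (Nat.cast_injective h))

/-- The composite of the first layers. -/
noncomputable def Phi {b r : ℕ} (L : Type) (a : ℕ → ℂ) :
    ℕ → Option ((Fin r → Fin b) × L) → MvPolynomial (Option ((Fin r → Fin b) × L)) ℂ
  | 0 => X
  | t + 1 => if h : t < r then fun j => aeval (Phi L a t) (lay L ⟨t, h⟩ (a t) j) else Phi L a t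

lemma Phi_congr {b r : ℕ} (L : Type) (a a' : ℕ → ℂ) (t : ℕ) (h : ∀ s < t, a s = a' s) :
    Phi (b := b) (r := r) L a t = Phi L a' t := by
  induction t with
  | zero => rfl
  | succ t ih => simp only [Phi, ih fun s hs => h s (by omega), h t (by omega)]

lemma Phi_none {b r : ℕ} (L : Type) (a : ℕ → ℂ) (t : ℕ) :
    Phi (b := b) (r := r) L a t none = X none := by
  induction t with
  | zero => rfl
  | succ t ih =>
    simp only [Phi]
    split_ifs
    · simp [lay, ih]
    · exact ih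

lemma many_Phi {b r : ℕ} (L : Type) [Fintype L] [DecidableEq L] (t : ℕ) (ht : t ≤ r) :
    ∃ a, Many (Phi (b := b) (r := r) L a t)
      ((b.factorial ^ (b ^ (r - 1) * Fintype.card L)) ^ t) := by
  induction t with
  | zero =>
    refine ⟨0, many_of_good _ _ {0} (by simp) fun z hz => ⟨?_, ?_, by simp⟩⟩
    · simp [Phi, mem_singleton.1 hz]
    · rw [show jac (Phi L 0 0) z = 1 by
        ext i j; simp [jac, Phi, Pi.single_apply, Matrix.one_apply]]
      simp
  | succ t ih =>
    obtain ⟨a, ha⟩ := ih (by omega)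
    obtain ⟨Z₁, h1, h2⟩ := lay_zeros (b := b) L (⟨t, ht⟩ : Fin r)
    obtain ⟨δ, hδ⟩ := ha.comp _ Z₁ h2
    refine ⟨Function.update a t δ, ?_⟩
    rw [Phi, dif_pos (show t < r from ht), Function.update_self,
      Phi_congr L _ a t fun s hs => Function.update_of_ne hs.ne _ _, pow_succ']
    rw [h1] at hδ
    exact hδ

/-- Mixed digit string: time digits below `t`, position digits from `t` on. -/
def mixd {b r : ℕ} (hb : 0 < b) (k : Fin r → Fin b) (t β : ℕ) : Fin r → Fin b :=
  fun s => if (s : ℕ) < t then k s else ⟨β / b ^ (s - t) % b, Nat.mod_lt _ hb⟩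

lemma update_mixd {b r : ℕ} (hb : 0 < b) (k : Fin r → Fin b) (t : Fin r) (β : ℕ) (j : Fin b) :
    Function.update (mixd hb k (t + 1) β) t j = mixd hb k t (b * β + j) := by
  funext s
  rcases lt_trichotomy s t with h | rfl | h
  · have h' : (s : ℕ) < t := h
    rw [Function.update_of_ne h.ne, mixd, mixd, if_pos h', if_pos (by omega)]
  · rw [Function.update_self, mixd, if_neg (lt_irrefl _)]
    exact Fin.ext (by simp [Nat.mod_eq_of_lt j.2])
  · have h' : (t : ℕ) < s := h
    rw [Function.update_of_ne h.ne', mixd, mixd, if_neg (by omega), if_neg (by omega)]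
    refine Fin.ext ?_
    simp only
    rw [show (s : ℕ) - t = s - (t + 1) + 1 by omega, pow_succ', ← Nat.div_div_eq_div_mul,
      Nat.mul_add_div hb, Nat.div_eq_of_lt j.2, add_zero]

/-- The labels of the bypass edges. -/
noncomputable def lamL {b r : ℕ} (hb : 0 < b) (nl : ℕ) (a : ℕ → ℂ) (t β ν l : ℕ) :
    MvPolynomial (Option ((Fin r → Fin b) × Fin nl)) ℂ :=
  if h : l < nl then (if t = 0 then X (some (mixd hb (fun _ => ⟨0, hb⟩) 0 β, ⟨l, h⟩)) else 0) -
    C (if t < r then a t * (ν % b : ℕ) else 0) else if t = 0 then 1 else 0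

lemma aff_lamL {b r : ℕ} (hb : 0 < b) (nl : ℕ) (a : ℕ → ℂ) (t β ν l : ℕ) :
    Aff (lamL (r := r) hb nl a t β ν l) := by
  have h0 : Aff (0 : MvPolynomial (Option ((Fin r → Fin b) × Fin nl)) ℂ) := Submodule.zero_mem _
  unfold lamL
  by_cases h : l < nl
  · rw [dif_pos h]
    refine Submodule.sub_mem _ ?_ (aff_C _)
    split_ifs
    exacts [aff_X _, h0]
  · rw [dif_neg h]
    split_ifs
    exacts [aff_one, h0]

lemma Vb_last {b r : ℕ} (hb : 0 < b) (nl : ℕ) (a : ℕ → ℂ) (ν : ℕ → ℕ) (t β : ℕ) :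
    Vb b (fun t β => lamL (r := r) hb nl a t β (ν t) nl) t β = 1 := by
  induction t generalizing β with
  | zero => simp [Vb, lamL]
  | succ t ih =>
    simp only [Vb, ih]
    simp [lamL]

lemma Vb_Phi {b r : ℕ} (hb : 0 < b) (nl : ℕ) (a : ℕ → ℂ) (k : Fin r → Fin b) (l : Fin nl)
    (t : ℕ) (ht : t ≤ r) (β : ℕ) :
    Vb b (fun t β => lamL (r := r) hb nl a t β (dpos k / b ^ (r - 1 - t)) l) t β =
      Phi (Fin nl) a t (some (mixd hb k t β, l)) -
        C (if t < r then a t * (dpos k / b ^ (r - 1 - t) % b : ℕ) else 0) := by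
  induction t generalizing β with
  | zero =>
    simp only [Vb, lamL, dif_pos l.2, if_true, Phi]
    rfl
  | succ t ih =>
    have ht' : t < r := ht
    have hk : dpos k / b ^ (r - 1 - t) % b = k ⟨t, ht'⟩ := by
      rw [← dpos_digit k ⟨t, ht'⟩, Fin.val_rev, Nat.sub_sub, add_comm 1 t]
    simp only [Vb, ih ht'.le]
    simp only [lamL, dif_pos l.2, Nat.succ_ne_zero, if_false, Phi, dif_pos ht',
      lay, map_prod, map_sub, aeval_X, aeval_C, algebraMap_eq, if_pos ht', hk]
    rw [zero_sub, neg_add_eq_sub, ← Fin.prod_univ_eq_prod_range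
      (fun j => Phi (Fin nl) a t (some (mixd hb k t (b * β + j), l)) - C (a t * (k ⟨t, ht'⟩ : ℕ)))]
    congr 1
    refine prod_congr rfl fun j _ => ?_
    rw [← update_mixd hb k ⟨t, ht'⟩ β j]
    simp [mixd]

/-- The polar system of the permanent attached to the lane design. -/
theorem design3 {A : Type} [Fintype A] [DecidableEq A] {b r : ℕ} (hb : 2 ≤ b) (nl w : ℕ)
    (hw : Fintype.card (Bool × Blk b r) = w + 1)
    (hA : Fintype.card (LRow b r) + Fintype.card (LCol b r nl) ≤ Fintype.card A) :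
    ∃ (Xt : (A ⊕ (LRow b r ⊕ LCol b r nl) ⊕ Fin w) × (A ⊕ (LRow b r ⊕ LCol b r nl) ⊕ Fin w) →
        MvPolynomial (Option ((Fin r → Fin b) × Fin nl)) ℂ)
      (W : (Fin r → Fin b) × Fin nl →
        (A ⊕ (LRow b r ⊕ LCol b r nl) ⊕ Fin w) × (A ⊕ (LRow b r ⊕ LCol b r nl) ⊕ Fin w) → ℂ)
      (W₀ : (A ⊕ (LRow b r ⊕ LCol b r nl) ⊕ Fin w) × (A ⊕ (LRow b r ⊕ LCol b r nl) ⊕ Fin w) → ℂ)
      (Z : Finset (Option ((Fin r → Fin b) × Fin nl) → ℂ)),
      (∀ a, Aff (Xt a)) ∧ (b.factorial ^ (b ^ (r - 1) * nl)) ^ r ≤ Z.card ∧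
      ∀ z ∈ Z, Good (sys Xt W (permPoly (A ⊕ (LRow b r ⊕ LCol b r nl) ⊕ Fin w)))
        (aeval Xt (dirD W₀ (permPoly (A ⊕ (LRow b r ⊕ LCol b r nl) ⊕ Fin w)))) z := by
  have hb0 : 0 < b := by omega
  obtain ⟨a, ha⟩ := many_Phi (b := b) (r := r) (Fin nl) r le_rfl
  obtain ⟨Z, hZ1, hZ2⟩ := ha.self_of_nhds
  have hw0 : 0 < w := by
    have : 0 < Fintype.card (Blk b r) := Fintype.card_pos_iff.2 ⟨⟨0, ⟨0, pow_pos hb0 _⟩⟩⟩
    rw [Fintype.card_prod, Fintype.card_bool] at hw
    omega
  obtain ⟨Xt, W, W₀, Z', h1, h2, h3⟩ := assemble3 (A := A) w hw0 bR dR bC dC xiL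
    (YL (lamL (r := r) hb0 nl a)) (aff_YL _ (aff_lamL hb0 nl a)) bR_le bC_le hA
    (fun v => ((v.elim 0 fun v => dpos v.1 : ℕ) : ℤ)) (fun v => ((v.elim nl fun v => v.2 : ℕ) : ℤ))
    (fun v => v.elim 1 fun v => Phi (Fin nl) a r (some v)) (by
      rintro (_ | ⟨k, l⟩)
      · have := lanes_init hb (lamL (r := r) hb0 nl a) 0 nl (pow_pos hb0 r) le_rfl
        rw [hw, Vb_last hb0 nl a fun t => 0 / b ^ (r - 1 - t)] at this
        exact this
      · have := lanes_init hb (lamL (r := r) hb0 nl a) (dpos k) l (dval_lt _) l.2.le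
        rw [hw, Vb_Phi hb0 nl a k l r le_rfl, if_neg (lt_irrefl _), map_zero, sub_zero,
          show mixd hb0 k r 0 = k from funext fun s => if_pos s.2] at this
        exact this) Z (by
      intro z hz
      have := hZ2 z hz
      simp only [Pi.zero_apply, map_zero, sub_zero] at this
      have e : (fun j : Option ((Fin r → Fin b) × Fin nl) => j.elim (X none) fun v =>
          Phi (Fin nl) a r (some v)) = fun j => Phi (Fin nl) a r j := by
        funext j
        cases j
        · exact (Phi_none _ _ _).symm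
        · rfl
      exact e ▸ this)
  rw [Fintype.card_fin] at hZ1
  exact ⟨Xt, W, W₀, Z', h1, h2 ▸ hZ1, h3⟩

end Pool.Agent.Lib.MP_8a52c3_lc.PermDet
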