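import Pool.Agent.Lib.MP_8a52c3_lc.PermDet.Dual
import Pool.Agent.Lib.MP_8a52c3_lc.PermDet.Bezout

/-! The number of nondegenerate solutions of a polar system of an affine determinant. -/

namespace Pool.Agent.Lib.MP_8a52c3_lc.PermDet

open MvPolynomial Matrix

/-- Directional derivative in a constant direction. -/
noncomputable def dirD {ω : Type} (W : ω → ℂ) :
    Derivation ℂ (MvPolynomial ω ℂ) (MvPolynomial ω ℂ) :=
  mkDerivation ℂ fun a => C (W a)

@[simp] lemma dirD_X {ω : Type} (W : ω → ℂ) (a : ω) : dirD W (X a) = C (W a) :=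
  mkDerivation_X _ _ _

/-- The polar system: `f` and its derivatives in the directions `W l`, restricted along `Xt`. -/
noncomputable def sys {ω κ : Type} (Xt : ω → MvPolynomial (Option κ) ℂ) (W : κ → ω → ℂ)
    (f : MvPolynomial ω ℂ) : Option κ → MvPolynomial (Option κ) ℂ :=
  fun j => j.elim (aeval Xt f) fun l => aeval Xt (dirD (W l) f)

/-- Polynomials of degree at most one. -/
def Aff {σ : Type} (P : MvPolynomial σ ℂ) : Prop :=
  P ∈ Submodule.span ℂ (Set.range fun o : Option σ => (o.elim 1 X : MvPolynomial σ ℂ))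

lemma aff_one {σ : Type} : Aff (1 : MvPolynomial σ ℂ) := Submodule.subset_span ⟨none, rfl⟩

lemma aff_X {σ : Type} (i : σ) : Aff (X i : MvPolynomial σ ℂ) :=
  Submodule.subset_span ⟨some i, rfl⟩

lemma Aff.C_mul {σ : Type} {P : MvPolynomial σ ℂ} (h : Aff P) (c : ℂ) : Aff (C c * P) := by
  rw [← smul_eq_C_mul]; exact Submodule.smul_mem _ _ h

lemma aff_C {σ : Type} (c : ℂ) : Aff (C c : MvPolynomial σ ℂ) := by
  simpa using aff_one.C_mul c

lemma aff_of_totalDegree {σ : Type} (P : MvPolynomial σ ℂ) (h : P.totalDegree ≤ 1) : Aff P := by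
  classical
  rw [P.as_sum]
  refine Submodule.sum_mem _ fun α hα => ?_
  have hd : α.degree ≤ 1 := (le_totalDegree hα).trans h
  rcases Nat.le_one_iff_eq_zero_or_eq_one.1 hd with h0 | h1
  · rw [(Finsupp.degree_eq_zero_iff α).1 h0]
    exact aff_C _
  · obtain ⟨i, rfl⟩ : ∃ i, α = Finsupp.single i 1 := by
      have := (Finsupp.sum_eq_one_iff α).1 h1
      exact this
    rw [← C_mul_X_eq_monomial]
    exact (aff_X i).C_mul _

lemma Aff.map_mem {σ R : Type} [CommRing R] [Algebra ℂ R] {P : MvPolynomial σ ℂ} (h : Aff P)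
    (φ : MvPolynomial σ ℂ →ₐ[ℂ] R) (L : Submodule ℂ R) (h1 : (1 : R) ∈ L)
    (hX : ∀ i, φ (X i) ∈ L) : φ P ∈ L := by
  induction h using Submodule.span_induction with
  | mem x hx =>
    obtain ⟨o, rfl⟩ := hx
    cases o <;> simp [h1, hX]
  | zero => simp
  | add x y _ _ hx hy => rw [map_add]; exact L.add_mem hx hy
  | smul c x _ hx => rw [map_smul]; exact L.smul_mem c hx

lemma Aff.dirD_eq {ω : Type} {P : MvPolynomial ω ℂ} (h : Aff P) (W : ω → ℂ) :
    dirD W P = C (coeff 0 (dirD W P)) := by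
  induction h using Submodule.span_induction with
  | mem x hx =>
    obtain ⟨o, rfl⟩ := hx
    cases o <;> simp
  | zero => simp
  | add x y _ _ hx hy => rw [map_add, coeff_add, map_add, ← hx, ← hy]
  | smul c x _ hx =>
    rw [Derivation.map_smul, coeff_smul, smul_eq_mul, map_mul, ← hx, smul_eq_C_mul]

lemma derivation_prod {R ι : Type} [CommRing R] [Algebra ℂ R] [DecidableEq ι]
    (D : Derivation ℂ R R) (s : Finset ι) (f : ι → R) :
    D (∏ i ∈ s, f i) = ∑ i ∈ s, D (f i) * ∏ j ∈ s.erase i, f j := by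
  induction s using Finset.induction_on with
  | empty => simp
  | insert a s ha ih =>
    rw [Finset.prod_insert ha, Finset.sum_insert ha, Derivation.leibniz, ih,
      Finset.erase_insert ha, smul_eq_mul, smul_eq_mul, add_comm, mul_comm, Finset.mul_sum]
    congr 1
    refine Finset.sum_congr rfl fun i hi => ?_
    have hia : i ≠ a := fun h => ha (h ▸ hi)
    rw [Finset.erase_insert_of_ne hia.symm, Finset.prod_insert (by simp [ha])]
    ring

lemma derivation_det {R n : Type} [CommRing R] [Algebra ℂ R] [Fintype n] [DecidableEq n]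
    (D : Derivation ℂ R R) (M : Matrix n n R) :
    D M.det = (M.adjugate * M.map D).trace := by
  have h1 : ∀ i, (M.adjugate * M.map D) i i = (M.updateCol i fun k => D (M k i)).det := by
    intro i
    rw [← cramer_apply, cramer_eq_adjugate_mulVec]
    simp [Matrix.mul_apply, mulVec, dotProduct]
  simp only [trace, diag_apply, h1, det_apply, map_sum]
  rw [Finset.sum_comm]
  refine Finset.sum_congr rfl fun σ _ => ?_
  rw [← Finset.smul_sum, Units.smul_def, Units.smul_def, map_zsmul, derivation_prod]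
  congr 1
  refine Finset.sum_congr rfl fun i _ => ?_
  rw [← Finset.mul_prod_erase _ _ (Finset.mem_univ i), updateCol_self]
  congr 1
  refine Finset.prod_congr rfl fun j hj => ?_
  rw [updateCol_ne (Finset.ne_of_mem_erase hj)]

section rankone

variable {R n : Type} [CommRing R] [Fintype n] [DecidableEq n]

lemma ker_right (A : Matrix n n R) (a b : n → R) (hu : IsUnit (A + vecMulVec b a).det)
    (z : n → R) (h1 : A *ᵥ z = 0) (h2 : a ⬝ᵥ z = 0) : z = 0 := by
  have : (A + vecMulVec b a) *ᵥ z = 0 := by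
    rw [add_mulVec, h1, vecMulVec_mulVec, h2]; simp
  have h3 := congrArg (fun w => (A + vecMulVec b a)⁻¹ *ᵥ w) this
  simpa [mulVec_mulVec, nonsing_inv_mul _ hu] using h3

lemma ker_left (A : Matrix n n R) (a b : n → R) (hu : IsUnit (A + vecMulVec b a).det)
    (z : n → R) (h1 : z ᵥ* A = 0) (h2 : z ⬝ᵥ b = 0) : z = 0 := by
  refine ker_right Aᵀ b a ?_ z ?_ ?_
  · rw [← transpose_vecMulVec, ← transpose_add, det_transpose]; exact hu
  · rw [mulVec_transpose, h1]
  · rw [dotProduct_comm, h2]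

lemma adj_rank_one (A : Matrix n n R) (a b u v : n → R) (hu : IsUnit (A + vecMulVec b a).det)
    (hv : A *ᵥ v = 0) (hu' : u ᵥ* A = 0) (hav : a ⬝ᵥ v = 1) (hub : u ⬝ᵥ b = 1) :
    A.det = 0 ∧ ∃ κ : R, ∀ N : Matrix n n R, (A.adjugate * N).trace = κ * (u ⬝ᵥ N *ᵥ v) := by
  have hdet : A.det = 0 := by
    have h1 : A.adjugate *ᵥ (A *ᵥ v) = 0 := by rw [hv, mulVec_zero]
    rw [mulVec_mulVec, adjugate_mul, smul_mulVec, one_mulVec] at h1
    have h2 := congrArg (fun w => a ⬝ᵥ w) h1
    simpa [hav] using h2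
  refine ⟨hdet, (a ᵥ* A.adjugate) ⬝ᵥ b, fun N => ?_⟩
  have hcol : ∀ j, (fun i => A.adjugate i j) = ((a ᵥ* A.adjugate) j) • v := by
    intro j
    have h0 : A *ᵥ (fun i => A.adjugate i j) = 0 := by
      funext i
      have := congrFun (congrFun (mul_adjugate A) i) j
      rw [hdet] at this
      simpa [Matrix.mul_apply, mulVec, dotProduct] using this
    rw [← sub_eq_zero]
    refine ker_right A a b hu _ ?_ ?_
    · rw [mulVec_sub, mulVec_smul, hv, h0]; simp
    · rw [dotProduct_sub, dotProduct_smul, hav]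
      simp [vecMul, dotProduct]
  have hrow : a ᵥ* A.adjugate = ((a ᵥ* A.adjugate) ⬝ᵥ b) • u := by
    rw [← sub_eq_zero]
    refine ker_left A a b hu _ ?_ ?_
    · rw [sub_vecMul, smul_vecMul, hu', vecMul_vecMul, adjugate_mul, hdet]; simp
    · rw [sub_dotProduct, smul_dotProduct, hub]; simp
  set κ := (a ᵥ* A.adjugate) ⬝ᵥ b with hκ
  have hent : ∀ i j, A.adjugate i j = κ * (u j * v i) := by
    intro i j
    have h1 := congrFun (hcol j) i
    have h2 := congrFun hrow j
    simp only [Pi.smul_apply, smul_eq_mul] at h1 h2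
    rw [h1, h2]; ring
  simp only [trace, diag_apply, Matrix.mul_apply, hent, dotProduct, mulVec, Finset.mul_sum]
  rw [Finset.sum_comm]
  refine Finset.sum_congr rfl fun i _ => Finset.sum_congr rfl fun j _ => by ring

end rankone

lemma exists_border {n ζ : Type} [Fintype n] [DecidableEq n] (Z : Finset ζ)
    (A : ζ → Matrix n n ℂ) (h : ∀ x ∈ Z, (A x).adjugate ≠ 0) :
    ∃ a b : n → ℂ, ∀ x ∈ Z, (A x + vecMulVec b a).det ≠ 0 := by
  classical
  let P : ζ → MvPolynomial (n ⊕ n) ℂ := fun x =>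
    ((A x).map C + vecMulVec (fun i => X (Sum.inr i)) (fun i => X (Sum.inl i))).det
  have hP : ∀ x (w : n ⊕ n → ℂ),
      eval w (P x) = (A x + vecMulVec (w ∘ Sum.inr) (w ∘ Sum.inl)).det := by
    intro x w
    simp only [P]
    rw [RingHom.map_det]
    congr 1
    ext i j
    simp [vecMulVec_apply]
  have hne : ∀ x ∈ Z, P x ≠ 0 := by
    intro x hx h0
    apply h x hx
    ext p q
    have := hP x (Sum.elim (Pi.single p 1 - A x q) (Pi.single q 1))
    rw [h0, map_zero] at this
    rw [adjugate_apply, Matrix.zero_apply, this]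
    congr 1
    ext i j
    by_cases hi : i = q
    · subst hi; simp [vecMulVec_apply]
    · simp [vecMulVec_apply, updateRow_ne hi, hi]
  have hprod : ∏ x ∈ Z, P x ≠ 0 := Finset.prod_ne_zero_iff.2 hne
  by_contra hcon
  apply hprod
  refine MvPolynomial.funext fun w => ?_
  rw [map_prod, map_zero]
  by_contra hw
  apply hcon
  refine ⟨w ∘ Sum.inl, w ∘ Sum.inr, fun x hx => ?_⟩
  rw [← hP]
  exact Finset.prod_ne_zero_iff.1 hw x hx

/-- Restriction of a polynomial to the line `z + t δ`. -/
noncomputable def line {τ : Type} (z δ : τ → ℂ) : MvPolynomial τ ℂ →ₐ[ℂ] Polynomial ℂ :=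
  aeval fun i => Polynomial.C (z i) + Polynomial.C (δ i) * Polynomial.X

lemma line_coeff {τ : Type} (z δ : τ → ℂ) (P : MvPolynomial τ ℂ) :
    (line z δ P).coeff 0 = (aeval (dpt z δ) P).fst ∧
      (line z δ P).coeff 1 = (aeval (dpt z δ) P).snd := by
  induction P using MvPolynomial.induction_on with
  | C a => simp [line, TrivSqZeroExt.algebraMap_eq_inl, Polynomial.coeff_C]
  | add p q hp hq => simp [hp, hq]
  | mul_X p i hp =>
    rw [map_mul, map_mul, Polynomial.mul_coeff_zero, Polynomial.mul_coeff_one, hp.1, hp.2,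
      DualNumber.snd_mul, TrivSqZeroExt.fst_mul]
    simp [line, Polynomial.coeff_C]

end Pool.Agent.Lib.MP_8a52c3_lc.PermDet
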