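import Pool.Agent.Lib.MP_8a52c3_lc.PermDet.DetBound

/-! The kernel-incidence lift and the resulting upper bound. -/

namespace Pool.Agent.Lib.MP_8a52c3_lc.PermDet

open MvPolynomial Matrix

section lift

variable {σ κ n : Type} [Fintype n] [DecidableEq n]

/-- Variables of the lifted system. -/
abbrev LV (σ n : Type) := σ ⊕ Option n ⊕ n

/-- Equations `a · v = 1`, `A v = 0`. -/
noncomputable def eq₁ (A : Matrix n n (MvPolynomial σ ℂ)) (a : n → ℂ) :
    Option n → MvPolynomial (LV σ n) ℂ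
  | none => (∑ j, C (a j) * X (Sum.inr (Sum.inr j))) - 1
  | some i => ∑ j, rename Sum.inl (A i j) * X (Sum.inr (Sum.inr j))

/-- Equations `u · b = 1`, `u A + s a = 0`. -/
noncomputable def eq₂ (A : Matrix n n (MvPolynomial σ ℂ)) (a b : n → ℂ) :
    Option n → MvPolynomial (LV σ n) ℂ
  | none => (∑ i, X (Sum.inr (Sum.inl (some i))) * C (b i)) - 1
  | some j => (∑ i, X (Sum.inr (Sum.inl (some i))) * rename Sum.inl (A i j)) +
      X (Sum.inr (Sum.inl none)) * C (a j)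

/-- Equations `u N v = 0`. -/
noncomputable def eq₃ (N : κ → Matrix n n ℂ) : κ → MvPolynomial (LV σ n) ℂ :=
  fun l => ∑ i, X (Sum.inr (Sum.inl (some i))) * ∑ j, C (N l i j) * X (Sum.inr (Sum.inr j))

variable {R : Type} [CommRing R] [Algebra ℂ R]

lemma aeval_eq₁_none (A : Matrix n n (MvPolynomial σ ℂ)) (a : n → ℂ) (w : LV σ n → R) :
    aeval w (eq₁ A a none) =
      (fun j => algebraMap ℂ R (a j)) ⬝ᵥ (fun j => w (Sum.inr (Sum.inr j))) - 1 := by
  simp [eq₁, dotProduct]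

lemma aeval_eq₁_some (A : Matrix n n (MvPolynomial σ ℂ)) (a : n → ℂ) (w : LV σ n → R) (i : n) :
    aeval w (eq₁ A a (some i)) =
      (A.map (aeval (w ∘ Sum.inl)) *ᵥ (fun j => w (Sum.inr (Sum.inr j)))) i := by
  simp [eq₁, dotProduct, mulVec, aeval_rename]

lemma aeval_eq₂_none (A : Matrix n n (MvPolynomial σ ℂ)) (a b : n → ℂ) (w : LV σ n → R) :
    aeval w (eq₂ A a b none) =
      (fun i => w (Sum.inr (Sum.inl (some i)))) ⬝ᵥ (fun j => algebraMap ℂ R (b j)) - 1 := by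
  simp [eq₂, dotProduct]

lemma aeval_eq₂_some (A : Matrix n n (MvPolynomial σ ℂ)) (a b : n → ℂ) (w : LV σ n → R) (j : n) :
    aeval w (eq₂ A a b (some j)) =
      ((fun i => w (Sum.inr (Sum.inl (some i)))) ᵥ* A.map (aeval (w ∘ Sum.inl))) j +
        w (Sum.inr (Sum.inl none)) * algebraMap ℂ R (a j) := by
  simp [eq₂, dotProduct, vecMul, aeval_rename]

lemma aeval_eq₃ (N : κ → Matrix n n ℂ) (w : LV σ n → R) (l : κ) :
    aeval w (eq₃ (σ := σ) N l) = (fun i => w (Sum.inr (Sum.inl (some i)))) ⬝ᵥ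
      (N l).map (algebraMap ℂ R) *ᵥ (fun j => w (Sum.inr (Sum.inr j))) := by
  simp [eq₃, dotProduct, mulVec]

/-- Nondegeneracy of the lifted system. -/
lemma lift_inj (A : Matrix n n (MvPolynomial σ ℂ)) (N : κ → Matrix n n ℂ) (a b : n → ℂ)
    (z δ : LV σ n → ℂ)
    (hdet : (A.map (eval (z ∘ Sum.inl)) + vecMulVec b a).det ≠ 0)
    (hnd : ∀ δ' : σ → ℂ, aeval (dpt (z ∘ Sum.inl) δ') A.det = 0 →
      (∀ l, aeval (dpt (z ∘ Sum.inl) δ') (A.adjugate * (N l).map C).trace = 0) → δ' = 0)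
    (hz : ∀ e, aeval (dpt z 0) (Sum.elim (eq₁ A a) (Sum.elim (eq₂ A a b) (eq₃ N)) e) = 0)
    (hδ : ∀ e, aeval (dpt z δ) (Sum.elim (eq₁ A a) (Sum.elim (eq₂ A a b) (eq₃ N)) e) = 0) :
    δ = 0 := by
  have facts : ∀ δ : LV σ n → ℂ,
      (∀ e, aeval (dpt z δ) (Sum.elim (eq₁ A a) (Sum.elim (eq₂ A a b) (eq₃ N)) e) = 0) →
      (fun j => algebraMap ℂ (DualNumber ℂ) (a j)) ⬝ᵥ (fun j => dpt z δ (Sum.inr (Sum.inr j))) = 1 ∧
      A.map (aeval (dpt z δ ∘ Sum.inl)) *ᵥ (fun j => dpt z δ (Sum.inr (Sum.inr j))) = 0 ∧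
      (fun i => dpt z δ (Sum.inr (Sum.inl (some i)))) ⬝ᵥ
        (fun j => algebraMap ℂ (DualNumber ℂ) (b j)) = 1 ∧
      dpt z δ (Sum.inr (Sum.inl none)) = 0 ∧
      (fun i => dpt z δ (Sum.inr (Sum.inl (some i)))) ᵥ* A.map (aeval (dpt z δ ∘ Sum.inl)) = 0 ∧
      ∀ l, (fun i => dpt z δ (Sum.inr (Sum.inl (some i)))) ⬝ᵥ
        (N l).map (algebraMap ℂ (DualNumber ℂ)) *ᵥ (fun j => dpt z δ (Sum.inr (Sum.inr j))) = 0 := by
    intro δ h
    have h1 := h (Sum.inl none)
    have h2 := fun i => h (Sum.inl (some i))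
    have h3 := h (Sum.inr (Sum.inl none))
    have h4 := fun i => h (Sum.inr (Sum.inl (some i)))
    have h5 := fun l => h (Sum.inr (Sum.inr l))
    simp only [Sum.elim_inl, Sum.elim_inr, aeval_eq₁_none, aeval_eq₁_some, aeval_eq₂_none,
      aeval_eq₂_some, aeval_eq₃, sub_eq_zero] at h1 h2 h3 h4 h5
    have h2' := funext h2
    set u := fun i => dpt z δ (Sum.inr (Sum.inl (some i)))
    set v := fun j => dpt z δ (Sum.inr (Sum.inr j))
    set s := dpt z δ (Sum.inr (Sum.inl none))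
    set At := A.map (aeval (dpt z δ ∘ Sum.inl))
    set at' := fun j => algebraMap ℂ (DualNumber ℂ) (a j)
    have h4' : u ᵥ* At + s • at' = 0 := funext h4
    have hs : s = 0 := by
      have := congrArg (fun w => w ⬝ᵥ v) h4'
      simp only [add_dotProduct, smul_dotProduct, zero_dotProduct, ← dotProduct_mulVec] at this
      rw [h1, show At *ᵥ v = 0 from h2'] at this
      simpa using this
    refine ⟨h1, h2', h3, hs, ?_, h5⟩
    rw [hs] at h4'
    simpa using h4'
  have hunit : ∀ δ : LV σ n → ℂ, IsUnit (A.map (aeval (dpt z δ ∘ Sum.inl)) +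
      vecMulVec (fun j => algebraMap ℂ (DualNumber ℂ) (b j))
        (fun j => algebraMap ℂ (DualNumber ℂ) (a j))).det := by
    intro δ
    rw [TrivSqZeroExt.isUnit_iff_isUnit_fst, isUnit_iff_ne_zero]
    have := (TrivSqZeroExt.fstHom ℂ ℂ ℂ).map_det (A.map (aeval (dpt z δ ∘ Sum.inl)) +
      vecMulVec (fun j => algebraMap ℂ (DualNumber ℂ) (b j))
        (fun j => algebraMap ℂ (DualNumber ℂ) (a j)))
    rw [TrivSqZeroExt.fstHom_apply] at this
    rw [this]
    convert hdet using 2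
    ext i j
    have e : dpt z δ ∘ Sum.inl = dpt (z ∘ Sum.inl) (δ ∘ Sum.inl) := rfl
    simp [vecMulVec_apply, e, fst_aeval_dpt, TrivSqZeroExt.algebraMap_eq_inl]
  obtain ⟨a1, a2, a3, a4, a5, a6⟩ := facts δ hδ
  obtain ⟨b1, b2, b3, b4, b5, -⟩ := facts 0 hz
  obtain ⟨hd, k, hk⟩ := adj_rank_one _ _ _ _ _ (hunit δ) a2 a5 a1 a3
  have e : dpt z δ ∘ Sum.inl = dpt (z ∘ Sum.inl) (δ ∘ Sum.inl) := rfl
  have hx : δ ∘ Sum.inl = 0 := by
    refine hnd _ ?_ fun l => ?_
    · rw [AlgHom.map_det, ← e]; exact hd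
    · have := hk ((N l).map (algebraMap ℂ (DualNumber ℂ)))
      rw [a6, mul_zero] at this
      rw [← this, ← e, AddMonoidHom.map_trace (aeval (dpt z δ ∘ Sum.inl) :
        MvPolynomial σ ℂ →ₐ[ℂ] DualNumber ℂ), Matrix.map_mul]
      congr 2
      · exact (aeval (dpt z δ ∘ Sum.inl) : MvPolynomial σ ℂ →ₐ[ℂ] DualNumber ℂ).map_adjugate A
      · ext i j <;> simp
  have e' : dpt z δ ∘ Sum.inl = dpt z 0 ∘ Sum.inl := by
    rw [e, hx]; rfl
  rw [e'] at a2 a5
  have hv := ker_right _ _ _ (hunit 0)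
    ((fun j => dpt z δ (Sum.inr (Sum.inr j))) - fun j => dpt z 0 (Sum.inr (Sum.inr j)))
    (by rw [mulVec_sub, a2, b2, sub_zero]) (by rw [dotProduct_sub, a1, b1, sub_self])
  have hu := ker_left _ _ _ (hunit 0)
    ((fun i => dpt z δ (Sum.inr (Sum.inl (some i)))) - fun i => dpt z 0 (Sum.inr (Sum.inl (some i))))
    (by rw [sub_vecMul, a5, b5, sub_zero]) (by rw [sub_dotProduct, a3, b3, sub_self])
  funext c
  rcases c with c | (_ | c) | c
  · exact congrFun hx c
  · simpa using congrArg TrivSqZeroExt.snd a4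
  · simpa using congrArg TrivSqZeroExt.snd (congrFun hu c)
  · simpa using congrArg TrivSqZeroExt.snd (congrFun hv c)

end lift

lemma aeval_dpt_zero {σ : Type} [Fintype σ] (x : σ → ℂ) (P : MvPolynomial σ ℂ)
    (h : aeval x P = 0) : aeval (dpt x 0) P = 0 := by
  refine TrivSqZeroExt.ext ?_ ?_
  · rw [fst_aeval_dpt]; simpa using h
  · rw [snd_aeval_dpt]; simp

/-- The bound for an affine matrix and constant direction matrices. -/
theorem adj_bound {κ : Type} [Fintype κ] [DecidableEq κ] (m : ℕ)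
    (A : Matrix (Fin m) (Fin m) (MvPolynomial (Option κ) ℂ)) (hA : ∀ i j, Aff (A i j))
    (N : κ → Matrix (Fin m) (Fin m) ℂ) (N₀ : Matrix (Fin m) (Fin m) ℂ)
    (Z : Finset (Option κ → ℂ))
    (hZ : ∀ x ∈ Z, Good (fun j : Option κ => j.elim A.det
      fun l => (A.adjugate * (N l).map C).trace) (A.adjugate * N₀.map C).trace x) :
    (Z.card : ℝ) ≤ (15 * (m + 1) / (Fintype.card κ + 1)) ^ (Fintype.card κ + 1) := by
  classical
  have htr : ∀ (x : Option κ → ℂ) (B : Matrix (Fin m) (Fin m) ℂ),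
      eval x (A.adjugate * B.map C).trace = ((A.map (eval x)).adjugate * B).trace := by
    intro x B
    rw [AddMonoidHom.map_trace (eval x), Matrix.map_mul]
    congr 2
    · exact (eval x).map_adjugate A
    · ext i j; simp
  obtain ⟨a, b, hab⟩ := exists_border Z (fun x => A.map (eval x)) (by
    intro x hx h0
    have := (hZ x hx).2.2
    rw [htr, h0] at this
    simp at this)
  have huv : ∀ x ∈ Z, ∃ u v : Fin m → ℂ, A.map (eval x) *ᵥ v = 0 ∧ u ᵥ* A.map (eval x) = 0 ∧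
      a ⬝ᵥ v = 1 ∧ u ⬝ᵥ b = 1 ∧ ∀ l, u ⬝ᵥ N l *ᵥ v = 0 := by
    intro x hx
    have hd : (A.map (eval x)).det = 0 := by
      have := (hZ x hx).1 none
      simp only [Option.elim] at this
      rw [RingHom.map_det] at this
      exact this
    have hu := isUnit_iff_ne_zero.2 (hab x hx)
    obtain ⟨v, hv0, hv⟩ := exists_mulVec_eq_zero_iff.2 hd
    obtain ⟨u, hu0, hu'⟩ := exists_vecMul_eq_zero_iff.2 hd
    have hav : a ⬝ᵥ v ≠ 0 := fun h => hv0 (ker_right _ a b hu v hv h)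
    have hub : u ⬝ᵥ b ≠ 0 := fun h => hu0 (ker_left _ a b hu u hu' h)
    have c1 : A.map (eval x) *ᵥ ((a ⬝ᵥ v)⁻¹ • v) = 0 := by rw [mulVec_smul, hv, smul_zero]
    have c2 : ((u ⬝ᵥ b)⁻¹ • u) ᵥ* A.map (eval x) = 0 := by rw [smul_vecMul, hu', smul_zero]
    have c3 : a ⬝ᵥ ((a ⬝ᵥ v)⁻¹ • v) = 1 := by
      rw [dotProduct_smul, smul_eq_mul, inv_mul_cancel₀ hav]
    have c4 : ((u ⬝ᵥ b)⁻¹ • u) ⬝ᵥ b = 1 := by
      rw [smul_dotProduct, smul_eq_mul, inv_mul_cancel₀ hub]
    refine ⟨_, _, c1, c2, c3, c4, fun l => ?_⟩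
    obtain ⟨-, k, hk⟩ := adj_rank_one _ a b _ _ hu c1 c2 c3 c4
    have hk0 : k ≠ 0 := by
      intro h0
      have := (hZ x hx).2.2
      rw [htr, hk, h0, zero_mul] at this
      exact this rfl
    have := (hZ x hx).1 (some l)
    simp only [Option.elim] at this
    rw [htr, hk] at this
    exact (mul_eq_zero.1 this).resolve_left hk0
  choose! u v huv using huv
  let pt : (Option κ → ℂ) → LV (Option κ) (Fin m) → ℂ := fun x =>
    Sum.elim x (Sum.elim (fun o => o.elim 0 (u x)) (v x))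
  set F : Option (Fin m) ⊕ Option (Fin m) ⊕ κ → MvPolynomial (LV (Option κ) (Fin m)) ℂ :=
    Sum.elim (eq₁ A a) (Sum.elim (eq₂ A a b) (eq₃ N)) with hF
  have hpt : ∀ x ∈ Z, ∀ e, aeval (pt x) (F e) = 0 := by
    intro x hx e
    obtain ⟨c1, c2, c3, c4, c5⟩ := huv x hx
    have e0 : A.map (aeval (pt x ∘ Sum.inl)) = A.map (eval x) := by
      ext i j; simp [pt, Function.comp_def]
    rcases e with (_ | e) | (_ | e) | e
    · simp only [hF, Sum.elim_inl, aeval_eq₁_none]; rw [sub_eq_zero]; exact c3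
    · simp only [hF, Sum.elim_inl, aeval_eq₁_some, e0]; exact congrFun c1 e
    · simp only [hF, Sum.elim_inl, Sum.elim_inr, aeval_eq₂_none]; rw [sub_eq_zero]; exact c4
    · simp only [hF, Sum.elim_inl, Sum.elim_inr, aeval_eq₂_some, e0]
      have := congrFun c2 e
      simpa [pt] using this
    · simp only [hF, Sum.elim_inr, aeval_eq₃]; exact c5 e
  have hsurj : ∀ x ∈ Z, ∀ y : Option (Fin m) ⊕ Option (Fin m) ⊕ κ → ℂ, ∃ δ,
      ∀ e, (aeval (dpt (pt x) δ) (F e)).snd = y e := by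
    intro x hx y
    let J : Matrix (Option (Fin m) ⊕ Option (Fin m) ⊕ κ) (LV (Option κ) (Fin m)) ℂ :=
      Matrix.of fun e i => eval (pt x) (pderiv i (F e))
    have hJ : ∀ δ e, (aeval (dpt (pt x) δ) (F e)).snd = J.mulVecLin δ e := by
      intro δ e
      rw [snd_aeval_dpt]; simp [J, mulVec, dotProduct]
    have hinj : Function.Injective J.mulVecLin := by
      rw [← LinearMap.ker_eq_bot, LinearMap.ker_eq_bot']
      intro δ hδ
      refine lift_inj A N a b (pt x) δ (hab x hx) ?_ (fun e => aeval_dpt_zero _ _ (hpt x hx e)) ?_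
      · intro δ' h1 h2
        refine eq_zero_of_mulVec_eq_zero (hZ x hx).2.1 ?_
        funext j
        have e1 : pt x ∘ Sum.inl = x := rfl
        rw [e1] at h1 h2
        cases j with
        | none =>
          have := congrArg TrivSqZeroExt.snd h1
          rw [snd_aeval_dpt] at this
          simpa [jac, mulVec, dotProduct] using this
        | some l =>
          have := congrArg TrivSqZeroExt.snd (h2 l)
          rw [snd_aeval_dpt] at this
          simpa [jac, mulVec, dotProduct] using this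
      · intro e
        refine TrivSqZeroExt.ext ?_ ?_
        · rw [fst_aeval_dpt]; simpa using hpt x hx e
        · rw [hJ, hδ]; simp
    have hs := (LinearMap.injective_iff_surjective_of_finrank_eq_finrank (by
      simp only [Module.finrank_fintype_fun_eq_card, Fintype.card_sum, Fintype.card_option,
        Fintype.card_fin]
      omega)).1 hinj
    obtain ⟨δ, hδ⟩ := hs y
    exact ⟨δ, fun e => by rw [hJ, hδ]⟩
  have hsep : ∀ x x' : Option κ → ℂ, ∃ h : MvPolynomial (Option κ) ℂ, Aff h ∧ eval x h = 1 ∧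
      (x' ≠ x → eval x' h = 0) := by
    intro x x'
    by_cases hx : x' = x
    · exact ⟨1, aff_one, by simp, fun h => absurd hx h⟩
    · obtain ⟨i, hi⟩ := Function.ne_iff.1 hx
      refine ⟨C (x i - x' i)⁻¹ * (X i - C (x' i)),
        Aff.C_mul (Submodule.sub_mem _ (aff_X i) (aff_C _)) _, ?_, fun _ => by simp⟩
      simp only [map_mul, eval_C, map_sub, eval_X]
      exact inv_mul_cancel₀ (sub_ne_zero.2 hi.symm)
  choose sp hsp1 hsp2 hsp3 using hsep
  let g : Z → MvPolynomial (LV (Option κ) (Fin m)) ℂ := fun x =>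
    ∏ x' : Z, rename Sum.inl (sp x.1 x'.1)
  have hli := linIndep_jets F g (by
    intro z y
    obtain ⟨δ, hδ⟩ := hsurj z.1 z.2 y
    refine ⟨line (pt z.1) δ, fun e => ⟨?_, ?_⟩, fun z' => ?_⟩
    · rw [(line_coeff _ _ _).1, fst_aeval_dpt]; simpa using hpt z.1 z.2 e
    · rw [(line_coeff _ _ _).2, hδ]
    · rw [(line_coeff _ _ _).1, fst_aeval_dpt]
      have e1 : pt z.1 ∘ Sum.inl = z.1 := rfl
      simp only [g, map_prod, eval_rename, e1]
      split_ifs with hz
      · subst hz; simp [hsp2]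
      · exact Finset.prod_eq_zero (Finset.mem_univ z)
          (hsp3 _ _ fun h => hz (Subtype.ext h).symm))
  let ℓ₁ : Option (Option κ) → MvPolynomial (LV (Option κ) (Fin m)) ℂ :=
    fun o => o.elim 1 fun i => X (Sum.inl i)
  let ℓ₂ : Option (Option (Fin m)) → MvPolynomial (LV (Option κ) (Fin m)) ℂ :=
    fun o => o.elim 1 fun i => X (Sum.inr (Sum.inl i))
  let ℓ₃ : Option (Fin m) → MvPolynomial (LV (Option κ) (Fin m)) ℂ :=
    fun o => o.elim 1 fun i => X (Sum.inr (Sum.inr i))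
  have o₁ : (1 : MvPolynomial _ ℂ) ∈ Submodule.span ℂ (Set.range ℓ₁) :=
    Submodule.subset_span ⟨none, rfl⟩
  have o₂ : (1 : MvPolynomial _ ℂ) ∈ Submodule.span ℂ (Set.range ℓ₂) :=
    Submodule.subset_span ⟨none, rfl⟩
  have o₃ : (1 : MvPolynomial _ ℂ) ∈ Submodule.span ℂ (Set.range ℓ₃) :=
    Submodule.subset_span ⟨none, rfl⟩
  have x₂ : ∀ i, X (Sum.inr (Sum.inl i)) ∈ Submodule.span ℂ (Set.range ℓ₂) :=
    fun i => Submodule.subset_span ⟨some i, rfl⟩
  have x₃ : ∀ i, X (Sum.inr (Sum.inr i)) ∈ Submodule.span ℂ (Set.range ℓ₃) :=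
    fun i => Submodule.subset_span ⟨some i, rfl⟩
  have r₁ : ∀ P : MvPolynomial (Option κ) ℂ, Aff P →
      rename Sum.inl P ∈ Submodule.span ℂ (Set.range ℓ₁) := fun P hP =>
    hP.map_mem (rename Sum.inl) _ o₁ fun i => by
      rw [rename_X]; exact Submodule.subset_span ⟨some i, rfl⟩
  have c₁ : ∀ c : ℂ, C c ∈ Submodule.span ℂ (Set.range ℓ₁) := fun c => by
    simpa using r₁ _ (aff_C c)
  refine limit_le Z.card m (Fintype.card κ) Z.card fun P Q => ?_
  have := count_le ℓ₁ ℓ₂ ℓ₃ (eq₁ A a) (eq₂ A a b) (eq₃ N) g Z.card o₁ o₂ o₃ ?_ ?_ ?_ ?_ hli P Q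
  · simpa only [Fintype.card_option, Fintype.card_fin, Fintype.card_coe] using this
  · rintro (_ | i)
    · refine Submodule.sub_mem _ (Submodule.sum_mem _ fun j _ => ?_) ?_
      · exact Submodule.mul_mem_mul (c₁ _) (x₃ j)
      · simpa using Submodule.mul_mem_mul o₁ o₃
    · exact Submodule.sum_mem _ fun j _ => Submodule.mul_mem_mul (r₁ _ (hA i j)) (x₃ j)
  · rintro (_ | j)
    · refine Submodule.sub_mem _ (Submodule.sum_mem _ fun i _ => ?_) ?_
      · rw [mul_comm (X _)]; exact Submodule.mul_mem_mul (c₁ _) (x₂ _)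
      · simpa using Submodule.mul_mem_mul o₁ o₂
    · refine Submodule.add_mem _ (Submodule.sum_mem _ fun i _ => ?_) ?_
      · rw [mul_comm (X _)]; exact Submodule.mul_mem_mul (r₁ _ (hA i j)) (x₂ _)
      · rw [mul_comm (X _)]; exact Submodule.mul_mem_mul (c₁ _) (x₂ _)
  · intro l
    refine Submodule.sum_mem _ fun i _ => Submodule.mul_mem_mul (x₂ _) ?_
    refine Submodule.sum_mem _ fun j _ => ?_
    rw [← smul_eq_C_mul]
    exact Submodule.smul_mem _ _ (x₃ j)
  · intro z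
    have := prod_pow_mem (Submodule.span ℂ (Set.range ℓ₁))
      (fun x' : Z => rename Sum.inl (sp z.1 x'.1)) (fun x' => r₁ _ (hsp1 _ _)) (fun _ => 1)
      Finset.univ
    simpa [g] using this

/-- Upper bound for the number of nondegenerate solutions of a polar system of a determinant. -/
theorem det_bound {ω κ : Type} [Fintype κ] [DecidableEq κ] (m : ℕ)
    (M : Matrix (Fin m) (Fin m) (MvPolynomial ω ℂ)) (hM : ∀ i j, Aff (M i j))
    (Xt : ω → MvPolynomial (Option κ) ℂ) (hX : ∀ a, Aff (Xt a)) (W : κ → ω → ℂ) (W₀ : ω → ℂ)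
    (Z : Finset (Option κ → ℂ))
    (hZ : ∀ x ∈ Z, Good (sys Xt W M.det) (aeval Xt (dirD W₀ M.det)) x) :
    (Z.card : ℝ) ≤ (15 * (m + 1) / (Fintype.card κ + 1)) ^ (Fintype.card κ + 1) := by
  have key : ∀ V : ω → ℂ, aeval Xt (dirD V M.det) = ((M.map (aeval Xt)).adjugate *
      (M.map fun P => coeff 0 (dirD V P)).map C).trace := by
    intro V
    rw [derivation_det, AddMonoidHom.map_trace (aeval Xt : MvPolynomial ω ℂ →ₐ[ℂ] _),
      Matrix.map_mul]
    congr 2
    · exact (aeval Xt : MvPolynomial ω ℂ →ₐ[ℂ] _).map_adjugate M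
    · ext1 i j
      simp only [map_apply]
      rw [(hM i j).dirD_eq V]
      simp
  refine adj_bound m (M.map (aeval Xt))
    (fun i j => (hM i j).map_mem (aeval Xt) _ aff_one fun a => by rw [aeval_X]; exact hX a)
    (fun l => M.map fun P => coeff 0 (dirD (W l) P)) (M.map fun P => coeff 0 (dirD W₀ P)) Z ?_
  intro x hx
  have := hZ x hx
  rw [key] at this
  convert this using 2 with j
  cases j with
  | none => exact ((aeval Xt : MvPolynomial ω ℂ →ₐ[ℂ] _).map_det M).symm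
  | some l => exact (key _).symm

end Pool.Agent.Lib.MP_8a52c3_lc.PermDet
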