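import Mathlib

/-! First-order calculus for multivariate polynomials over `ℂ`: dual numbers, Jacobians and
persistence of nondegenerate zeros under a change of parameters. -/

namespace Pool.Agent.Lib.MP_8a52c3_lc.PermDet

open MvPolynomial Filter Topology

/-- Jacobian matrix of a square polynomial system at a point. -/
noncomputable def jac {σ : Type} (F : σ → MvPolynomial σ ℂ) (x : σ → ℂ) : Matrix σ σ ℂ :=
  Matrix.of fun j i => eval x (pderiv i (F j))

/-- A nondegenerate zero of `F` at which `G` does not vanish. -/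
def Good {σ : Type} [Fintype σ] [DecidableEq σ] (F : σ → MvPolynomial σ ℂ) (G : MvPolynomial σ ℂ)
    (x : σ → ℂ) : Prop :=
  (∀ j, eval x (F j) = 0) ∧ (jac F x).det ≠ 0 ∧ eval x G ≠ 0

/-- The dual-number point `x + ε δ`. -/
noncomputable def dpt {σ : Type} (x δ : σ → ℂ) : σ → DualNumber ℂ :=
  fun i => TrivSqZeroExt.inl (x i) + TrivSqZeroExt.inr (δ i)

@[simp] lemma fst_dpt {σ : Type} (x δ : σ → ℂ) (i : σ) : (dpt x δ i).fst = x i := by
  simp [dpt]

@[simp] lemma snd_dpt {σ : Type} (x δ : σ → ℂ) (i : σ) : (dpt x δ i).snd = δ i := by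
  simp [dpt]

lemma fst_aeval_dpt {σ : Type} (x δ : σ → ℂ) (P : MvPolynomial σ ℂ) :
    (aeval (dpt x δ) P).fst = eval x P := by
  induction P using MvPolynomial.induction_on with
  | C a => simp [TrivSqZeroExt.algebraMap_eq_inl]
  | add p q hp hq => simp [hp, hq]
  | mul_X p i hp => simp [hp]

lemma snd_aeval_dpt {σ : Type} [Fintype σ] (x δ : σ → ℂ) (P : MvPolynomial σ ℂ) :
    (aeval (dpt x δ) P).snd = ∑ i, eval x (pderiv i P) * δ i := by
  classical
  induction P using MvPolynomial.induction_on with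
  | C a => simp [TrivSqZeroExt.algebraMap_eq_inl]
  | add p q hp hq => simp [hp, hq, add_mul, Finset.sum_add_distrib]
  | mul_X p i hp =>
    rw [map_mul, DualNumber.snd_mul, hp, fst_aeval_dpt, aeval_X, fst_dpt, snd_dpt]
    simp only [pderiv_mul, map_add, map_mul, eval_X, add_mul, Finset.sum_add_distrib, pderiv_X]
    rw [add_comm]
    congr 1
    · rw [Finset.sum_mul]
      refine Finset.sum_congr rfl fun j _ => by ring
    · rw [Finset.sum_eq_single i]
      · simp
      · intro j _ hj
        simp [Pi.single_apply, hj.symm]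
      · simp

lemma hasStrictFDerivAt_eval {τ : Type} [Fintype τ] (P : MvPolynomial τ ℂ) (z : τ → ℂ) :
    HasStrictFDerivAt (fun w : τ → ℂ => eval w P)
      (∑ i, eval z (pderiv i P) • (ContinuousLinearMap.proj i : (τ → ℂ) →L[ℂ] ℂ)) z := by
  classical
  induction P using MvPolynomial.induction_on with
  | C a =>
    have e1 : (fun w : τ → ℂ => eval w (C a : MvPolynomial τ ℂ)) = fun _ => a := by
      funext w; simp
    rw [e1]
    refine (hasStrictFDerivAt_const (𝕜 := ℂ) a z).congr_fderiv ?_
    ext v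
    simp
  | add p q hp hq =>
    have e1 : (fun w : τ → ℂ => eval w (p + q)) = (fun w => eval w p) + fun w => eval w q := by
      funext w; simp
    rw [e1]
    refine (hp.add hq).congr_fderiv ?_
    ext v
    simp [add_mul, Finset.sum_add_distrib]
  | mul_X p i hp =>
    have h2 : HasStrictFDerivAt (fun w : τ → ℂ => w i)
        (ContinuousLinearMap.proj i : (τ → ℂ) →L[ℂ] ℂ) z :=
      (ContinuousLinearMap.proj i : (τ → ℂ) →L[ℂ] ℂ).hasStrictFDerivAt
    have := hp.mul h2
    have e1 : (fun w : τ → ℂ => eval w (p * X i)) = (fun w => eval w p) * fun w => w i := by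
      funext w; simp
    rw [e1]
    refine this.congr_fderiv ?_
    ext v
    simp only [pderiv_mul, map_add, map_mul, eval_X, add_smul, Finset.sum_add_distrib, pderiv_X,
      ContinuousLinearMap.add_apply, ContinuousLinearMap.sum_apply, ContinuousLinearMap.smul_apply,
      ContinuousLinearMap.proj_apply, smul_eq_mul]
    simp only [add_mul, Finset.sum_add_distrib]
    rw [add_comm]
    congr 1
    · rw [Finset.mul_sum]
      refine Finset.sum_congr rfl fun j _ => by ring
    · rw [Finset.sum_eq_single i]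
      · simp
      · intro j _ hj
        simp [Pi.single_apply, hj.symm]
      · simp

lemma continuous_evalAt {τ : Type} (P : MvPolynomial τ ℂ) :
    Continuous fun w : τ → ℂ => eval w P := MvPolynomial.continuous_eval P

lemma map_nhds_of_jac {τ : Type} [Fintype τ] [DecidableEq τ] (F : τ → MvPolynomial τ ℂ)
    (z : τ → ℂ) (h : (jac F z).det ≠ 0) :
    map (fun (w : τ → ℂ) a => eval w (F a)) (𝓝 z) = 𝓝 (fun a => eval z (F a)) := by
  have hd : HasStrictFDerivAt (fun (w : τ → ℂ) a => eval w (F a))
      (ContinuousLinearMap.pi fun a =>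
        ∑ i, eval z (pderiv i (F a)) • (ContinuousLinearMap.proj i : (τ → ℂ) →L[ℂ] ℂ)) z :=
    hasStrictFDerivAt_pi.2 fun a => hasStrictFDerivAt_eval (F a) z
  refine hd.map_nhds_eq_of_surj ?_
  rw [LinearMap.range_eq_top]
  intro y
  have hu : IsUnit (jac F z).det := isUnit_iff_ne_zero.2 h
  refine ⟨(jac F z)⁻¹.mulVec y, ?_⟩
  have : (jac F z).mulVec ((jac F z)⁻¹.mulVec y) = y := by
    rw [Matrix.mulVec_mulVec, Matrix.mul_nonsing_inv _ hu, Matrix.one_mulVec]
  generalize (jac F z)⁻¹.mulVec y = v at this ⊢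
  rw [← this]
  funext a
  simp [jac, Matrix.mulVec, dotProduct]

/-- Specialising the parameters of a polynomial. -/
noncomputable def spec {π σ : Type} (γ : π → ℂ) :
    MvPolynomial (π ⊕ σ) ℂ →ₐ[ℂ] MvPolynomial σ ℂ :=
  aeval (Sum.elim (fun a => C (γ a)) X)

@[simp] lemma spec_X_inl {π σ : Type} (γ : π → ℂ) (a : π) :
    spec (σ := σ) γ (X (Sum.inl a)) = C (γ a) := by simp [spec]

@[simp] lemma spec_X_inr {π σ : Type} (γ : π → ℂ) (a : σ) :
    spec (π := π) γ (X (Sum.inr a)) = X a := by simp [spec]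

@[simp] lemma spec_rename {π σ : Type} (γ : π → ℂ) (P : MvPolynomial σ ℂ) :
    spec γ (rename Sum.inr P) = P := by
  induction P using MvPolynomial.induction_on with
  | C a => simp
  | add p q hp hq => simp [hp, hq]
  | mul_X p i hp => simp [hp]

lemma eval_spec {π σ : Type} (γ : π → ℂ) (x : σ → ℂ) (P : MvPolynomial (π ⊕ σ) ℂ) :
    eval x (spec γ P) = eval (Sum.elim γ x) P := by
  induction P using MvPolynomial.induction_on with
  | C a => simp
  | add p q hp hq => simp [hp, hq]
  | mul_X p i hp => cases i <;> simp [hp]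

lemma pderiv_spec {π σ : Type} (γ : π → ℂ) (i : σ) (P : MvPolynomial (π ⊕ σ) ℂ) :
    pderiv i (spec γ P) = spec γ (pderiv (Sum.inr i) P) := by
  classical
  induction P using MvPolynomial.induction_on with
  | C a => simp
  | add p q hp hq => simp [hp, hq]
  | mul_X p j hp =>
    cases j with
    | inl a => simp [hp, Pi.single_apply]
    | inr a =>
      by_cases hia : a = i
      · subst hia; simp [hp]
      · simp [hp, Pi.single_apply, hia]

/-- Nondegenerate zeros persist under a small change of the parameters. -/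
theorem persist {π σ : Type} [Fintype π] [Fintype σ] [DecidableEq π] [DecidableEq σ]
    (F : σ → MvPolynomial (π ⊕ σ) ℂ) (G : MvPolynomial (π ⊕ σ) ℂ) (γ₀ : π → ℂ)
    (Z : Finset (σ → ℂ)) (hZ : ∀ x ∈ Z, Good (fun j => spec γ₀ (F j)) (spec γ₀ G) x) :
    ∀ᶠ γ in 𝓝 γ₀, ∃ Z' : Finset (σ → ℂ), Z'.card = Z.card ∧
      ∀ x ∈ Z', Good (fun j => spec γ (F j)) (spec γ G) x := by
  classical
  obtain ⟨U, hU, hdisj⟩ := Z.finite_toSet.t2_separation
  set F' : π ⊕ σ → MvPolynomial (π ⊕ σ) ℂ := Sum.elim (fun a => X (Sum.inl a)) F with hF'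
  set Jd : MvPolynomial (π ⊕ σ) ℂ :=
    (Matrix.of fun j i => pderiv (Sum.inr i) (F j) : Matrix σ σ _).det with hJd
  have hJ : ∀ (γ : π → ℂ) (x : σ → ℂ),
      (jac (fun j => spec γ (F j)) x).det = eval (Sum.elim γ x) Jd := by
    intro γ x
    rw [hJd, RingHom.map_det]
    congr 1
    ext j i
    simp [jac, pderiv_spec, eval_spec]
  have key : ∀ x ∈ Z, ∀ᶠ γ in 𝓝 γ₀, ∃ x' ∈ U x,
      Good (fun j => spec γ (F j)) (spec γ G) x' := by
    intro x hx
    obtain ⟨h1, h2, h3⟩ := hZ x hx
    have hjac : (jac F' (Sum.elim γ₀ x)).det ≠ 0 := by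
      have : jac F' (Sum.elim γ₀ x) = Matrix.fromBlocks 1 0
          (Matrix.of fun j a => eval (Sum.elim γ₀ x) (pderiv (Sum.inl a) (F j)))
          (jac (fun j => spec γ₀ (F j)) x) := by
        ext a b
        rcases a with a | a <;> rcases b with b | b
        · by_cases hab : a = b
          · subst hab; simp [jac, hF']
          · simp [jac, hF', Pi.single_apply, hab, Matrix.one_apply]
        · simp [jac, hF', Pi.single_apply]
        · simp [jac, hF']
        · simp [jac, hF', pderiv_spec, eval_spec]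
      rw [this, Matrix.det_fromBlocks_zero₁₂]
      simpa using h2
    have hmap := map_nhds_of_jac F' _ hjac
    set W : Set (π ⊕ σ → ℂ) := {w | eval w Jd ≠ 0 ∧ eval w G ≠ 0 ∧ (w ∘ Sum.inr) ∈ U x} with hW
    have hWn : W ∈ 𝓝 (Sum.elim γ₀ x) := by
      refine IsOpen.mem_nhds ?_ ⟨?_, ?_, ?_⟩
      · refine IsOpen.inter ?_ (IsOpen.inter ?_ ?_)
        · exact isOpen_ne_fun (continuous_evalAt _) continuous_const
        · exact isOpen_ne_fun (continuous_evalAt _) continuous_const
        · exact (hU x).2.preimage (by fun_prop)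
      · rw [← hJ]; exact h2
      · rw [← eval_spec]; exact h3
      · exact (hU x).1
    have himg : (fun (w : π ⊕ σ → ℂ) a => eval w (F' a)) '' W ∈
        𝓝 (Sum.elim γ₀ (0 : σ → ℂ)) := by
      have e : (fun a => eval (Sum.elim γ₀ x) (F' a)) = Sum.elim γ₀ (0 : σ → ℂ) := by
        funext a
        rcases a with a | a
        · simp [hF']
        · have := h1 a
          rw [eval_spec] at this
          simpa [hF'] using this
      rw [← e, ← hmap]
      exact image_mem_map hWn
    have hc : Continuous fun γ : π → ℂ => (Sum.elim γ (0 : σ → ℂ) : π ⊕ σ → ℂ) := by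
      refine continuous_pi fun a => ?_
      rcases a with a | a
      · exact continuous_apply a
      · exact continuous_const
    filter_upwards [hc.continuousAt.preimage_mem_nhds himg] with γ hγ
    obtain ⟨w, ⟨hw1, hw2, hw3⟩, hw⟩ := hγ
    have hwe : w = Sum.elim γ (w ∘ Sum.inr) := by
      funext a
      rcases a with a | a
      · have := congrFun hw (Sum.inl a)
        simpa [hF'] using this
      · rfl
    refine ⟨w ∘ Sum.inr, hw3, fun j => ?_, ?_, ?_⟩
    · have := congrFun hw (Sum.inr j)
      rw [eval_spec, ← hwe]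
      simpa [hF'] using this
    · rw [hJ, ← hwe]; exact hw1
    · rw [eval_spec, ← hwe]; exact hw2
  filter_upwards [(Filter.eventually_all_finset Z).2 key] with γ hγ
  choose! g hg1 hg2 using hγ
  refine ⟨Z.image g, Finset.card_image_of_injOn ?_, ?_⟩
  · intro x hx y hy hxy
    by_contra hne
    have := hdisj hx hy hne
    exact Set.disjoint_left.1 this (hg1 x hx) (hxy ▸ hg1 y hy)
  · intro x' hx'
    obtain ⟨x, hx, rfl⟩ := Finset.mem_image.1 hx'
    exact hg2 x hx

end Pool.Agent.Lib.MP_8a52c3_lc.PermDet
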