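import Pool.Agent.Lib.MP_8a52c3_lc.PermDet.Dual

/-! Monomial systems with many solutions. -/

namespace Pool.Agent.Lib.MP_8a52c3_lc.PermDet

open MvPolynomial Matrix Finset

lemma card_le_ker_sq {G : Type} [AddCommGroup G] [Finite G] (f : G →+ G) (h : ∀ x, f (f x) = 0) :
    Nat.card G ≤ Nat.card f.ker ^ 2 := by
  have h1 := AddSubgroup.card_eq_card_quotient_mul_card_addSubgroup f.ker
  have h2 : Nat.card (G ⧸ f.ker) = Nat.card f.range :=
    Nat.card_congr (QuotientAddGroup.quotientKerEquivRange f).toEquiv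
  have h3 : Nat.card f.range ≤ Nat.card f.ker := by
    refine AddSubgroup.card_le_of_le ?_
    rintro _ ⟨x, rfl⟩
    exact h x
  rw [h1, h2, sq]
  exact Nat.mul_le_mul_right _ h3

lemma addChar_sum {A ι : Type} [AddCommMonoid A] (ψ : AddChar A ℂ) (s : Finset ι) (f : ι → A) :
    ψ (∑ i ∈ s, f i) = ∏ i ∈ s, ψ (f i) := by
  classical
  induction s using Finset.induction_on with
  | empty => simp
  | insert a s ha ih => rw [Finset.sum_insert ha, Finset.prod_insert ha, ψ.map_add_eq_mul, ih]

lemma dual_prod_pow {ι : Type} (s : Finset ι) (a : ι → DualNumber ℂ) (h : ι → ℕ)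
    (ha : ∀ i, (a i).fst ≠ 0) :
    (∏ i ∈ s, a i ^ h i).fst = ∏ i ∈ s, (a i).fst ^ h i ∧
    (∏ i ∈ s, a i ^ h i).snd =
      (∏ i ∈ s, (a i).fst ^ h i) * ∑ i ∈ s, (h i : ℂ) * ((a i).snd / (a i).fst) := by
  classical
  induction s using Finset.induction_on with
  | empty => simp
  | insert j s hj ih =>
    rw [Finset.prod_insert hj, Finset.prod_insert hj, Finset.sum_insert hj, DualNumber.snd_mul,
      TrivSqZeroExt.fst_mul, ih.1, ih.2, TrivSqZeroExt.fst_pow, TrivSqZeroExt.snd_pow]
    refine ⟨rfl, ?_⟩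
    have := ha j
    rcases Nat.eq_zero_or_pos (h j) with h0 | h0
    · simp [h0]
    · obtain ⟨n, hn⟩ : ∃ n, h j = n + 1 := ⟨h j - 1, by omega⟩
      rw [hn]
      simp only [Nat.pred_succ, smul_eq_mul, nsmul_eq_mul]
      field_simp
      ring

/-- A block-diagonal monomial system has at least `Q ^ (K / 2)` nondegenerate solutions. -/
theorem monomial_system {K : Type} [Fintype K] [DecidableEq K] (nl Q : ℕ) (hQ : Q ≠ 0)
    (H : K → K → ℕ) (hH : ∀ k k', Q ∣ ∑ i, H k i * H i k') (G : K → K → ℂ)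
    (hG : ∀ k k', ∑ i, G k i * H i k' = if k = k' then 1 else 0) :
    ∃ Z : Finset (Option (K × Fin nl) → ℂ), Q ^ (Fintype.card K * nl) ≤ Z.card ^ 2 ∧
      ∀ z ∈ Z, Good (fun j : Option (K × Fin nl) => j.elim (X none)
        fun v => (∏ i, X (some (i, v.2)) ^ H v.1 i) - 1) 1 z := by
  classical
  haveI : NeZero Q := ⟨hQ⟩
  let f : (K → ZMod Q) →+ (K → ZMod Q) :=
    (Matrix.mulVecLin (Matrix.of fun k i => (H k i : ZMod Q))).toAddMonoidHom
  have hf : ∀ u k, f u k = ∑ i, (H k i : ZMod Q) * u i := fun u k => by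
    simp [f, mulVec, dotProduct]
  have hff : ∀ u, f (f u) = 0 := by
    intro u
    funext k
    simp only [hf, Finset.mul_sum, Pi.zero_apply]
    rw [Finset.sum_comm]
    refine Finset.sum_eq_zero fun k' _ => ?_
    have : ((∑ i, H k i * H i k' : ℕ) : ZMod Q) = 0 := (ZMod.natCast_eq_zero_iff _ _).2 (hH k k')
    push_cast at this
    simp only [← mul_assoc]
    rw [← Finset.sum_mul, this, zero_mul]
  have hker := card_le_ker_sq f hff
  rw [Nat.card_fun, Nat.card_zmod, Nat.card_eq_fintype_card (α := K)] at hker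
  haveI : Fintype f.ker := Fintype.ofFinite _
  let pt : (Fin nl → f.ker) → Option (K × Fin nl) → ℂ := fun u o =>
    o.elim 0 fun v => ZMod.stdAddChar ((u v.2).1 v.1)
  have hpt : Function.Injective pt := by
    intro u u' h
    funext l
    refine Subtype.ext (funext fun i => ?_)
    exact ZMod.injective_stdAddChar (congrFun h (some (i, l)))
  refine ⟨univ.image pt, ?_, ?_⟩
  · rw [card_image_of_injective _ hpt, card_univ, Fintype.card_fun, Fintype.card_fin,
      ← Nat.card_eq_fintype_card (α := f.ker), ← pow_mul, mul_comm nl 2, pow_mul, pow_mul]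
    exact Nat.pow_le_pow_left hker nl
  · intro z hz
    obtain ⟨u, -, rfl⟩ := mem_image.1 hz
    have hne : ∀ v, pt u (some v) ≠ 0 := fun v => (AddChar.val_isUnit _ _).ne_zero
    have hprod : ∀ v : K × Fin nl, ∏ i, pt u (some (i, v.2)) ^ H v.1 i = 1 := by
      intro v
      have h0 : f (u v.2).1 v.1 = 0 := congrFun (u v.2).2 v.1
      rw [hf] at h0
      simp only [pt, Option.elim, ← AddChar.map_nsmul_eq_pow, ← addChar_sum, nsmul_eq_mul, h0,
        AddChar.map_zero_eq_one]
    refine ⟨?_, ?_, by simp⟩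
    · rintro (_ | v)
      · simp [pt]
      · simp only [Option.elim, map_sub, map_prod, map_pow, eval_X, hprod, map_one, sub_self]
    · intro hdet
      obtain ⟨δ, hδ0, hδ⟩ := exists_mulVec_eq_zero_iff.2 hdet
      apply hδ0
      have hsnd : ∀ j : Option (K × Fin nl), (aeval (dpt (pt u) δ) (j.elim (X none)
          fun v => (∏ i, X (some (i, v.2)) ^ H v.1 i) - 1 : MvPolynomial _ ℂ)).snd = 0 := by
        intro j
        rw [snd_aeval_dpt]
        exact congrFun hδ j
      have hrow : ∀ v : K × Fin nl,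
          ∑ i, (H v.1 i : ℂ) * (δ (some (i, v.2)) / pt u (some (i, v.2))) = 0 := by
        intro v
        have := hsnd (some v)
        simp only [Option.elim, map_sub, map_prod, map_pow, aeval_X, map_one,
          TrivSqZeroExt.snd_sub, TrivSqZeroExt.snd_one, sub_zero] at this
        rw [(dual_prod_pow univ (fun i => dpt (pt u) δ (some (i, v.2))) (H v.1)
          fun i => by simpa using hne _).2] at this
        simp only [fst_dpt, snd_dpt, hprod, one_mul] at this
        exact this
      funext j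
      rcases j with _ | ⟨i, l⟩
      · simpa using hsnd none
      · have : ∑ k, G i k * ∑ i', (H k i' : ℂ) * (δ (some (i', l)) / pt u (some (i', l))) = 0 :=
          Finset.sum_eq_zero fun k _ => by rw [hrow (k, l), mul_zero]
        simp only [Finset.mul_sum, ← mul_assoc] at this
        rw [Finset.sum_comm] at this
        simp only [← Finset.sum_mul, hG, ite_mul, one_mul, zero_mul, Finset.sum_ite_eq, mem_univ,
          if_true] at this
        exact (div_eq_zero_iff.1 this).resolve_right (hne _)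

/-- Kronecker powers. -/
lemma kron_sum {D R : Type} [Fintype D] [DecidableEq D] [CommSemiring R] (r : ℕ) (A B : D → D → R)
    (k k' : Fin r → D) : ∑ i : Fin r → D, (∏ s, A (k s) (i s)) * ∏ s, B (i s) (k' s) =
      ∏ s, ∑ y, A (k s) y * B y (k' s) := by
  rw [Finset.prod_univ_sum, Fintype.piFinset_univ]
  simp only [Finset.prod_mul_distrib]

/-- Sylvester signs. -/
def sgn {s : ℕ} (x y : Fin s → Bool) : ℤ := ∏ j, if x j = true ∧ y j = true then -1 else 1

lemma sgn_cases {s : ℕ} (x y : Fin s → Bool) : sgn x y = 1 ∨ sgn x y = -1 := by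
  rw [← Int.isUnit_iff]
  refine IsUnit.prod_univ_iff.2 fun j => ?_
  split_ifs <;> simp

lemma sgn_comm {s : ℕ} (x y : Fin s → Bool) : sgn x y = sgn y x := by
  simp only [sgn, and_comm]

lemma sgn_zero {s : ℕ} (y : Fin s → Bool) : sgn (fun _ => false) y = 1 := by simp [sgn]

lemma sgn_orth {s : ℕ} (x z : Fin s → Bool) :
    ∑ y, sgn x y * sgn y z = if x = z then 2 ^ s else 0 := by
  unfold sgn
  rw [kron_sum s (fun a c : Bool => if a = true ∧ c = true then (-1 : ℤ) else 1)
    (fun a c : Bool => if a = true ∧ c = true then (-1 : ℤ) else 1)]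
  have : ∀ a c : Bool, (∑ y : Bool, (if a = true ∧ y = true then (-1 : ℤ) else 1) *
      (if y = true ∧ c = true then (-1 : ℤ) else 1)) = if a = c then 2 else 0 := by
    intro a c; cases a <;> cases c <;> simp
  simp only [this, Finset.prod_ite_zero, mem_univ, forall_const, Finset.prod_const, card_univ,
    Fintype.card_fin, funext_iff]

lemma exists_hadamard_bool (s : ℕ) : ∃ (H : (Fin (s + 2) → Bool) → (Fin (s + 2) → Bool) → ℕ)
    (G : (Fin (s + 2) → Bool) → (Fin (s + 2) → Bool) → ℂ), (∀ x y, H x y ≤ 1) ∧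
      (∀ x z, 2 ^ s ∣ ∑ y, H x y * H y z) ∧
      ∀ x z, ∑ y, G x y * H y z = if x = z then 1 else 0 := by
  set o : Fin (s + 2) → Bool := fun _ => false with ho
  have h2 : ∀ x y : Fin (s + 2) → Bool,
      2 * ((if sgn x y = 1 then 1 else 0 : ℕ) : ℤ) = 1 + sgn x y := by
    intro x y
    rcases sgn_cases x y with h | h <;> simp [h]
  have hr : ∀ x : Fin (s + 2) → Bool, ∑ y, sgn x y = if x = o then 2 ^ (s + 2) else 0 := by
    intro x
    rw [← sgn_orth]
    exact Finset.sum_congr rfl fun y _ => by rw [sgn_comm y o, sgn_zero, mul_one]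
  have hc : ∀ x : Fin (s + 2) → Bool, ∑ y, sgn y x = if x = o then 2 ^ (s + 2) else 0 := by
    intro x
    rw [← hr]
    exact Finset.sum_congr rfl fun y _ => sgn_comm _ _
  refine ⟨fun x y => if sgn x y = 1 then 1 else 0,
    fun x y => 2 * (sgn x y : ℂ) / 2 ^ (s + 2) - if x = o ∧ y = o then 1 else 0,
    fun x y => by dsimp only; split_ifs <;> simp, fun x z => ?_, fun x z => ?_⟩
  · have : (4 : ℤ) * ((∑ y, (if sgn x y = 1 then 1 else 0) * (if sgn y z = 1 then 1 else 0) : ℕ) : ℤ)
        = 4 * (2 ^ s * (1 + (if x = o then 1 else 0) + (if z = o then 1 else 0) +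
          (if x = z then 1 else 0))) := by
      rw [Nat.cast_sum, Finset.mul_sum]
      have e : ∀ y, (4 : ℤ) * (((if sgn x y = 1 then 1 else 0) *
          (if sgn y z = 1 then 1 else 0) : ℕ) : ℤ) = 1 + sgn x y + sgn y z + sgn x y * sgn y z := by
        intro y
        rw [Nat.cast_mul]
        linear_combination (2 * ((if sgn y z = 1 then 1 else 0 : ℕ) : ℤ)) * h2 x y +
          (1 + sgn x y) * h2 y z
      simp only [e, Finset.sum_add_distrib, hr, hc, sgn_orth, Finset.sum_const, card_univ,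
        Fintype.card_fun, Fintype.card_bool, Fintype.card_fin]
      split_ifs <;> simp <;> ring
    have h4 := mul_left_cancel₀ (by norm_num : (4 : ℤ) ≠ 0) this
    rw [← Int.natCast_dvd_natCast, h4]
    push_cast
    exact Dvd.intro _ rfl
  · have h2' : ∀ x y : Fin (s + 2) → Bool,
        ((if sgn x y = 1 then 1 else 0 : ℕ) : ℂ) = (1 + sgn x y) / 2 := by
      intro x y
      have := congrArg (Int.cast : ℤ → ℂ) (h2 x y)
      push_cast at this ⊢
      rw [← this]; ring
    have e1 := congrArg (Int.cast : ℤ → ℂ) (hr x)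
    have e2 := congrArg (Int.cast : ℤ → ℂ) (sgn_orth x z)
    push_cast at e1 e2
    simp only [h2', sub_mul, Finset.sum_sub_distrib]
    have e3 : ∑ y, 2 * (sgn x y : ℂ) / 2 ^ (s + 2) * ((1 + sgn y z) / 2) =
        ((∑ y, (sgn x y : ℂ)) + ∑ y, (sgn x y : ℂ) * sgn y z) / 2 ^ (s + 2) := by
      rw [← Finset.sum_add_distrib, Finset.sum_div]
      exact Finset.sum_congr rfl fun y _ => by ring
    have e4 : ∑ y, (if x = o ∧ y = o then (1 : ℂ) else 0) * ((1 + sgn y z) / 2) =
        if x = o then 1 else 0 := by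
      rw [Finset.sum_eq_single o]
      · simp [ho, sgn_zero]
      · intro y _ hy; simp [hy]
      · simp
    rw [e3, e4, e1, e2]
    have : (2 : ℂ) ^ (s + 2) ≠ 0 := pow_ne_zero _ two_ne_zero
    split_ifs <;> field_simp <;> ring

lemma exists_hadamard (s : ℕ) : ∃ (H : Fin (2 ^ (s + 2)) → Fin (2 ^ (s + 2)) → ℕ)
    (G : Fin (2 ^ (s + 2)) → Fin (2 ^ (s + 2)) → ℂ), (∀ x y, H x y ≤ 1) ∧
      (∀ x z, 2 ^ s ∣ ∑ y, H x y * H y z) ∧
      ∀ x z, ∑ y, G x y * H y z = if x = z then 1 else 0 := by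
  obtain ⟨H, G, h1, h2, h3⟩ := exists_hadamard_bool s
  let e : Fin (2 ^ (s + 2)) ≃ (Fin (s + 2) → Bool) := (Fintype.equivFinOfCardEq (by simp)).symm
  refine ⟨fun x y => H (e x) (e y), fun x y => G (e x) (e y), fun x y => h1 _ _, fun x z => ?_,
    fun x z => ?_⟩
  · rw [e.sum_comp fun y => H (e x) y * H y (e z)]; exact h2 _ _
  · rw [e.sum_comp fun y => G (e x) y * H y (e z), h3]; simp

end Pool.Agent.Lib.MP_8a52c3_lc.PermDet
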