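import Pool.Agent.Lib.MP_8a52c3_lc.PermDet.Trop2

/-! The lane design: nested blocks with bypass edges, realised in many windows at once. -/

namespace Pool.Agent.Lib.MP_8a52c3_lc.PermDet

open MvPolynomial Matrix Finset Filter

theorem assemble3 {A R D V : Type} [Fintype A] [Fintype R] [Fintype D] [Fintype V]
    [DecidableEq A] [DecidableEq R] [DecidableEq D] [DecidableEq V] (w : ℕ) (hw : 0 < w)
    (b d : R → ℤ) (b' d' : D → ℤ) (ξ : R → D → ℤ)
    (Y : R → D → MvPolynomial (Option V) ℂ) (hY : ∀ i j, Aff (Y i j))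
    (hbd : ∀ i, b i ≤ d i) (hbd' : ∀ i, b' i ≤ d' i)
    (hA : Fintype.card R + Fintype.card D ≤ Fintype.card A)
    (k L : Option V → ℤ) (F : Option V → MvPolynomial (Option V) ℂ)
    (hF : ∀ v, Init b d b' d' ξ Y (k v) (L v) (w + 1) (F v)) (Z : Finset (Option V → ℂ))
    (hZ : ∀ z ∈ Z, Good (fun j : Option V => j.elim (X none) fun v => F (some v)) (F none) z) :
    ∃ (Xt : (A ⊕ (R ⊕ D) ⊕ Fin w) × (A ⊕ (R ⊕ D) ⊕ Fin w) → MvPolynomial (Option V) ℂ)
      (W : V → (A ⊕ (R ⊕ D) ⊕ Fin w) × (A ⊕ (R ⊕ D) ⊕ Fin w) → ℂ)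
      (W₀ : (A ⊕ (R ⊕ D) ⊕ Fin w) × (A ⊕ (R ⊕ D) ⊕ Fin w) → ℂ) (Z' : Finset (Option V → ℂ)),
      (∀ a, Aff (Xt a)) ∧ Z'.card = Z.card ∧
      ∀ z ∈ Z', Good (sys Xt W (permPoly (A ⊕ (R ⊕ D) ⊕ Fin w)))
        (aeval Xt (dirD W₀ (permPoly (A ⊕ (R ⊕ D) ⊕ Fin w)))) z := by
  obtain ⟨T, ⟨hT1, hT2⟩, hT3⟩ := (((Filter.eventually_all.2 fun i => eventually_ge_atTop (d i)).and
    (Filter.eventually_all.2 fun i => eventually_ge_atTop (d' i))).and
    (Filter.eventually_all.2 fun v => (eventually_gt_atTop (k v)).and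
      (eventually_gt_atTop (L v)))).exists
  have h0 : Aff (0 : MvPolynomial (Option V) ℂ) := Submodule.zero_mem _
  have hR : w + 1 ≤ Fintype.card R := by
    obtain ⟨J, _, _, ρ, -, -, -, hρ, -, hJ, -⟩ := hF none
    exact hJ ▸ Fintype.card_le_of_injective ρ hρ
  refine assemble2 (I := (R ⊕ D) ⊕ Fin w) w
    (Sum.elim (Sum.elim b fun _ => 0) fun _ => T) (Sum.elim (Sum.elim d fun _ => 0) fun _ => T + 1)
    (Sum.elim (Sum.elim (fun _ => 0) b') fun _ => T)
    (Sum.elim (Sum.elim (fun _ => 0) d') fun _ => T + 1)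
    (Sum.elim (Sum.elim (fun i => Sum.elim (Sum.elim 0 (ξ i)) 0) 0) 0)
    (Sum.elim (Sum.elim (fun i => Sum.elim (Sum.elim 0 (Y i)) 0) 0) fun ρ =>
      Sum.elim 0 fun ρ' => if ρ = ρ' then (if (ρ : ℕ) = 0 then X none else 1) else 0)
    ?_ ?_ ?_ (by simp only [Fintype.card_sum]; omega)
    (by simp only [Fintype.card_sum, Fintype.card_fin]; omega) T T ?_ k L F ?_ Z hZ
  · rintro ((i | i) | i) ((j | j) | j) <;> simp only [Sum.elim_inl, Sum.elim_inr, Pi.zero_apply,
      h0, hY]
    split_ifs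
    exacts [aff_X _, aff_one, h0]
  · rintro ((i | i) | i) <;> simp [hbd]
  · rintro ((i | i) | i) <;> simp [hbd']
  · refine ⟨Fin w, inferInstance, inferInstance, Sum.inr, Sum.inr, 0, 0, Sum.inr_injective,
      Sum.inr_injective, Fintype.card_fin _, ?_, ?_, by simp, ?_⟩
    · rintro ((i | i) | i) <;> simp [hT1]
    · rintro ((i | i) | i) <;> simp [hT2]
    · rw [show (Matrix.of _ : Matrix (Fin w) (Fin w) (MvPolynomial (Option V) ℂ)) =
        diagonal fun ρ : Fin w => if (ρ : ℕ) = 0 then X none else 1 by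
          ext1 i j; simp [diagonal_apply], permanent_diagonal,
        Finset.prod_eq_single (⟨0, hw⟩ : Fin w)]
      · simp
      · exact fun ρ _ hρ => if_neg fun h => hρ (Fin.ext h)
      · simp
  · intro v
    obtain ⟨J, _, _, ρ, γ, u, u', hρ, hγ, hJ, hr, hc, huv, hP⟩ := hF v
    refine ⟨J, inferInstance, inferInstance, fun j => Sum.inl (Sum.inl (ρ j)),
      fun j => Sum.inl (Sum.inr (γ j)), Sum.elim (Sum.elim u 0) 0, Sum.elim (Sum.elim 0 u') 0,
      fun i j h => hρ (by simpa using h), fun i j h => hγ (by simpa using h), hJ, ?_, ?_,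
      huv, hP⟩
    · rintro ((i | i) | i) <;> simp [hr, (hT3 v).1]
    · rintro ((i | i) | i) <;> simp [hc, (hT3 v).2]

lemma permanent_path' {J R : Type} [Fintype J] [DecidableEq J] [CommRing R] (N : Matrix J J R)
    (s : J) (ord : J → ℕ) (ho : ∀ i, ∀ j ≠ s, N i j ≠ 0 → ord i < ord j) (Q : J → R) (q : R)
    (hs : Q s = 1) (hQ : ∀ i, ∑ j, N i j * Q j = if i = s then q else Q i) :
    (Matrix.of fun i j => (if i = j ∧ j ≠ s then 1 else 0) + N i j).permanent = q := by
  have hN : ∀ j ≠ s, N j j = 0 := fun j hj => by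
    by_contra h
    exact lt_irrefl _ (ho j j hj h)
  rw [permanent_path _ s ord (fun j hj => by simp [hj, hN j hj])
    (fun i j hj hij h => ho i j hj (by simpa [hij] using h)) (fun i => if i = s then q else Q i)]
  · simp
  · intro i
    rw [← hQ, ← Finset.add_sum_erase _ _ (mem_univ s), hs]
    simp only [of_apply, ne_eq, not_true_eq_false, and_false, if_false, zero_add, mul_one]
    congr 1
    refine sum_congr rfl fun j hj => ?_
    have hj := ne_of_mem_erase hj
    by_cases h : j = i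
    · subst h; simp [hN j hj]
    · simp [h, Ne.symm h, hj]

/-- Nested blocks. -/
abbrev Blk (b r : ℕ) := Σ t : Fin (r + 1), Fin (b ^ (r - t))

/-- Rows of the lane design. -/
abbrev LRow (b r : ℕ) := (Σ t : Fin (r + 1), Fin (b ^ (r - t)) × Fin (b ^ ((t : ℕ) + 1))) ⊕ Blk b r

/-- Columns of the lane design. -/
abbrev LCol (b r nl : ℕ) := Bool × Fin (r + 1) × Fin (b ^ r + nl)

noncomputable instance (b r : ℕ) : DecidableEq (LRow b r) := Classical.decEq _

noncomputable instance (b r : ℕ) : DecidableEq (Bool × Blk b r) := Classical.decEq _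

/-- Position of the entry (`true`) or exit (`false`) vertex of a block. -/
def xp (b : ℕ) (e : Bool) (t β : ℕ) : ℕ := if e then 2 * β * b ^ t + 1 else 2 * (β + 1) * b ^ t

/-- Offset of a lane. -/
def dl (r : ℕ) (e : Bool) (t : ℕ) : ℕ := if e ∧ t < r then 0 else 1

/-- Rank of a position in a lane. -/
def rk (b r : ℕ) (x : ℕ) (e : Bool) (t : ℕ) : ℕ := (x - dl r e t) / (2 * b ^ t)

/-- Thresholds of a lane. -/
def thr (b r : ℕ) (e : Bool) (t : ℕ) (q : ℕ) : ℤ := ((2 * (q + 1) * b ^ t + dl r e t : ℕ) : ℤ)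

/-- Labels of the edges between distinct vertices. -/
noncomputable def labN {R : Type} [CommRing R] (b : ℕ) (lam : R) :
    Bool → ℕ → ℕ → Bool → ℕ → R
  | true, t, _, true, t' => if t' + 1 = t then 1 else 0
  | true, t, _, false, t' => if t' = t then lam else 0
  | false, t, β, true, t' => if t' = t ∧ (β + 1) % b ≠ 0 then 1 else 0
  | false, t, β, false, t' => if t' = t + 1 ∧ (β + 1) % b = 0 then 1 else 0

/-- Labels, loops included. -/
noncomputable def labA {R : Type} [CommRing R] (b r : ℕ) (lam : R) (e : Bool) (t β : ℕ)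
    (e' : Bool) (t' : ℕ) : R :=
  (if e = e' ∧ t = t' ∧ ¬ (e' = true ∧ t' = r) then 1 else 0) + labN b lam e t β e' t'

/-- Value of a block. -/
noncomputable def Vb {R : Type} [CommRing R] (b : ℕ) (lam : ℕ → ℕ → R) : ℕ → ℕ → R
  | 0, β => lam 0 β
  | t + 1, β => lam (t + 1) β + ∏ j ∈ range b, Vb b lam t (b * β + j)

/-- Value of the paths leaving the exit vertex of a block. -/
noncomputable def Qo {R : Type} [CommRing R] (b : ℕ) (lam : ℕ → ℕ → R) : ℕ → ℕ → ℕ → R
  | 0, _, _ => 1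
  | n + 1, t, β => (∏ j ∈ Ioo (β % b) b, Vb b lam t (b * (β / b) + j)) * Qo b lam n (t + 1) (β / b)

lemma tight_iff {b r : ℕ} (hb : 0 < b) (e : Bool) (t Y β x : ℕ) (hβ : β < Y) (hx : 1 ≤ x) :
    -(2 * (β : ℤ) * x) + potR (thr b r e t) β + potC (thr b r e t) Y x = 0 ↔
      β = rk b r x e t := by
  rw [cost_eq_zero _ _ _ hβ.le]
  have hd : dl r e t ≤ 1 := by unfold dl; split_ifs <;> omega
  have key : ∀ q, thr b r e t q ≤ x ↔ q + 1 ≤ rk b r x e t := by
    intro q
    rw [thr, rk, Nat.le_div_iff_mul_le (by positivity), Nat.cast_le,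
      show (q + 1) * (2 * b ^ t) = 2 * (q + 1) * b ^ t by ring]
    omega
  simp only [← not_le (a := thr b r e t _), key]
  constructor
  · intro h
    have h1 := (h β hβ).2 le_rfl
    rcases Nat.eq_zero_or_pos β with h0 | h0
    · omega
    · have h2 := (h (β - 1) (by omega)).1 (by omega)
      omega
  · intro h q _
    omega

lemma rk_self {b r : ℕ} (hb : 0 < b) (e e' : Bool) (t β : ℕ) (h : e = false → dl r e' t = 1) :
    rk b r (xp b e t β) e' t = β := by
  have hp := pow_pos hb t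
  have hd : dl r e' t ≤ 1 := by unfold dl; split_ifs <;> omega
  refine Nat.div_eq_of_lt_le ?_ ?_
  · rw [show β * (2 * b ^ t) = 2 * β * b ^ t by ring]
    cases e
    · simp only [xp, Bool.false_eq_true, if_false, h rfl, mul_add, add_mul]; omega
    · simp only [xp, if_true]; omega
  · rw [show (β + 1) * (2 * b ^ t) = 2 * β * b ^ t + 2 * b ^ t by ring]
    cases e
    · simp only [xp, Bool.false_eq_true, if_false, h rfl, mul_add, add_mul]; omega
    · simp only [xp, if_true]; omega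

lemma rk_child {b r : ℕ} (hb : 0 < b) (t β : ℕ) :
    rk b r (xp b true (t + 1) β) true t = b * β := by
  rw [← rk_self (r := r) hb true true t (b * β) (by simp)]
  congr 1
  simp only [xp, if_true]
  ring

lemma rk_next {b r : ℕ} (hb : 0 < b) (t β : ℕ) (ht : t < r) :
    rk b r (xp b false t β) true t = β + 1 := by
  simp only [rk, xp, dl, Bool.false_eq_true, if_false, ht, and_self, if_true, Nat.sub_zero]
  rw [show 2 * (β + 1) * b ^ t = (β + 1) * (2 * b ^ t) by ring,
    Nat.mul_div_cancel _ (by positivity)]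

lemma xp_parent {b : ℕ} (t β : ℕ) (h : (β + 1) % b = 0) (hb : 0 < b) :
    xp b false t β = xp b false (t + 1) (β / b) := by
  have h1 : β + 1 = b * (β / b + 1) := by
    obtain ⟨c, hc⟩ := Nat.dvd_of_mod_eq_zero h
    rcases c with _ | c
    · omega
    · have : β / b = c := Nat.div_eq_of_lt_le (by rw [mul_comm]; rw [mul_add] at hc; omega)
        (by rw [mul_comm]; omega)
      rw [this, hc]
  simp only [xp, Bool.false_eq_true, if_false]
  rw [h1]
  ring

lemma sum_fin_ite {R : Type} [CommRing R] (n a : ℕ) (c : R) (f : ℕ → R) (h : c ≠ 0 → a < n) :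
    ∑ β : Fin n, (if (β : ℕ) = a then c else 0) * f β = c * f a := by
  by_cases hc : c = 0
  · simp [hc]
  · rw [Finset.sum_eq_single (⟨a, h hc⟩ : Fin n)]
    · simp
    · intro β _ hβ
      rw [if_neg fun h' => hβ (Fin.ext h'), zero_mul]
    · simp

lemma sum_fin_lvl {R : Type} [CommRing R] (n a : ℕ) (p : Prop) [Decidable p] (c : R) (f : ℕ → R)
    (h : p → a < n) :
    ∑ t : Fin n, (if (t : ℕ) = a ∧ p then c else 0) * f t = if p then c * f a else 0 := by
  by_cases hp : p
  · simp only [hp, and_true, if_true]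
    exact sum_fin_ite n a c f fun _ => h hp
  · simp [hp]

lemma pow_sub_succ {b r t : ℕ} (h : t < r) : b ^ (r - t) = b * b ^ (r - (t + 1)) := by
  rw [← pow_succ', Nat.sub_add_eq]
  congr 1
  omega

lemma labN_cases {R : Type} [CommRing R] {b r : ℕ} (hb : 2 ≤ b) (lam : R) (e e' : Bool)
    (t β t' : ℕ) (ht : t ≤ r) (hβ : β < b ^ (r - t)) (h : labN b lam e t β e' t' ≠ 0) :
    rk b r (xp b e t β) e' t' < b ^ (r - t') ∧ (¬ (e' = true ∧ t' = r) →
      xp b e t β * (r + 1) + (if e then r - t else t) <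
        xp b e' t' (rk b r (xp b e t β) e' t') * (r + 1) + (if e' then r - t' else t')) := by
  have hb0 : 0 < b := by omega
  have hlt : ∀ x y u v : ℕ, x < y → u ≤ r → x * (r + 1) + u < y * (r + 1) + v := by
    intro x y u v hxy hu
    have := Nat.mul_le_mul_right (r + 1) (Nat.succ_le_of_lt hxy)
    rw [Nat.succ_mul] at this
    omega
  cases e <;> cases e' <;> simp only [labN, ne_eq, ite_eq_right_iff, Classical.not_imp] at h
  · obtain ⟨⟨rfl, h1⟩, -⟩ := h
    have htr : t < r := by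
      rcases ht.lt_or_eq with h' | rfl
      · exact h'
      · simp only [Nat.sub_self, pow_zero, Nat.lt_one_iff] at hβ
        subst hβ
        rw [Nat.mod_eq_of_lt (by omega)] at h1
        omega
    rw [xp_parent t β h1 hb0, rk_self hb0 _ _ _ _ (by simp [dl])]
    refine ⟨?_, fun _ => by simp⟩
    rw [Nat.div_lt_iff_lt_mul hb0, mul_comm, ← pow_sub_succ htr]
    exact hβ
  · obtain ⟨⟨rfl, h1⟩, -⟩ := h
    rcases ht.lt_or_eq with h' | rfl
    · rw [rk_next hb0 _ _ h']
      refine ⟨?_, fun _ => hlt _ _ _ _ (by simp [xp]) (by simpa using ht)⟩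
      rcases (Nat.succ_le_of_lt hβ).lt_or_eq with h2 | h2
      · exact h2
      · rw [pow_sub_succ h'] at h2
        rw [Nat.succ_eq_add_one] at h2
        rw [h2] at h1
        simp at h1
    · rw [rk_self hb0 _ _ _ _ (by simp [dl])]
      exact ⟨hβ, by simp⟩
  · obtain ⟨rfl, -⟩ := h
    rw [rk_self hb0 _ _ _ _ (by simp)]
    refine ⟨hβ, fun _ => hlt _ _ _ _ ?_ (by simp)⟩
    have := pow_pos hb0 t'
    simp only [xp, if_true, Bool.false_eq_true, if_false, mul_add, add_mul]
    omega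
  · obtain ⟨rfl, -⟩ := h
    rw [rk_child hb0]
    refine ⟨?_, fun _ => ?_⟩
    · rw [pow_sub_succ (Nat.lt_of_succ_le ht)]
      exact Nat.mul_lt_mul_of_pos_left hβ hb0
    · rw [show xp b true t' (b * β) = xp b true (t' + 1) β by simp only [xp, if_true]; ring]
      simp only [if_true]
      omega

lemma Qo_next {R : Type} [CommRing R] {b : ℕ} (hb : 0 < b) (lam : ℕ → ℕ → R) (n t β : ℕ)
    (h : (β + 1) % b ≠ 0) :
    Vb b lam t (β + 1) * Qo b lam (n + 1) t (β + 1) = Qo b lam (n + 1) t β := by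
  have h1 := Nat.mod_lt β hb
  have h2 := Nat.div_add_mod β b
  have h3 : β % b + 1 < b := by
    rcases (Nat.succ_le_of_lt h1).lt_or_eq with h' | h'
    · exact h'
    · exact absurd (by rw [show β + 1 = b * (β / b + 1) by rw [mul_add]; omega]; simp) h
  have h4 : (β + 1) / b = β / b := Nat.div_eq_of_lt_le (by rw [mul_comm]; omega)
    (by rw [mul_comm, mul_add]; omega)
  have h5 : (β + 1) % b = β % b + 1 := by
    have := Nat.div_add_mod (β + 1) b
    rw [h4] at this
    omega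
  simp only [Qo, h4, h5]
  rw [← mul_assoc, show Ioo (β % b) b = insert (β % b + 1) (Ioo (β % b + 1) b) by
    ext j; simp only [mem_insert, mem_Ioo]; omega, prod_insert (by simp), ← add_assoc, h2]

lemma Qo_parent {R : Type} [CommRing R] {b : ℕ} (hb : 0 < b) (lam : ℕ → ℕ → R) (n t β : ℕ)
    (h : (β + 1) % b = 0) : Qo b lam (n + 1) t β = Qo b lam n (t + 1) (β / b) := by
  have h1 := Nat.mod_lt β hb
  have h3 : ¬ β % b + 1 < b := by
    intro h3
    rw [← Nat.mod_add_mod, Nat.mod_eq_of_lt h3] at h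
    omega
  simp only [Qo]
  rw [show Ioo (β % b) b = ∅ by ext j; simp only [mem_Ioo, notMem_empty, iff_false]; omega, prod_empty,
    one_mul]

lemma Qo_child {R : Type} [CommRing R] {b : ℕ} (hb : 0 < b) (lam : ℕ → ℕ → R) (n t β : ℕ) :
    Vb b lam t (b * β) * Qo b lam (n + 1) t (b * β) =
      (∏ j ∈ range b, Vb b lam t (b * β + j)) * Qo b lam n (t + 1) β := by
  simp only [Qo, Nat.mul_mod_right, Nat.mul_div_cancel_left _ hb]
  rw [← mul_assoc, show range b = insert 0 (Ioo 0 b) by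
    ext j; simp only [mem_insert, mem_Ioo, mem_range]; omega, prod_insert (by simp), add_zero]

/-- The permanent of the block graph. -/
lemma permanent_blocks {R : Type} [CommRing R] {b r : ℕ} (hb : 2 ≤ b) (lam : ℕ → ℕ → R) :
    (Matrix.of fun i j : Bool × Blk b r =>
      if (j.2.2 : ℕ) = rk b r (xp b i.1 i.2.1 i.2.2) j.1 j.2.1 then
        labA b r (lam i.2.1 i.2.2) i.1 i.2.1 i.2.2 j.1 j.2.1 else 0).permanent = Vb b lam r 0 := by
  have hb0 : 0 < b := by omega
  set s : Bool × Blk b r := (true, ⟨Fin.last r, ⟨0, pow_pos hb0 _⟩⟩) with hs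
  have hs' : ∀ j : Bool × Blk b r, j = s ↔ j.1 = true ∧ (j.2.1 : ℕ) = r := by
    rintro ⟨e, t, β⟩
    constructor
    · intro h; rw [h]; exact ⟨rfl, rfl⟩
    · rintro ⟨h1, h2⟩
      obtain rfl : t = Fin.last r := Fin.ext h2
      have := β.2
      simp only [Fin.val_last, Nat.sub_self, pow_zero, Nat.lt_one_iff] at this
      rw [hs, show e = true from h1, show β = ⟨0, pow_pos hb0 _⟩ from Fin.ext this]
  set Q : Bool → ℕ → ℕ → R := fun e t β =>
    if e then (if t = r then 1 else Vb b lam t β * Qo b lam (r - t) t β) else Qo b lam (r - t) t β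
    with hQ
  rw [← permanent_path' (Matrix.of fun i j : Bool × Blk b r =>
      if (j.2.2 : ℕ) = rk b r (xp b i.1 i.2.1 i.2.2) j.1 j.2.1 then
        labN b (lam i.2.1 i.2.2) i.1 i.2.1 i.2.2 j.1 j.2.1 else 0) s
    (fun i => xp b i.1 i.2.1 i.2.2 * (r + 1) + (if i.1 then r - i.2.1 else i.2.1)) ?_
    (fun j => Q j.1 j.2.1 j.2.2) (Vb b lam r 0) (by simp [hQ, hs]) ?_]
  · congr 1
    ext ⟨e, t, β⟩ ⟨e', t', β'⟩
    simp only [of_apply, labA, ne_eq, hs']
    by_cases h : e = e' ∧ (t : ℕ) = t' ∧ ¬ (e' = true ∧ (t' : ℕ) = r)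
    · obtain ⟨rfl, h1, h2⟩ := h
      obtain rfl : t = t' := Fin.ext h1
      rw [rk_self hb0 e e t β (by rintro rfl; simp [dl])]
      by_cases h3 : β' = β
      · subst h3; simp [h2]
      · have h4 : (β' : ℕ) ≠ β := fun h => h3 (Fin.ext h)
        simp [h4, Ne.symm h3]
    · rw [if_neg h, if_neg (c := _ ∧ _), zero_add, zero_add]
      rintro ⟨h1, h2⟩
      cases h1
      exact h ⟨rfl, rfl, h2⟩
  · rintro ⟨e, t, β⟩ ⟨e', t', β'⟩ hj h
    simp only [of_apply, ne_eq, ite_eq_right_iff, Classical.not_imp] at h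
    have := (labN_cases hb _ e e' t β t' (Nat.le_of_lt_succ t.2) β.2 h.2).2
      fun h' => hj ((hs' _).2 h')
    simpa only [h.1] using this
  · rintro ⟨e, t, β⟩
    have ht : (t : ℕ) ≤ r := Nat.le_of_lt_succ t.2
    have e1 : ∀ (e' : Bool) (t' : Fin (r + 1)), ∑ β' : Fin (b ^ (r - t')),
        (if (β' : ℕ) = rk b r (xp b e t β) e' t' then labN b (lam t β) e t β e' t' else 0) *
          Q e' t' β' = labN b (lam t β) e t β e' t' * Q e' t' (rk b r (xp b e t β) e' t') :=
      fun e' t' => sum_fin_ite _ _ _ _ fun h => (labN_cases hb _ e e' t β t' ht β.2 h).1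
    simp only [Fintype.sum_prod_type, Fintype.sum_sigma, of_apply, e1, Fintype.sum_bool, hs']
    cases e
    · simp only [labN, Bool.false_eq_true, false_and, if_false]
      rw [sum_fin_lvl (r + 1) t _ 1 (fun t' => Q true t' (rk b r (xp b false t β) true t'))
        fun _ => t.2]
      by_cases h1 : (β + 1) % b = 0
      · have htr : (t : ℕ) < r := by
          rcases ht.lt_or_eq with h' | h'
          · exact h'
          · have := β.2
            simp only [h', Nat.sub_self, pow_zero, Nat.lt_one_iff] at this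
            rw [this, Nat.mod_eq_of_lt (by omega)] at h1
            omega
        rw [sum_fin_lvl (r + 1) (t + 1) _ 1
          (fun t' => Q false t' (rk b r (xp b false t β) false t')) fun _ => by omega,
          if_neg (not_not.2 h1), if_pos h1, zero_add, one_mul, xp_parent _ _ h1 hb0,
          rk_self hb0 _ _ _ _ (by simp [dl])]
        simp only [hQ, Bool.false_eq_true, if_false]
        generalize (β : ℕ) = β' at h1 ⊢
        rw [show r - t = r - (t + 1) + 1 by omega, Qo_parent hb0 _ _ _ _ h1]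
      · simp only [h1, and_false, if_false, zero_mul, sum_const_zero, add_zero, ne_eq,
          not_false_eq_true, if_true, one_mul, hQ, Bool.false_eq_true]
        rcases ht.lt_or_eq with h' | h'
        · generalize (β : ℕ) = β' at h1 ⊢
          rw [if_neg h'.ne, rk_next hb0 _ _ h', show r - t = r - (t + 1) + 1 by omega,
            Qo_next hb0 _ _ _ _ h1]
        · simp [h', Qo]
    · simp only [labN, true_and]
      rw [sum_fin_ite (r + 1) t (lam t β) (fun t' => Q false t' (rk b r (xp b true t β) false t'))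
        fun _ => t.2, rk_self hb0 _ _ _ _ (by simp)]
      have e2 : (if (t : ℕ) = r then Vb b lam r 0 else Q true t β) =
          Vb b lam t β * Qo b lam (r - t) t β := by
        split_ifs with h
        · have := β.2
          simp only [h, Nat.sub_self, pow_zero, Nat.lt_one_iff] at this
          simp [h, this, Qo]
        · simp [hQ, h]
      rw [e2]
      obtain ⟨_ | t, ht'⟩ := t
      · simp [hQ, Vb]
      · simp only [Nat.add_right_cancel_iff]
        rw [sum_fin_ite (r + 1) t 1 (fun t' => Q true t' (rk b r (xp b true (t + 1) β) true t'))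
          fun _ => by omega, rk_child hb0]
        simp only [hQ, if_true, Bool.false_eq_true, if_false, one_mul]
        rw [if_neg (by omega), show r - t = r - (t + 1) + 1 by omega, Qo_child hb0, Vb]
        ring

/-- The vertex carried by a row. -/
def slot {b r : ℕ} : LRow b r → Bool × Blk b r
  | Sum.inl d => (true, ⟨d.1, d.2.1⟩)
  | Sum.inr d => (false, d)

/-- The copy number of a row. -/
def cpy {b r : ℕ} : LRow b r → ℕ
  | Sum.inl d => d.2.2
  | Sum.inr _ => 0

/-- Position of a row. -/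
def xrow {b r : ℕ} (i : LRow b r) : ℕ := xp b (slot i).1 (slot i).2.1 (slot i).2.2

/-- Birth time of a row. -/
def bR {b r : ℕ} : LRow b r → ℤ
  | Sum.inl d => ((d.2.2 * b ^ (r - 1 - d.1) : ℕ) : ℤ)
  | Sum.inr _ => 0

/-- Death time of a row. -/
def dR {b r : ℕ} : LRow b r → ℤ
  | Sum.inl d => (((d.2.2 + 1) * b ^ (r - 1 - d.1) : ℕ) : ℤ)
  | Sum.inr _ => ((b ^ r : ℕ) : ℤ)

/-- Birth time of a column. -/
def bC {b r nl : ℕ} (c : LCol b r nl) : ℤ := (c.2.2 : ℕ) + 1 - ((b ^ (r - c.2.1) : ℕ) : ℤ)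

/-- Death time of a column. -/
def dC {b r nl : ℕ} (c : LCol b r nl) : ℤ := (c.2.2 : ℕ) + 1

/-- Valuations of the entries. -/
def xiL {b r nl : ℕ} (i : LRow b r) (c : LCol b r nl) : ℤ :=
  -(2 * ((c.2.2 : ℕ) : ℤ) * xrow i) + potC (thr b r c.1 c.2.1) (b ^ r) (xrow i)

/-- Labels of the entries. -/
noncomputable def YL {b r nl : ℕ} {R : Type} [CommRing R] (lam : ℕ → ℕ → ℕ → ℕ → R)
    (i : LRow b r) (c : LCol b r nl) : R :=
  labA b r (lam (slot i).2.1 (slot i).2.2 (cpy i) (c.2.2 - rk b r (xrow i) c.1 c.2.1))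
    (slot i).1 (slot i).2.1 (slot i).2.2 c.1 c.2.1

lemma bR_le {b r : ℕ} (i : LRow b r) : bR i ≤ dR i := by
  rcases i with d | d <;> simp only [bR, dR]
  · exact_mod_cast Nat.mul_le_mul_right _ (Nat.le_succ _)
  · positivity

lemma bC_le {b r nl : ℕ} (c : LCol b r nl) : bC c ≤ dC c := by
  simp only [bC, dC]
  omega

lemma aff_YL {b r nl : ℕ} {σ : Type} (lam : ℕ → ℕ → ℕ → ℕ → MvPolynomial σ ℂ)
    (h : ∀ t β ν l, Aff (lam t β ν l)) (i : LRow b r) (c : LCol b r nl) : Aff (YL lam i c) := by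
  have h0 : Aff (0 : MvPolynomial σ ℂ) := Submodule.zero_mem _
  refine Submodule.add_mem _ ?_ ?_
  · split_ifs
    exacts [aff_one, h0]
  · rcases (slot i).1 with _ | _ <;> rcases c.1 with _ | _ <;> simp only [labN] <;> split_ifs <;>
      first | exact aff_one | exact h0 | exact h _ _ _ _

lemma one_le_xp {b : ℕ} (hb : 0 < b) (e : Bool) (t β : ℕ) : 1 ≤ xp b e t β := by
  unfold xp
  split_ifs
  · omega
  · exact Nat.succ_le_of_lt (by positivity)

theorem lanes_init {b r nl : ℕ} {σ : Type} (hb : 2 ≤ b) (lam : ℕ → ℕ → ℕ → ℕ → MvPolynomial σ ℂ)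
    (k l : ℕ) (hk : k < b ^ r) (hl : l ≤ nl) :
    Init (bR (b := b) (r := r)) dR (bC (b := b) (r := r) (nl := nl)) dC xiL (YL lam) k l
      (Fintype.card (Bool × Blk b r))
      (Vb b (fun t β => lam t β (k / b ^ (r - 1 - t)) l) r 0) := by
  have hb0 : 0 < b := by omega
  have hν : ∀ t : ℕ, k / b ^ (r - 1 - t) < b ^ (t + 1) := by
    intro t
    rw [Nat.div_lt_iff_lt_mul (pow_pos hb0 _), ← pow_add]
    exact hk.trans_le (Nat.pow_le_pow_right hb0 (by omega))
  have hβ : ∀ j : Blk b r, (j.2 : ℕ) < b ^ r := fun j =>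
    j.2.2.trans_le (Nat.pow_le_pow_right hb0 (Nat.sub_le _ _))
  let ρ : Bool × Blk b r → LRow b r := fun j =>
    match j with
    | (true, d) => Sum.inl ⟨d.1, d.2, ⟨_, hν d.1⟩⟩
    | (false, d) => Sum.inr d
  let γ : Bool × Blk b r → LCol b r nl := fun j =>
    (j.1, j.2.1, ⟨j.2.2 + l, by have := hβ j.2; omega⟩)
  have hslot : ∀ j, slot (ρ j) = j := by rintro ⟨_ | _, d⟩ <;> rfl
  have hx : ∀ j, xrow (ρ j) = xp b j.1 j.2.1 j.2.2 := fun j => by rw [xrow, hslot]
  have hcost : ∀ j j', xiL (ρ j) (γ j') - (-(2 * (l : ℤ) * xrow (ρ j)) +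
      -potR (thr b r j'.1 j'.2.1) j'.2.2) = -(2 * ((j'.2.2 : ℕ) : ℤ) * xrow (ρ j)) +
        potR (thr b r j'.1 j'.2.1) j'.2.2 + potC (thr b r j'.1 j'.2.1) (b ^ r) (xrow (ρ j)) := by
    intro j j'
    simp only [xiL, γ]
    push_cast
    ring
  refine ⟨Bool × Blk b r, inferInstance, inferInstance, ρ, γ,
    fun i => -(2 * (l : ℤ) * xrow i), fun c => -potR (thr b r c.1 c.2.1) (c.2.2 - l),
    Function.LeftInverse.injective hslot, ?_, rfl, ?_, ?_, ?_, ?_⟩
  · rintro ⟨e, t, β⟩ ⟨e', t', β'⟩ h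
    simp only [γ, Prod.mk.injEq, Fin.mk.injEq, Nat.add_right_cancel_iff] at h
    obtain ⟨rfl, rfl, h⟩ := h
    rw [Fin.ext h]
  · rintro (⟨t, β, ν⟩ | d)
    · simp only [bR, dR, Nat.cast_le, Nat.cast_lt]
      have : (ν : ℕ) = k / b ^ (r - 1 - t) ↔
          ν * b ^ (r - 1 - t) ≤ k ∧ k < (ν + 1) * b ^ (r - 1 - t) := by
        rw [eq_comm, Nat.div_eq_iff (pow_pos hb0 _), Nat.succ_mul]
        have := pow_pos hb0 (r - 1 - t)
        omega
      rw [← this]
      constructor
      · intro h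
        exact ⟨(true, ⟨t, β⟩), by simp only [ρ]; congr 3; exact Fin.ext h.symm⟩
      · rintro ⟨⟨_ | _, d⟩, h⟩
        · cases h
        · cases h; rfl
    · simp only [bR, dR, Nat.cast_lt, Nat.cast_nonneg, hk, and_self, true_iff]
      exact ⟨(false, d), rfl⟩
  · rintro ⟨e, t, c⟩
    simp only [bC, dC]
    constructor
    · intro h
      refine ⟨(e, ⟨t, ⟨c - l, by omega⟩⟩), ?_⟩
      simp only [γ]
      congr 2
      exact Fin.ext (by simp only; omega)
    · rintro ⟨⟨e', t', β⟩, h⟩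
      cases h
      have := β.2
      simp only
      omega
  · intro j j'
    have h1 := hcost j j'
    have h2 := cost_nonneg (thr b r j'.1 j'.2.1) (b ^ r) j'.2.2 (hβ _).le (xrow (ρ j))
    simp only [γ, Nat.add_sub_cancel] at h1 ⊢
    omega
  · rw [← permanent_blocks hb]
    congr 1
    ext1 j j'
    have h1 := hcost j j'
    have h2 := tight_iff (r := r) hb0 j'.1 j'.2.1 (b ^ r) j'.2.2 (xrow (ρ j)) (hβ _)
      (one_le_xp hb0 _ _ _)
    rw [← h1, sub_eq_zero, hx] at h2
    simp only [of_apply, γ, Nat.add_sub_cancel, hx] at h2 ⊢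
    rw [if_congr h2 rfl rfl]
    split_ifs with h
    · simp only [YL, hslot, hx, ← h, Nat.add_sub_cancel_left]
      obtain ⟨_ | _, d⟩ := j
      · simp only [labA]
        rcases j'.1 with _ | _ <;> rfl
      · rfl
    · rfl

lemma card_Blk_le {b r : ℕ} (hb : 0 < b) : Fintype.card (Blk b r) ≤ (r + 1) * b ^ r := by
  rw [Fintype.card_sigma]
  calc ∑ t : Fin (r + 1), Fintype.card (Fin (b ^ (r - t))) ≤ ∑ _t : Fin (r + 1), b ^ r :=
        sum_le_sum fun t _ => by
          rw [Fintype.card_fin]; exact Nat.pow_le_pow_right hb (Nat.sub_le _ _)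
    _ = _ := by simp

lemma card_LRow {b r : ℕ} :
    Fintype.card (LRow b r) = (r + 1) * b ^ (r + 1) + Fintype.card (Blk b r) := by
  rw [Fintype.card_sum, Fintype.card_sigma]
  simp only [Fintype.card_prod, Fintype.card_fin]
  rw [Finset.sum_congr rfl fun (s : Fin (r + 1)) _ =>
    show b ^ (r - (s : ℕ)) * b ^ ((s : ℕ) + 1) = b ^ (r + 1) by
    rw [← pow_add]; congr 1; have := s.2; omega]
  simp

end Pool.Agent.Lib.MP_8a52c3_lc.PermDet
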