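import Pool.Agent.Lib.MP_8a52c3_lc.PermDet.Design
import Pool.Agent.Lib.MP_8a52c3_lc.PermDet.Kernel
import Pool.Agent.Lib.MP_8a52c3_lc.PermDet.DetMain

/-! The lower bound for the border determinantal complexity of the permanent. -/

namespace Pool.Agent.Lib.MP_8a52c3_lc.PermDet

open MvPolynomial Finset Filter Topology

lemma totalDegree_det_le {ω : Type} {m : ℕ} (M : Matrix (Fin m) (Fin m) (MvPolynomial ω ℂ))
    (hM : ∀ a b, (M a b).totalDegree ≤ 1) : M.det.totalDegree ≤ m := by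
  rw [Matrix.det_apply]
  refine totalDegree_finsetSum_le fun σ _ => ?_
  refine (totalDegree_smul_le _ _).trans ((totalDegree_finsetProd _ _).trans ?_)
  calc ∑ i, (M (σ i) i).totalDegree ≤ ∑ _i : Fin m, 1 := Finset.sum_le_sum fun i _ => hM _ _
    _ = m := by simp

lemma spec_lin {ω σ : Type} (S : Finset (ω →₀ ℕ)) (L : MvPolynomial ω ℂ →ₗ[ℂ] MvPolynomial σ ℂ)
    (g : MvPolynomial ω ℂ) (hg : g.support ⊆ S) :
    spec (fun α : S => coeff α g)
      (∑ α : S, X (Sum.inl α) * rename Sum.inr (L (monomial α 1))) = L g := by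
  classical
  simp only [map_sum, map_mul, spec_X_inl, spec_rename]
  rw [Finset.sum_coe_sort S fun α => C (coeff α g) * L (monomial α 1)]
  conv_rhs => rw [g.as_sum, map_sum]
  symm
  refine Finset.sum_subset_zero_on_sdiff hg (fun α hα => ?_) fun α _ => ?_
  · rw [notMem_support_iff.1 (mem_sdiff.1 hα).2]; simp
  · rw [← smul_eq_C_mul, ← map_smul, smul_monomial, smul_eq_mul, mul_one]

/-- The bound for polar systems passes to limits of affine determinants. -/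
theorem border_bound {ω κ : Type} [Finite ω] [Fintype κ] [DecidableEq κ] (m : ℕ)
    (f : MvPolynomial ω ℂ) (M : ℕ → Matrix (Fin m) (Fin m) (MvPolynomial ω ℂ))
    (hM : ∀ j a b, (M j a b).totalDegree ≤ 1)
    (hlim : ∀ α, Tendsto (fun j => coeff α (M j).det) atTop (𝓝 (coeff α f)))
    (Xt : ω → MvPolynomial (Option κ) ℂ) (hX : ∀ a, Aff (Xt a)) (W : κ → ω → ℂ) (W₀ : ω → ℂ)
    (Z : Finset (Option κ → ℂ))
    (hZ : ∀ x ∈ Z, Good (sys Xt W f) (aeval Xt (dirD W₀ f)) x) :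
    (Z.card : ℝ) ≤ (15 * (m + 1) / (Fintype.card κ + 1)) ^ (Fintype.card κ + 1) := by
  classical
  set S := (Finsupp.finite_of_degree_le (σ := ω) (m + f.totalDegree)).toFinset with hS
  have hsub : ∀ g : MvPolynomial ω ℂ, g.totalDegree ≤ m + f.totalDegree → g.support ⊆ S := by
    intro g hg α hα
    rw [hS, Set.Finite.mem_toFinset]
    exact (le_totalDegree hα).trans hg
  let L₀ : (ω → ℂ) → MvPolynomial ω ℂ →ₗ[ℂ] MvPolynomial (Option κ) ℂ := fun V =>
    (aeval Xt : MvPolynomial ω ℂ →ₐ[ℂ] _).toLinearMap ∘ₗ (dirD V).toLinearMap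
  let L : Option κ → MvPolynomial ω ℂ →ₗ[ℂ] MvPolynomial (Option κ) ℂ := fun j =>
    j.elim (aeval Xt : MvPolynomial ω ℂ →ₐ[ℂ] _).toLinearMap fun l => L₀ (W l)
  have hL : ∀ g, sys Xt W g = fun j => L j g := by
    intro g
    funext j
    cases j <;> rfl
  have hL₀ : ∀ g, aeval Xt (dirD W₀ g) = L₀ W₀ g := fun g => rfl
  have hev := persist (π := S)
    (fun j => ∑ α : S, X (Sum.inl α) * rename Sum.inr (L j (monomial α 1)))
    (∑ α : S, X (Sum.inl α) * rename Sum.inr (L₀ W₀ (monomial α 1))) (fun α => coeff α f) Z (by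
      intro x hx
      simp only [spec_lin S _ f (hsub f (by omega))]
      rw [← hL, ← hL₀]
      exact hZ x hx)
  have hT : Tendsto (fun j => fun α : S => coeff α (M j).det) atTop
      (𝓝 fun α : S => coeff α f) := tendsto_pi_nhds.2 fun α => hlim α
  obtain ⟨j, Z', hc, hZ'⟩ := (hT.eventually hev).exists
  rw [← hc]
  refine det_bound m (M j) (fun a b => aff_of_totalDegree _ (hM j a b)) Xt hX W W₀ Z' ?_
  intro x hx
  have := hZ' x hx
  simp only [spec_lin S _ _ (hsub _ ((totalDegree_det_le _ (hM j)).trans (Nat.le_add_right _ _)))]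
    at this
  rw [hL, hL₀]
  exact this

lemma dirD_rename {ω ω' : Type} (φ : ω → ω') (W : ω' → ℂ) (f : MvPolynomial ω ℂ) :
    dirD W (rename φ f) = rename φ (dirD (W ∘ φ) f) := by
  induction f using MvPolynomial.induction_on with
  | C a => simp
  | add p q hp hq => simp [hp, hq]
  | mul_X p i hp => simp [hp]

lemma rename_permPoly {ι ι' : Type} [Fintype ι] [DecidableEq ι] [Fintype ι'] [DecidableEq ι']
    (e : ι ≃ ι') : rename (Prod.map e e) (permPoly ι) = permPoly ι' := by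
  simp only [permPoly, Matrix.permanent, map_sum, map_prod, Matrix.of_apply, rename_X,
    Prod.map_apply]
  refine Fintype.sum_equiv e.permCongr _ _ fun σ => ?_
  refine Fintype.prod_equiv e _ _ fun i => ?_
  simp

lemma card_Row_le {b r : ℕ} (hb : 0 < b) : Fintype.card (Row b r) ≤ (2 * r + 2) * b ^ (r + 1) := by
  have h1 := wd_le (r := r) hb
  have h2 : b ^ r ≤ b ^ (r + 1) := Nat.pow_le_pow_right hb (Nat.le_succ _)
  have h3 := Nat.mul_le_mul_left (r + 1) h2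
  rw [card_Row]
  have : (2 * r + 2) * b ^ (r + 1) = b ^ (r + 1) + (r * b ^ (r + 1) + (r + 1) * b ^ (r + 1)) := by
    ring
  omega

theorem count_bound (r s n m : ℕ) (hr : 0 < r)
    (hn : (4 * r + 4) * (2 ^ (s + 2)) ^ (r + 1) ≤ n)
    (M : ℕ → Matrix (Fin m) (Fin m) (MvPolynomial (Fin n × Fin n) ℂ))
    (hM : ∀ j a b, (M j a b).totalDegree ≤ 1)
    (hlim : ∀ α, Tendsto (fun j => coeff α (M j).det) atTop (𝓝 (coeff α (permPoly (Fin n)))))
    (K : ℕ) (hK : K = (2 ^ (s + 2)) ^ r * ((2 ^ (s + 2)) ^ r * 2 ^ (s + 1))) :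
    (((2 ^ s) ^ r : ℕ) : ℝ) ^ K ≤ ((15 * (m + 1) / (K + 1)) ^ (K + 1)) ^ 2 := by
  classical
  have hex := exists_hadamard s
  obtain ⟨b, hb⟩ : ∃ b, b = 2 ^ (s + 2) := ⟨_, rfl⟩
  rw [← hb] at hex hn hK
  obtain ⟨H₀, G₀, h1, h2, h3⟩ := hex
  have hb0 : 0 < b := by rw [hb]; positivity
  obtain ⟨Z, hZc, hZ⟩ := monomial_system (K := Fin r → Fin b) (b ^ r * 2 ^ (s + 1)) ((2 ^ s) ^ r)
    (by positivity) (fun k i => ∏ t, H₀ (k t) (i t)) (fun k k' => by
      rw [kron_sum r H₀ H₀, show (2 ^ s) ^ r = ∏ _t : Fin r, 2 ^ s by simp]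
      exact Finset.prod_dvd_prod_of_dvd _ _ fun t _ => h2 _ _)
    (fun k i => ∏ t, G₀ (k t) (i t)) (fun k k' => by
      simp only [Nat.cast_prod]
      rw [kron_sum r G₀ fun x y => (H₀ x y : ℂ)]
      simp only [h3, Finset.prod_ite_zero, mem_univ, forall_const, Finset.prod_const_one,
        _root_.funext_iff])
  have hR := card_Row_le (r := r) hb0
  obtain ⟨Xt, W, W₀, Z', hX, hc, hZ'⟩ := design (A := Fin (n - Fintype.card (Row b r))) hb0 hr
    H₀ h1 (nl := b ^ r * 2 ^ (s + 1)) (by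
      calc (r + 1) * (b ^ r * 2 ^ (s + 1)) ≤ (r * 2) * (b ^ r * 2 ^ (s + 1)) :=
            Nat.mul_le_mul_right _ (by omega)
        _ = r * b ^ (r + 1) := by rw [pow_succ b, hb]; ring)
    (by
      rw [Fintype.card_fin]
      have : (4 * r + 4) * b ^ (r + 1) = 2 * ((2 * r + 2) * b ^ (r + 1)) := by ring
      omega) Z hZ
  let e : Fin n ≃ Fin (n - Fintype.card (Row b r)) ⊕ Row b r := Fintype.equivOfCardEq (by
    rw [Fintype.card_sum, Fintype.card_fin, Fintype.card_fin]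
    have : (4 * r + 4) * b ^ (r + 1) = 2 * ((2 * r + 2) * b ^ (r + 1)) := by ring
    omega)
  have key := border_bound m (permPoly (Fin n)) M hM hlim (Xt ∘ Prod.map e e) (fun a => hX _)
    (fun l => W l ∘ Prod.map e e) (W₀ ∘ Prod.map e e) Z' (by
      intro x hx
      have := hZ' x hx
      rw [← rename_permPoly e, dirD_rename, aeval_rename] at this
      have hs : sys (Xt ∘ Prod.map e e) (fun l => W l ∘ Prod.map e e) (permPoly (Fin n)) =
          sys Xt W (rename (Prod.map e e) (permPoly (Fin n))) := by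
        funext j
        cases j <;> simp only [sys, Option.elim, dirD_rename, aeval_rename]
      rw [hs]
      exact this)
  have hcard : Fintype.card ((Fin r → Fin b) × Fin (b ^ r * 2 ^ (s + 1))) = K := by
    simp [hK]
  rw [hcard, hc] at key
  rw [show Fintype.card (Fin r → Fin b) * (b ^ r * 2 ^ (s + 1)) = K by simp [hK]] at hZc
  calc (((2 ^ s) ^ r : ℕ) : ℝ) ^ K ≤ (Z.card : ℝ) ^ 2 := by exact_mod_cast hZc
    _ ≤ _ := pow_le_pow_left₀ (Nat.cast_nonneg _) key 2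

lemma arith (r s m K : ℕ) (hK : K = (2 ^ (s + 2)) ^ r * ((2 ^ (s + 2)) ^ r * 2 ^ (s + 1)))
    (h : (((2 ^ s) ^ r : ℕ) : ℝ) ^ K ≤ ((15 * (m + 1) / (K + 1)) ^ (K + 1)) ^ 2) :
    (2 ^ (s + 2)) ^ (5 * r + 2) ≤ 3600 * 4 ^ r * (m + 1) ^ 2 := by
  set Q : ℕ := (2 ^ s) ^ r with hQ
  have hQ0 : 0 < Q := by positivity
  have hQK : Q ≤ 4 ^ (K + 1) := by
    have h1 : Q ≤ (2 ^ (s + 2)) ^ r :=
      Nat.pow_le_pow_left (Nat.pow_le_pow_right two_pos (by omega)) _
    have h2 : (2 ^ (s + 2)) ^ r ≤ K := by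
      rw [hK]; exact Nat.le_mul_of_pos_right _ (by positivity)
    have h3 : K + 1 < 4 ^ (K + 1) := Nat.lt_pow_self (by norm_num)
    omega
  set y : ℝ := 15 * (m + 1) / (K + 1) with hy
  have h4 : (Q : ℝ) ≤ 4 * y ^ 2 := by
    refine le_of_pow_le_pow_left₀ (Nat.succ_ne_zero K) (by positivity) ?_
    rw [mul_pow, ← pow_mul, mul_comm 2, pow_mul, pow_succ, mul_comm]
    refine mul_le_mul ?_ h (by positivity) (by positivity)
    exact_mod_cast hQK
  have h5 : (Q : ℝ) * (K + 1) ^ 2 ≤ 900 * (m + 1) ^ 2 := by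
    rw [hy, div_pow, ← mul_div_assoc, le_div_iff₀ (by positivity)] at h4
    linarith
  have h6 : Q * (K + 1) ^ 2 ≤ 900 * (m + 1) ^ 2 := by exact_mod_cast h5
  have h7 : Q * K ^ 2 ≤ 900 * (m + 1) ^ 2 :=
    (Nat.mul_le_mul_left _ (Nat.pow_le_pow_left (Nat.le_succ K) 2)).trans h6
  calc (2 ^ (s + 2)) ^ (5 * r + 2) = 4 * 4 ^ r * (Q * K ^ 2) := by
        rw [hK, hQ, show (2 : ℕ) ^ (s + 2) = 4 * 2 ^ s by ring, pow_succ 2 s]
        simp only [mul_pow]
        ring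
    _ ≤ 4 * 4 ^ r * (900 * (m + 1) ^ 2) := Nat.mul_le_mul_left _ h7
    _ = _ := by ring

theorem pow_bound (r : ℕ) (hr : 0 < r) : ∃ C n₀ : ℕ, ∀ n ≥ n₀, ∀ (m : ℕ)
    (M : ℕ → Matrix (Fin m) (Fin m) (MvPolynomial (Fin n × Fin n) ℂ)),
    (∀ j a b, (M j a b).totalDegree ≤ 1) →
    (∀ α, Tendsto (fun j => coeff α (M j).det) atTop (𝓝 (coeff α (permPoly (Fin n))))) →
    n ^ (5 * r + 2) ≤ C * (m + 1) ^ (2 * r + 2) := by
  classical
  refine ⟨((4 * r + 4) * 2 ^ (r + 1)) ^ (5 * r + 2) * (3600 * 4 ^ r) ^ (r + 1),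
    (4 * r + 4) * (2 ^ (0 + 2)) ^ (r + 1), fun n hn m M hM hlim => ?_⟩
  have hex : ∃ s, n < (4 * r + 4) * (2 ^ (s + 2)) ^ (r + 1) := by
    refine ⟨n, ?_⟩
    calc n < 2 ^ n := Nat.lt_two_pow_self
      _ ≤ 2 ^ (n + 2) := Nat.pow_le_pow_right two_pos (by omega)
      _ ≤ (2 ^ (n + 2)) ^ (r + 1) := Nat.le_self_pow (by omega) _
      _ ≤ _ := Nat.le_mul_of_pos_left _ (by omega)
  have h0 : Nat.find hex ≠ 0 := by
    intro h
    have := Nat.find_spec hex
    rw [h] at this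
    omega
  obtain ⟨s, hs⟩ := Nat.exists_eq_succ_of_ne_zero h0
  have h1 := Nat.find_spec hex
  have h2 := Nat.find_min hex (m := s) (by omega)
  rw [hs] at h1
  have h3 := arith r s m _ rfl (count_bound r s n m hr (not_lt.1 h2) M hM hlim _ rfl)
  calc n ^ (5 * r + 2) ≤ ((4 * r + 4) * (2 ^ (s.succ + 2)) ^ (r + 1)) ^ (5 * r + 2) :=
        Nat.pow_le_pow_left h1.le _
    _ = ((4 * r + 4) * 2 ^ (r + 1)) ^ (5 * r + 2) * ((2 ^ (s + 2)) ^ (5 * r + 2)) ^ (r + 1) := by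
        rw [show (2 : ℕ) ^ (s.succ + 2) = 2 * 2 ^ (s + 2) by rw [Nat.succ_eq_add_one]; ring,
          mul_pow 2, ← mul_assoc, mul_pow _ ((2 ^ (s + 2)) ^ (r + 1)), ← pow_mul _ (r + 1),
          ← pow_mul _ (5 * r + 2), mul_comm (r + 1)]
    _ ≤ ((4 * r + 4) * 2 ^ (r + 1)) ^ (5 * r + 2) * (3600 * 4 ^ r * (m + 1) ^ 2) ^ (r + 1) :=
        Nat.mul_le_mul_left _ (Nat.pow_le_pow_left h3 _)
    _ = _ := by rw [mul_pow _ ((m + 1) ^ 2), ← pow_mul, ← mul_assoc]; rfl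

/-- The border determinantal complexity of the permanent over `ℂ` is at least `n ^ (5/2 - ε)`. -/
theorem border_main (ε : ℝ) (hε : 0 < ε) : ∃ n₀ : ℕ, ∀ n ≥ n₀, ∀ (m : ℕ)
    (M : ℕ → Matrix (Fin m) (Fin m) (MvPolynomial (Fin n × Fin n) ℂ)),
    (∀ j a b, (M j a b).totalDegree ≤ 1) →
    (∀ α, Tendsto (fun j => coeff α (M j).det) atTop (𝓝 (coeff α (permPoly (Fin n))))) →
    (n : ℝ) ^ (5 / 2 - ε) ≤ m := by
  obtain ⟨r, hr⟩ := exists_nat_gt (3 / ε)
  have hr0 : 0 < r := by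
    have : (0 : ℝ) < r := lt_trans (by positivity) hr
    exact_mod_cast this
  rw [div_lt_iff₀ hε] at hr
  obtain ⟨C, n₁, hC⟩ := pow_bound r hr0
  set a : ℝ := max (5 / 2 - ε) 0 with ha
  have hδ : 0 < (5 * r + 2 : ℝ) - a * (2 * r + 2) := by
    rcases le_total (5 / 2 - ε) 0 with h | h
    · rw [ha, max_eq_right h]; simp only [zero_mul, sub_zero]; positivity
    · rw [ha, max_eq_left h]; nlinarith
  have hT := ((tendsto_rpow_atTop hδ).comp tendsto_natCast_atTop_atTop).eventually_gt_atTop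
    ((C : ℝ) * 2 ^ (2 * r + 2))
  obtain ⟨n₂, hn₂⟩ := eventually_atTop.1 hT
  refine ⟨max (max n₁ n₂) 1, fun n hn m M hM hlim => ?_⟩
  have h1 : (n : ℝ) ^ (5 * r + 2) ≤ C * (m + 1) ^ (2 * r + 2) := by
    exact_mod_cast hC n (by omega) m M hM hlim
  have h2 := hn₂ n (by omega)
  have hn1 : (1 : ℝ) ≤ n := by exact_mod_cast (by omega : 1 ≤ n)
  have hn0 : (0 : ℝ) < n := by linarith
  by_contra hlt
  have h3 : (m : ℝ) + 1 ≤ 2 * (n : ℝ) ^ a := by
    have := Real.rpow_le_rpow_of_exponent_le hn1 (le_max_left (5 / 2 - ε) 0)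
    have := Real.one_le_rpow hn1 (le_max_right (5 / 2 - ε) 0)
    linarith [not_le.1 hlt]
  have h4 : ((m : ℝ) + 1) ^ (2 * r + 2) ≤ 2 ^ (2 * r + 2) * (n : ℝ) ^ (a * (2 * r + 2)) := by
    refine (pow_le_pow_left₀ (by positivity) h3 _).trans_eq ?_
    rw [mul_pow, Real.rpow_mul hn0.le, ← Real.rpow_natCast ((n : ℝ) ^ a)]
    push_cast
    rfl
  simp only [Function.comp_apply] at h2
  rw [Real.rpow_sub hn0, lt_div_iff₀ (by positivity),
    show (5 * r + 2 : ℝ) = ((5 * r + 2 : ℕ) : ℝ) by push_cast; rfl, Real.rpow_natCast] at h2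
  have h5 := mul_le_mul_of_nonneg_left h4 (Nat.cast_nonneg C)
  linarith

end Pool.Agent.Lib.MP_8a52c3_lc.PermDet
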