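import Pool.Agent.Lib.MP_8a52c3_lc.PermDet.Count
import Pool.Agent.Lib.MP_8a52c3_lc.PermDet.Main

/-! The almost cubic lower bound for the border determinantal complexity of the permanent. -/

namespace Pool.Agent.Lib.MP_8a52c3_lc.PermDet

open MvPolynomial Finset Filter Topology

theorem count_bound3 (r b n m : ℕ) (hb : 2 ≤ b) (hn : 14 * (r + 1) * b ^ (r + 1) ≤ n)
    (M : ℕ → Matrix (Fin m) (Fin m) (MvPolynomial (Fin n × Fin n) ℂ))
    (hM : ∀ j a b, (M j a b).totalDegree ≤ 1)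
    (hlim : ∀ α, Tendsto (fun j => coeff α (M j).det) atTop (𝓝 (coeff α (permPoly (Fin n)))))
    (K : ℕ) (hK : K = b ^ r * b ^ (r + 1)) :
    (((b.factorial ^ (b ^ (r - 1) * b ^ (r + 1))) ^ r : ℕ) : ℝ) ≤
      (15 * (m + 1) / (K + 1)) ^ (K + 1) := by
  classical
  have hb0 : 0 < b := by omega
  have h1 := card_Blk_le (r := r) hb0
  have h2 : (r + 1) * b ^ r ≤ (r + 1) * b ^ (r + 1) :=
    Nat.mul_le_mul_left _ (Nat.pow_le_pow_right hb0 (Nat.le_succ _))
  have h3 := card_LRow (b := b) (r := r)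
  have h4 : Fintype.card (LCol b r (b ^ (r + 1))) =
      2 * ((r + 1) * b ^ r) + 2 * ((r + 1) * b ^ (r + 1)) := by
    simp only [Fintype.card_prod, Fintype.card_bool, Fintype.card_fin]
    ring
  have h5 : Fintype.card (Bool × Blk b r) = 2 * Fintype.card (Blk b r) := by
    rw [Fintype.card_prod, Fintype.card_bool]
  have h6 : 0 < Fintype.card (Blk b r) := Fintype.card_pos_iff.2 ⟨⟨0, ⟨0, pow_pos hb0 _⟩⟩⟩
  rw [mul_assoc] at hn
  obtain ⟨w, hw⟩ : ∃ w, Fintype.card (Bool × Blk b r) = w + 1 := ⟨_, (Nat.sub_add_cancel (by omega)).symm⟩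
  set c := Fintype.card ((LRow b r ⊕ LCol b r (b ^ (r + 1))) ⊕ Fin w) with hc
  have hc' : c = Fintype.card (LRow b r) + Fintype.card (LCol b r (b ^ (r + 1))) + w := by
    rw [hc, Fintype.card_sum, Fintype.card_sum, Fintype.card_fin]
  obtain ⟨Xt, W, W₀, Z, hX, hZc, hZ⟩ := design3 (A := Fin (n - c)) hb (b ^ (r + 1)) w hw
    (by rw [Fintype.card_fin]; omega)
  let e : Fin n ≃ Fin (n - c) ⊕ (LRow b r ⊕ LCol b r (b ^ (r + 1))) ⊕ Fin w :=
    Fintype.equivOfCardEq (by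
      rw [Fintype.card_sum, Fintype.card_fin, Fintype.card_fin, ← hc]
      omega)
  have key := border_bound m (permPoly (Fin n)) M hM hlim (Xt ∘ Prod.map e e) (fun a => hX _)
    (fun l => W l ∘ Prod.map e e) (W₀ ∘ Prod.map e e) Z (by
      intro x hx
      have := hZ x hx
      rw [← rename_permPoly e, dirD_rename, aeval_rename] at this
      have hs : sys (Xt ∘ Prod.map e e) (fun l => W l ∘ Prod.map e e) (permPoly (Fin n)) =
          sys Xt W (rename (Prod.map e e) (permPoly (Fin n))) := by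
        funext j
        cases j <;> simp only [sys, Option.elim, dirD_rename, aeval_rename]
      rw [hs]
      exact this)
  have hcard : Fintype.card ((Fin r → Fin b) × Fin (b ^ (r + 1))) = K := by
    simp [hK]
  rw [hcard] at key
  exact (Nat.cast_le.2 hZc).trans key

lemma arith3 (r b m K : ℕ) (hr : 0 < r) (hb : 0 < b) (hK : K = b ^ r * b ^ (r + 1))
    (h : (((b.factorial ^ (b ^ (r - 1) * b ^ (r + 1))) ^ r : ℕ) : ℝ) ≤
      (15 * (m + 1) / (K + 1)) ^ (K + 1)) : b ^ (3 * r + 1) ≤ 30 * 3 ^ r * (m + 1) := by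
  set Q : ℝ := (b / 3) ^ r with hQ
  have hf : ((b : ℝ) / 3) ^ b ≤ b.factorial := by
    have h1 := Real.pow_div_factorial_le_exp (b : ℝ) (Nat.cast_nonneg b) b
    rw [div_le_iff₀ (by positivity), ← Real.exp_one_pow] at h1
    rw [div_pow, div_le_iff₀ (by positivity), mul_comm]
    refine h1.trans (mul_le_mul_of_nonneg_right ?_ (by positivity))
    exact pow_le_pow_left₀ (Real.exp_pos 1).le (Real.exp_one_lt_d9.le.trans (by norm_num)) _
  have h1 : Q ^ K ≤ (15 * (m + 1) / (K + 1)) ^ (K + 1) := by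
    refine le_trans ?_ h
    push_cast
    rw [hQ, ← pow_mul, ← pow_mul, show r * K = b * (b ^ (r - 1) * b ^ (r + 1) * r) by
      obtain ⟨r, rfl⟩ := Nat.exists_eq_add_one_of_ne_zero hr.ne'
      rw [hK, Nat.add_sub_cancel]; ring, pow_mul]
    exact pow_le_pow_left₀ (by positivity) hf _
  have hQK : Q ≤ 2 ^ (K + 1) := by
    have h2 : b ^ r ≤ K := by rw [hK]; exact Nat.le_mul_of_pos_right _ (by positivity)
    have h3 : K + 1 < 2 ^ (K + 1) := Nat.lt_pow_self (by norm_num)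
    calc Q ≤ (b : ℝ) ^ r := pow_le_pow_left₀ (by positivity) (by linarith [Nat.cast_nonneg (α := ℝ) b]) _
      _ ≤ _ := by exact_mod_cast (by omega : b ^ r ≤ 2 ^ (K + 1))
  set y : ℝ := 15 * (m + 1) / (K + 1) with hy
  have h4 : Q ≤ 2 * y := by
    refine le_of_pow_le_pow_left₀ (Nat.succ_ne_zero K) (by positivity) ?_
    rw [mul_pow, pow_succ, mul_comm]
    exact mul_le_mul hQK h1 (by positivity) (by positivity)
  rw [hy, ← mul_div_assoc, le_div_iff₀ (by positivity), hQ, div_pow, div_mul_eq_mul_div,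
    div_le_iff₀ (by positivity)] at h4
  have h5 : b ^ r * (K + 1) ≤ 2 * (15 * (m + 1)) * 3 ^ r := by exact_mod_cast h4
  calc b ^ (3 * r + 1) = b ^ r * K := by rw [hK]; ring
    _ ≤ b ^ r * (K + 1) := Nat.mul_le_mul_left _ (Nat.le_succ _)
    _ ≤ _ := h5
    _ = _ := by ring

theorem pow_bound3 (r : ℕ) (hr : 0 < r) : ∃ C n₀ : ℕ, ∀ n ≥ n₀, ∀ (m : ℕ)
    (M : ℕ → Matrix (Fin m) (Fin m) (MvPolynomial (Fin n × Fin n) ℂ)),
    (∀ j a b, (M j a b).totalDegree ≤ 1) →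
    (∀ α, Tendsto (fun j => coeff α (M j).det) atTop (𝓝 (coeff α (permPoly (Fin n))))) →
    n ^ (3 * r + 1) ≤ C * (m + 1) ^ (r + 1) := by
  classical
  refine ⟨(14 * (r + 1) * 2 ^ (r + 1)) ^ (3 * r + 1) * (30 * 3 ^ r) ^ (r + 1),
    14 * (r + 1) * (0 + 2) ^ (r + 1), fun n hn m M hM hlim => ?_⟩
  have hex : ∃ s, n < 14 * (r + 1) * (s + 2) ^ (r + 1) := by
    refine ⟨n, ?_⟩
    calc n < n + 2 := by omega
      _ ≤ (n + 2) ^ (r + 1) := Nat.le_self_pow (by omega) _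
      _ ≤ _ := Nat.le_mul_of_pos_left _ (by omega)
  have h0 : Nat.find hex ≠ 0 := by
    intro h
    have := Nat.find_spec hex
    rw [h] at this
    omega
  obtain ⟨s, hs⟩ := Nat.exists_eq_succ_of_ne_zero h0
  have h1 := Nat.find_spec hex
  have h2 := Nat.find_min hex (m := s) (by omega)
  rw [hs] at h1
  have h3 := arith3 r (s + 2) m _ hr (by omega) rfl
    (count_bound3 r (s + 2) n m (by omega) (not_lt.1 h2) M hM hlim _ rfl)
  calc n ^ (3 * r + 1) ≤ (14 * (r + 1) * (2 * (s + 2)) ^ (r + 1)) ^ (3 * r + 1) :=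
        Nat.pow_le_pow_left (h1.le.trans (Nat.mul_le_mul_left _
          (Nat.pow_le_pow_left (by omega) _))) _
    _ = (14 * (r + 1) * 2 ^ (r + 1)) ^ (3 * r + 1) * ((s + 2) ^ (3 * r + 1)) ^ (r + 1) := by
        rw [mul_pow 2, ← mul_assoc, mul_pow _ ((s + 2) ^ (r + 1)), ← pow_mul _ (r + 1),
          ← pow_mul _ (3 * r + 1), mul_comm (r + 1)]
    _ ≤ (14 * (r + 1) * 2 ^ (r + 1)) ^ (3 * r + 1) * (30 * 3 ^ r * (m + 1)) ^ (r + 1) :=
        Nat.mul_le_mul_left _ (Nat.pow_le_pow_left h3 _)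
    _ = _ := by rw [mul_pow _ (m + 1), ← mul_assoc]

/-- The border determinantal complexity of the permanent over `ℂ` is at least `n ^ (3 - ε)`. -/
theorem border_cubic (ε : ℝ) (hε : 0 < ε) : ∃ n₀ : ℕ, ∀ n ≥ n₀, ∀ (m : ℕ)
    (M : ℕ → Matrix (Fin m) (Fin m) (MvPolynomial (Fin n × Fin n) ℂ)),
    (∀ j a b, (M j a b).totalDegree ≤ 1) →
    (∀ α, Tendsto (fun j => coeff α (M j).det) atTop (𝓝 (coeff α (permPoly (Fin n))))) →
    (n : ℝ) ^ (3 - ε) ≤ m := by
  obtain ⟨r, hr⟩ := exists_nat_gt (2 / ε)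
  have hr0 : 0 < r := by
    have : (0 : ℝ) < r := lt_trans (by positivity) hr
    exact_mod_cast this
  rw [div_lt_iff₀ hε] at hr
  obtain ⟨C, n₁, hC⟩ := pow_bound3 r hr0
  set a : ℝ := max (3 - ε) 0 with ha
  have hδ : 0 < (3 * r + 1 : ℝ) - a * (r + 1) := by
    rcases le_total (3 - ε) 0 with h | h
    · rw [ha, max_eq_right h]; simp only [zero_mul, sub_zero]; positivity
    · rw [ha, max_eq_left h]; nlinarith
  have hT := ((tendsto_rpow_atTop hδ).comp tendsto_natCast_atTop_atTop).eventually_gt_atTop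
    ((C : ℝ) * 2 ^ (r + 1))
  obtain ⟨n₂, hn₂⟩ := eventually_atTop.1 hT
  refine ⟨max (max n₁ n₂) 1, fun n hn m M hM hlim => ?_⟩
  have h1 : (n : ℝ) ^ (3 * r + 1) ≤ C * (m + 1) ^ (r + 1) := by
    exact_mod_cast hC n (by omega) m M hM hlim
  have h2 := hn₂ n (by omega)
  have hn1 : (1 : ℝ) ≤ n := by exact_mod_cast (by omega : 1 ≤ n)
  have hn0 : (0 : ℝ) < n := by linarith
  by_contra hlt
  have h3 : (m : ℝ) + 1 ≤ 2 * (n : ℝ) ^ a := by
    have := Real.rpow_le_rpow_of_exponent_le hn1 (le_max_left (3 - ε) 0)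
    have := Real.one_le_rpow hn1 (le_max_right (3 - ε) 0)
    linarith [not_le.1 hlt]
  have h4 : ((m : ℝ) + 1) ^ (r + 1) ≤ 2 ^ (r + 1) * (n : ℝ) ^ (a * (r + 1)) := by
    refine (pow_le_pow_left₀ (by positivity) h3 _).trans_eq ?_
    rw [mul_pow, Real.rpow_mul hn0.le, ← Real.rpow_natCast ((n : ℝ) ^ a)]
    push_cast
    rfl
  simp only [Function.comp_apply] at h2
  rw [Real.rpow_sub hn0, lt_div_iff₀ (by positivity),
    show (3 * r + 1 : ℝ) = ((3 * r + 1 : ℕ) : ℝ) by push_cast; rfl, Real.rpow_natCast] at h2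
  have h5 := mul_le_mul_of_nonneg_left h4 (Nat.cast_nonneg C)
  linarith

end Pool.Agent.Lib.MP_8a52c3_lc.PermDet
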