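import Pool.Agent.Lib.MP_8a52c3_lc.PermDet.DetBound

/-! First derivatives of the permanent along rank-two border blocks. -/

namespace Pool.Agent.Lib.MP_8a52c3_lc.PermDet

open MvPolynomial Matrix Equiv Finset

section

variable {ι R : Type} [Fintype ι] [DecidableEq ι] [CommRing R]

/-- Derivative of the permanent at `X` in the direction `W`. -/
def dperm (X W : Matrix ι ι R) : R :=
  ∑ σ : Perm ι, ∑ i, W (σ i) i * ∏ j ∈ univ.erase i, X (σ j) j

lemma dperm_cols (X W : Matrix ι ι R) :
    dperm X W = ∑ i, (X.updateCol i fun k => W k i).permanent := by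
  simp only [dperm, permanent]
  rw [Finset.sum_comm]
  refine Finset.sum_congr rfl fun i _ => Finset.sum_congr rfl fun σ _ => ?_
  rw [← Finset.mul_prod_erase _ _ (Finset.mem_univ i), updateCol_self]
  congr 1
  refine Finset.prod_congr rfl fun j hj => ?_
  rw [updateCol_ne (Finset.ne_of_mem_erase hj)]

lemma dperm_transpose (X W : Matrix ι ι R) : dperm Xᵀ Wᵀ = dperm X W := by
  simp only [dperm, transpose_apply]
  refine Fintype.sum_equiv (Equiv.inv _) _ _ fun σ => ?_
  refine Fintype.sum_equiv σ _ _ fun i => ?_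
  simp only [Equiv.inv_apply, Perm.coe_inv, symm_apply_apply]
  congr 1
  refine Finset.prod_equiv σ (fun j => by simp) fun j _ => by simp

lemma dperm_rows (X W : Matrix ι ι R) :
    dperm X W = ∑ i, (X.updateRow i (W i)).permanent := by
  rw [← dperm_transpose, dperm_cols]
  refine Finset.sum_congr rfl fun i _ => ?_
  rw [← permanent_transpose, ← updateRow_transpose]
  rfl

lemma dperm_lin (X W W' : Matrix ι ι R) (c c' : R) :
    dperm X (c • W - c' • W') = c * dperm X W - c' * dperm X W' := by
  simp only [dperm, Matrix.sub_apply, Matrix.smul_apply, smul_eq_mul, Finset.mul_sum,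
    ← Finset.sum_sub_distrib]
  refine Finset.sum_congr rfl fun σ _ => Finset.sum_congr rfl fun i _ => by ring

/-- The linear form attached to a row. -/
noncomputable def form (v : ι → R) : MvPolynomial ι R := ∑ j, C (v j) * X j

lemma permanent_eq_coeff (M : Matrix ι ι R) :
    M.permanent = coeff (∑ j, Finsupp.single j 1) (∏ i, form (M i)) := by
  rw [← permanent_transpose]
  simp only [form, permanent, transpose_apply]
  rw [Finset.prod_univ_sum, Fintype.piFinset_univ, coeff_sum]
  have h1 : ∀ g : ι → ι, ∏ i, (C (M i (g i)) * X (g i) : MvPolynomial ι R) =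
      monomial (∑ i, Finsupp.single (g i) 1) (∏ i, M i (g i)) := by
    intro g
    rw [monomial_sum_prod]
    refine Finset.prod_congr rfl fun i _ => C_mul_X_eq_monomial
  have h2 : ∀ g : ι → ι, (∑ i, Finsupp.single (g i) 1 : ι →₀ ℕ) = ∑ j, Finsupp.single j 1 ↔
      Function.Bijective g := by
    intro g
    constructor
    · intro h
      rw [← Finite.surjective_iff_bijective]
      intro j
      by_contra hj
      have := DFunLike.congr_fun h j
      simp only [Finsupp.coe_finset_sum, Finset.sum_apply, Finsupp.single_apply] at this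
      rw [Finset.sum_eq_zero fun i _ => if_neg fun hi => hj ⟨i, hi⟩] at this
      simp at this
    · intro h
      exact (Equiv.ofBijective g h).sum_comp fun j => (Finsupp.single j 1 : ι →₀ ℕ)
  simp only [h1, coeff_monomial, h2]
  rw [← Finset.sum_filter]
  refine Finset.sum_bij (fun σ _ => (σ : ι → ι)) (fun σ _ => by simpa using σ.bijective)
    (fun σ _ τ _ h => Equiv.ext fun i => congrFun h i) (fun g hg => ?_) (fun σ _ => rfl)
  exact ⟨Equiv.ofBijective g (mem_filter.1 hg).2, mem_univ _, rfl⟩

end

lemma lagrange_hom {ι : Type} [DecidableEq ι] (s : Finset ι) (hs : s.Nonempty) (t : ι → ℂ)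
    (ht : Set.InjOn t s) (α β : ℂ) :
    ∃ c : ι → ℂ, ∀ (S : Type) [CommRing S] [Algebra ℂ S] (P Q : S),
      ∑ k ∈ s, c k • ∏ k' ∈ s.erase k, (t k' • P + Q) = (α • P + β • Q) ^ (s.card - 1) := by
  set c : ι → ℂ := fun k => (α - β * t k) ^ (s.card - 1) / ∏ k' ∈ s.erase k, (t k' - t k) with hc
  have hcard : s.card - 1 < s.card := Nat.sub_lt hs.card_pos one_pos
  have h1 : (∑ k ∈ s, Polynomial.C (c k) * ∏ k' ∈ s.erase k, (Polynomial.X + Polynomial.C (t k'))) =
      (Polynomial.C β * Polynomial.X + Polynomial.C α) ^ (s.card - 1) := by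
    refine Polynomial.eq_of_degrees_lt_of_eval_index_eq s (v := fun k => -t k)
      (fun a ha b hb h => ht ha hb (neg_injective h)) ?_ ?_ ?_
    · refine Polynomial.degree_le_natDegree.trans_lt ?_
      norm_cast
      refine lt_of_le_of_lt ?_ hcard
      refine Polynomial.natDegree_sum_le_of_forall_le _ _ fun k hk => ?_
      refine (Polynomial.natDegree_C_mul_le _ _).trans ?_
      refine (Polynomial.natDegree_prod_le _ _).trans ?_
      simp [Finset.card_erase_of_mem hk]
    · refine Polynomial.degree_le_natDegree.trans_lt ?_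
      norm_cast
      refine lt_of_le_of_lt ?_ hcard
      refine Polynomial.natDegree_pow_le.trans ?_
      have := Polynomial.natDegree_linear_le (a := β) (b := α)
      nlinarith
    · intro k hk
      simp only [Polynomial.eval_finset_sum, Polynomial.eval_mul, Polynomial.eval_C,
        Polynomial.eval_prod, Polynomial.eval_add, Polynomial.eval_X, Polynomial.eval_pow]
      rw [Finset.sum_eq_single k]
      · have hne : ∏ k' ∈ s.erase k, (t k' - t k) ≠ 0 := by
          refine Finset.prod_ne_zero_iff.2 fun k' hk' h => ?_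
          exact Finset.ne_of_mem_erase hk' (ht (Finset.mem_of_mem_erase hk') hk (sub_eq_zero.1 h))
        have e : ∏ k' ∈ s.erase k, (-t k + t k') = ∏ k' ∈ s.erase k, (t k' - t k) :=
          Finset.prod_congr rfl fun _ _ => by ring
        rw [e, hc]
        simp only
        rw [div_mul_cancel₀ _ hne]
        congr 1; ring
      · intro k' hk' hne
        rw [Finset.prod_eq_zero (i := k) (by simp [hk, hne.symm]) (by ring), mul_zero]
      · intro h; exact absurd hk h
  have h2 : ∀ P Q : ℂ, P ≠ 0 → ∑ k ∈ s, c k * ∏ k' ∈ s.erase k, (t k' * P + Q) =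
      (α * P + β * Q) ^ (s.card - 1) := by
    intro P Q hP
    have := congrArg (Polynomial.eval (Q / P)) h1
    simp only [Polynomial.eval_finset_sum, Polynomial.eval_mul, Polynomial.eval_C,
      Polynomial.eval_prod, Polynomial.eval_add, Polynomial.eval_X, Polynomial.eval_pow] at this
    have e : α * P + β * Q = (β * (Q / P) + α) * P := by field_simp; ring
    rw [e, mul_pow, ← this, Finset.sum_mul]
    refine Finset.sum_congr rfl fun k hk => ?_
    rw [mul_assoc, ← Finset.card_erase_of_mem hk, ← Finset.prod_const, ← Finset.prod_mul_distrib]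
    congr 1
    refine Finset.prod_congr rfl fun _ _ => by field_simp; ring
  have h3 : (∑ k ∈ s, c k • ∏ k' ∈ s.erase k, (t k' • X 0 + X 1) : MvPolynomial (Fin 2) ℂ) =
      (α • X 0 + β • X 1) ^ (s.card - 1) := by
    refine mul_left_cancel₀ (X_ne_zero 0) (MvPolynomial.funext fun x => ?_)
    by_cases h0 : x 0 = 0
    · simp [h0]
    · simp only [map_mul, eval_X, map_sum, smul_eval, map_prod, map_add, map_pow]
      rw [h2 _ _ h0]
  refine ⟨c, fun S _ _ P Q => ?_⟩
  have := congrArg (aeval ![P, Q] : MvPolynomial (Fin 2) ℂ →ₐ[ℂ] S) h3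
  simpa using this

section

variable {ι R : Type} [Fintype ι] [DecidableEq ι] [CommRing R] [Algebra ℂ R]

lemma form_lin (a b : ℂ) (p q : ι → R) :
    form (fun j => a • p j + b • q j) = a • form p + b • form q := by
  simp only [form, Finset.smul_sum, ← Finset.sum_add_distrib]
  refine Finset.sum_congr rfl fun j _ => ?_
  simp [Algebra.smul_def, add_mul, mul_assoc]

lemma one_sided (s : Finset ι) (k₀ : ι) (hk₀ : k₀ ∈ s) (t c : ι → ℂ) (α β : ℂ)
    (hc : ∀ (P Q : MvPolynomial ι R),
      ∑ k ∈ s, c k • ∏ k' ∈ s.erase k, (t k' • P + Q) = (α • P + β • Q) ^ (s.card - 1))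
    (X : Matrix ι ι R) (p q η : ι → R) (hX : ∀ k ∈ s, ∀ j, X k j = t k • p j + q j) :
    ∑ k ∈ s, c k • (X.updateRow k η).permanent = (Matrix.of fun a b =>
      if a = k₀ then η b else if a ∈ s then α • p b + β • q b else X a b).permanent := by
  have hsplit : ∀ (k : ι) (_ : k ∈ s) (Y : Matrix ι ι R), ∏ i, form (Y i) =
      form (Y k) * (∏ i ∈ s.erase k, form (Y i)) * ∏ i ∈ sᶜ, form (Y i) := by
    intro k hk Y
    rw [Finset.mul_prod_erase s (fun i => form (Y i)) hk, Finset.prod_mul_prod_compl]
  have e1 : ∀ k ∈ s, ∏ i, form (X.updateRow k η i) =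
      form η * (∏ k' ∈ s.erase k, (t k' • form p + form q)) * ∏ i ∈ sᶜ, form (X i) := by
    intro k hk
    rw [hsplit k hk, updateRow_self]
    congr 1
    · congr 1
      refine Finset.prod_congr rfl fun k' hk' => ?_
      rw [updateRow_ne (Finset.ne_of_mem_erase hk')]
      have := form_lin (t k') 1 p q
      simp only [one_smul] at this
      rw [← this]
      congr 1
      funext j
      exact hX k' (Finset.mem_of_mem_erase hk') j
    · refine Finset.prod_congr rfl fun i hi => ?_
      rw [updateRow_ne]
      rintro rfl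
      exact (Finset.mem_compl.1 hi) hk
  rw [permanent_eq_coeff, hsplit k₀ hk₀]
  have e2 : ∏ i ∈ s.erase k₀, form ((Matrix.of fun a b =>
      if a = k₀ then η b else if a ∈ s then α • p b + β • q b else X a b) i) =
      (α • form p + β • form q) ^ (s.card - 1) := by
    rw [← Finset.card_erase_of_mem hk₀, ← Finset.prod_const]
    refine Finset.prod_congr rfl fun i hi => ?_
    rw [← form_lin]
    congr 1
    funext j
    simp [Finset.ne_of_mem_erase hi, Finset.mem_of_mem_erase hi]
  have e3 : ∏ i ∈ sᶜ, form ((Matrix.of fun a b =>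
      if a = k₀ then η b else if a ∈ s then α • p b + β • q b else X a b) i) =
      ∏ i ∈ sᶜ, form (X i) := by
    refine Finset.prod_congr rfl fun i hi => ?_
    have h1 : i ∉ s := Finset.mem_compl.1 hi
    have h2 : i ≠ k₀ := fun h => h1 (h ▸ hk₀)
    congr 1
    funext j
    simp [h1, h2]
  have e4 : form ((Matrix.of fun a b =>
      if a = k₀ then η b else if a ∈ s then α • p b + β • q b else X a b) k₀) = form η := by
    congr 1
    funext j
    simp
  rw [e2, e3, e4, ← hc, Finset.mul_sum, Finset.sum_mul, coeff_sum]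
  refine Finset.sum_congr rfl fun k hk => ?_
  rw [permanent_eq_coeff, e1 k hk, mul_smul_comm, smul_mul_assoc, coeff_smul]

lemma two_sided (s : Finset ι) (k₀ : ι) (hk₀ : k₀ ∈ s) (t : ι → ℂ) (ht : Set.InjOn t s)
    (α β α' β' : ℂ) : ∃ W : Matrix ι ι ℂ, ∀ (X : Matrix ι ι R) (p q p' q' : ι → R),
      (∀ k ∈ s, ∀ j, X k j = t k • p j + q j) → (∀ l ∈ s, ∀ i, X i l = t l • p' i + q' i) →
      (∀ j ∈ s, p j = 0 ∧ q j = 0 ∧ p' j = 0 ∧ q' j = 0) →
      dperm X (W.map (algebraMap ℂ R)) = (Matrix.of fun a b =>
        if a = k₀ ∨ b = k₀ then (if a = k₀ ∧ b = k₀ then 1 else 0)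
        else if a ∈ s then α • p b + β • q b
        else if b ∈ s then α' • p' a + β' • q' a else X a b).permanent := by
  obtain ⟨c, hc⟩ := lagrange_hom s ⟨k₀, hk₀⟩ t ht α β
  obtain ⟨c', hc'⟩ := lagrange_hom s ⟨k₀, hk₀⟩ t ht α' β'
  refine ⟨Matrix.of fun a b => (if a ∈ s then c a else 0) * (if b ∈ s then c' b else 0),
    fun X p q p' q' hr hcl hz => ?_⟩
  have sumrows : ∀ (Y : Matrix ι ι R) (d : ι → ℂ) (η : ι → R),
      dperm Y (Matrix.of fun a b => algebraMap ℂ R (if a ∈ s then d a else 0) * η b) =
        ∑ k ∈ s, d k • (Y.updateRow k η).permanent := by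
    intro Y d η
    rw [dperm_rows]
    have : ∀ i, (Y.updateRow i ((Matrix.of fun a b =>
        algebraMap ℂ R (if a ∈ s then d a else 0) * η b) i)).permanent =
        if i ∈ s then d i • (Y.updateRow i η).permanent else 0 := by
      intro i
      have e : (Matrix.of fun a b => algebraMap ℂ R (if a ∈ s then d a else 0) * η b) i =
          algebraMap ℂ R (if i ∈ s then d i else 0) • η := by
        funext b; simp
      rw [e, permanent_updateRow_smul]
      split_ifs <;> simp [Algebra.smul_def]
    simp only [this]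
    rw [← Finset.sum_filter]
    simp
  set η : ι → R := fun b => algebraMap ℂ R (if b ∈ s then c' b else 0) with hη
  have s1 : dperm X ((Matrix.of fun a b =>
      (if a ∈ s then c a else 0) * (if b ∈ s then c' b else 0)).map (algebraMap ℂ R)) =
      ∑ k ∈ s, c k • (X.updateRow k η).permanent := by
    rw [← sumrows]
    congr 1
    ext a b
    simp only [map_apply, of_apply, map_mul, hη]
  rw [s1, one_sided s k₀ hk₀ t c α β (hc _) X p q η hr]
  set X₁ : Matrix ι ι R := Matrix.of fun a b =>
    if a = k₀ then η b else if a ∈ s then α • p b + β • q b else X a b with hX₁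
  set e₀ : ι → R := fun a => if a = k₀ then 1 else 0 with he₀
  have s2 : X₁.permanent = dperm (X₁.updateRow k₀ 0) (Matrix.of fun a b => e₀ a * η b) := by
    rw [dperm_rows, Finset.sum_eq_single k₀]
    · congr 1
      ext a b
      by_cases ha : a = k₀
      · subst ha; simp [hX₁, he₀]
      · simp [updateRow_ne ha]
    · intro a _ ha
      have e : (Matrix.of fun a b => e₀ a * η b) a = (0 : R) • η := by
        funext b; simp [he₀, ha]
      rw [e, permanent_updateRow_smul, zero_mul]
    · simp
  have s3 : (Matrix.of fun a b => e₀ a * η b)ᵀ =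
      Matrix.of fun a b => algebraMap ℂ R (if a ∈ s then c' a else 0) * e₀ b := by
    ext a b; simp only [transpose_apply, of_apply, hη, mul_comm]
  rw [s2, ← dperm_transpose, s3, sumrows,
    one_sided s k₀ hk₀ t c' α' β' (hc' _) _ p' q' e₀ ?_, ← permanent_transpose]
  · congr 1
    ext a b
    by_cases ha : a = k₀
    · subst ha
      by_cases hb : b = a
      · subst hb; simp [he₀]
      · by_cases hbs : b ∈ s <;> simp [hb, hbs, hz a hk₀]
    · by_cases hb : b = k₀
      · subst hb; simp [he₀, ha]
      · by_cases has : a ∈ s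
        · by_cases hbs : b ∈ s
          · simp [ha, hb, has, hbs, hz a has, hz b hbs]
          · simp [ha, hb, has, hbs, updateRow_ne ha, hX₁]
        · by_cases hbs : b ∈ s
          · simp [ha, hb, has, hbs]
          · simp [ha, hb, has, hbs, updateRow_ne ha, hX₁]
  · intro l hl i
    by_cases hi : i = k₀
    · subst hi; simp [hz i hk₀]
    · by_cases his : i ∈ s
      · simp [updateRow_ne hi, hX₁, hi, his, hz i his, hz l hl]
      · simp [updateRow_ne hi, hX₁, hi, his, hcl l hl]

end

/-- The generic permanent. -/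
noncomputable def permPoly (ι : Type) [Fintype ι] [DecidableEq ι] : MvPolynomial (ι × ι) ℂ :=
  (Matrix.of fun i j => X (i, j)).permanent

lemma aeval_permPoly {ι R : Type} [Fintype ι] [DecidableEq ι] [CommRing R] [Algebra ℂ R]
    (Y : ι × ι → R) : aeval Y (permPoly ι) = (Matrix.of fun i j => Y (i, j)).permanent := by
  simp [permPoly, permanent]

lemma aeval_dirD_permPoly {ι R : Type} [Fintype ι] [DecidableEq ι] [CommRing R] [Algebra ℂ R]
    (Y : ι × ι → R) (W : ι × ι → ℂ) : aeval Y (dirD W (permPoly ι)) =
      dperm (Matrix.of fun i j => Y (i, j))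
        ((Matrix.of fun i j => W (i, j)).map (algebraMap ℂ R)) := by
  simp [permPoly, permanent, dperm, derivation_prod]

end Pool.Agent.Lib.MP_8a52c3_lc.PermDet
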