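import Pool.Agent.Lib.MP_8a52c3_lc.PermDet.Block
import Pool.Agent.Lib.MP_8a52c3_lc.PermDet.Assemble

/-! Initial forms of bordered permanents for general valuations. -/

namespace Pool.Agent.Lib.MP_8a52c3_lc.PermDet

open MvPolynomial Matrix Finset Filter Topology

/-- The bordered matrix with general valuations. -/
noncomputable def Xm {A I σ : Type} [DecidableEq A] (t : ℂ) (A₀ : Finset A) (κ : A → ℂ)
    (r₁ r₂ c₁ c₂ : I → ℤ) (ξ : I → I → ℤ) (Y : I → I → MvPolynomial σ ℂ) :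
    Matrix (A ⊕ I) (A ⊕ I) (MvPolynomial σ ℂ)
  | Sum.inl a, Sum.inl a' => if a = a' ∧ a ∉ A₀ then 1 else 0
  | Sum.inl a, Sum.inr c => if a ∈ A₀ then C (uent t (κ a) (c₁ c) (c₂ c)) else 0
  | Sum.inr i, Sum.inl a => if a ∈ A₀ then C (uent t (κ a) (r₁ i) (r₂ i)) else 0
  | Sum.inr i, Sum.inr c => C (t ^ ξ i c) * Y i c

/-- The normalised bordered matrix with general valuations. -/
noncomputable def Nm {A I σ : Type} [DecidableEq A] (A₀ : Finset A) (κ : A → ℂ)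
    (r₁ r₂ c₁ c₂ α γ : I → ℤ) (ξ : I → I → ℤ) (Y : I → I → MvPolynomial σ ℂ) :
    Matrix (A ⊕ I) (A ⊕ I) (MvPolynomial (Unit ⊕ σ) ℂ)
  | Sum.inl a, Sum.inl a' => if a = a' ∧ a ∉ A₀ then 1 else 0
  | Sum.inl a, Sum.inr c => if a ∈ A₀ then nent σ (κ a) (c₁ c) (c₂ c) (γ c) else 0
  | Sum.inr i, Sum.inl a => if a ∈ A₀ then nent σ (κ a) (r₁ i) (r₂ i) (α i) else 0
  | Sum.inr i, Sum.inr c => tm σ (ξ i c - α i - γ c) * rename Sum.inr (Y i c)

lemma Nm_ne {A I σ : Type} [DecidableEq A]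
    (A₀ : Finset A) (κ : A → ℂ) (r₁ r₂ c₁ c₂ α γ : I → ℤ) (ξ : I → I → ℤ)
    (Y : I → I → MvPolynomial σ ℂ) {t : ℂ} (ht : t ≠ 0)
    (hαr' : ∀ i, α i ≤ r₁ i ∧ α i ≤ r₂ i) (hγc' : ∀ c, γ c ≤ c₁ c ∧ γ c ≤ c₂ c)
    (hY0 : ∀ i c, 0 ≤ ξ i c - α i - γ c) :
    (Nm A₀ κ r₁ r₂ c₁ c₂ α γ ξ Y).map (spec fun _ => t) =
      Matrix.of fun a b => C (t ^ (-(Sum.elim (fun _ => 0) α a : ℤ))) *
        C (t ^ (-(Sum.elim (fun _ => 0) γ b : ℤ))) * Xm t A₀ κ r₁ r₂ c₁ c₂ ξ Y a b := by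
  ext1 a b
  rcases a with a | i <;> rcases b with b | c
  · simp only [map_apply, Nm, Xm, of_apply]
    split_ifs <;> simp
  · simp only [map_apply, Nm, Xm, of_apply]
    split_ifs
    · rw [spec_nent ht _ (hγc' c).1 (hγc' c).2]; simp
    · simp
  · simp only [map_apply, Nm, Xm, of_apply]
    split_ifs
    · rw [spec_nent ht _ (hαr' i).1 (hαr' i).2]; simp
    · simp
  · simp only [map_apply, Nm, Xm, of_apply, map_mul, spec_rename, spec_tm t (hY0 i c),
      Sum.elim_inr]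
    rw [sub_eq_add_neg, sub_eq_add_neg, zpow_add₀ ht, zpow_add₀ ht, map_mul, map_mul]
    ring

/-- The initial form of a bordered permanent is a nonzero multiple of the permanent of the
matrix of tight entries. -/
theorem trop2 {A I J σ : Type} [Fintype A] [Fintype I] [Fintype J] [DecidableEq A] [DecidableEq I]
    [DecidableEq J] (A₀ : Finset A) (κ : A → ℂ) (r₁ r₂ c₁ c₂ : I → ℤ) (ξ : I → I → ℤ)
    (Y : I → I → MvPolynomial σ ℂ) (ρ γ : J → I) (hρ : Function.Injective ρ)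
    (hγ : Function.Injective γ) (u v : I → ℤ) (μ : ℤ) (hμ : ∀ i c, |ξ i c| + |u i| + |v c| < μ)
    (hS : ∀ j, μ ≤ r₁ (ρ j) ∧ μ ≤ r₂ (ρ j))
    (hS0 : ∀ i ∉ Set.range ρ, min (r₁ i) (r₂ i) ≤ -μ ∧ r₁ i ≠ r₂ i)
    (hS' : ∀ j, μ ≤ c₁ (γ j) ∧ μ ≤ c₂ (γ j))
    (hS0' : ∀ i ∉ Set.range γ, min (c₁ i) (c₂ i) ≤ -μ ∧ c₁ i ≠ c₂ i)
    (huv : ∀ j j', u (ρ j) + v (γ j') ≤ ξ (ρ j) (γ j'))
    (hc : A₀.card + Fintype.card J = Fintype.card I) :
    ∃ (P : MvPolynomial (Unit ⊕ σ) ℂ) (E : ℤ) (n : ℕ), n ≠ 0 ∧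
      spec (fun _ => 0) P = n • (Matrix.of fun j j' =>
        if ξ (ρ j) (γ j') = u (ρ j) + v (γ j') then Y (ρ j) (γ j') else 0).permanent ∧
      ∀ t : ℂ, t ≠ 0 →
        spec (fun _ => t) P = C (t ^ E) * (Xm t A₀ κ r₁ r₂ c₁ c₂ ξ Y).permanent := by
  classical
  set α : I → ℤ := fun i => if i ∈ Set.range ρ then u i else min (r₁ i) (r₂ i) with hα
  set β : I → ℤ := fun c => if c ∈ Set.range γ then v c else min (c₁ c) (c₂ c) with hβ
  have hb : ∀ i c, -μ < ξ i c - u i ∧ -μ < ξ i c - v c ∧ -μ < ξ i c ∧ u i < μ ∧ v c < μ ∧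
      0 < μ := by
    intro i c
    have h := hμ i c
    have := neg_abs_le (ξ i c)
    have := le_abs_self (u i)
    have := le_abs_self (v c)
    have := abs_nonneg (ξ i c)
    have := abs_nonneg (u i)
    have := abs_nonneg (v c)
    omega
  have hαρ : ∀ j, α (ρ j) = u (ρ j) := fun j => if_pos ⟨j, rfl⟩
  have hβγ : ∀ j, β (γ j) = v (γ j) := fun j => if_pos ⟨j, rfl⟩
  have hαr : ∀ j, α (ρ j) < r₁ (ρ j) ∧ α (ρ j) < r₂ (ρ j) := by
    intro j
    have := hb (ρ j) (ρ j)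
    have := hS j
    rw [hαρ]; omega
  have hβc : ∀ j, β (γ j) < c₁ (γ j) ∧ β (γ j) < c₂ (γ j) := by
    intro j
    have := hb (γ j) (γ j)
    have := hS' j
    rw [hβγ]; omega
  have hα0 : ∀ i ∉ Set.range ρ, α i = min (r₁ i) (r₂ i) := fun i hi => if_neg hi
  have hβ0 : ∀ i ∉ Set.range γ, β i = min (c₁ i) (c₂ i) := fun i hi => if_neg hi
  have hαr' : ∀ i, α i ≤ r₁ i ∧ α i ≤ r₂ i := by
    intro i
    by_cases hi : i ∈ Set.range ρ
    · obtain ⟨j, rfl⟩ := hi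
      exact ⟨(hαr j).1.le, (hαr j).2.le⟩
    · simp [hα0 i hi]
  have hβc' : ∀ c, β c ≤ c₁ c ∧ β c ≤ c₂ c := by
    intro i
    by_cases hi : i ∈ Set.range γ
    · obtain ⟨j, rfl⟩ := hi
      exact ⟨(hβc j).1.le, (hβc j).2.le⟩
    · simp [hβ0 i hi]
  have hY1 : ∀ i c, ¬ (i ∈ Set.range ρ ∧ c ∈ Set.range γ) → 0 < ξ i c - α i - β c := by
    intro i c h
    have h2 := hb i c
    simp only [hα, hβ]
    by_cases hi : i ∈ Set.range ρ
    · have hc' : c ∉ Set.range γ := fun hc' => h ⟨hi, hc'⟩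
      have := (hS0' c hc').1
      rw [if_pos hi, if_neg hc']; omega
    · have := (hS0 i hi).1
      by_cases hc' : c ∈ Set.range γ
      · rw [if_neg hi, if_pos hc']; omega
      · have := (hS0' c hc').1
        rw [if_neg hi, if_neg hc']; omega
  have hY0 : ∀ i c, 0 ≤ ξ i c - α i - β c := by
    intro i c
    by_cases h : i ∈ Set.range ρ ∧ c ∈ Set.range γ
    · obtain ⟨⟨j, rfl⟩, ⟨j', rfl⟩⟩ := h
      have := huv j j'
      rw [hαρ, hβγ]; omega
    · exact (hY1 i c h).le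
  set ι : J → ℕ := fun j => Fintype.equivFin J j with hι
  have hιinj : Function.Injective ι := fun j j' h => (Fintype.equivFin J).injective (Fin.ext h)
  set Jρ : I → ℕ := Function.extend ρ ι 0 with hJρ
  set Jγ : I → ℕ := Function.extend γ ι 0 with hJγ
  have hJρ' : ∀ j, Jρ (ρ j) = ι j := fun j => hρ.extend_apply _ _ _
  have hJγ' : ∀ j, Jγ (γ j) = ι j := fun j => hγ.extend_apply _ _ _
  have hinj : ∀ (f : J → I) (K : I → ℕ), (∀ j, K (f j) = ι j) →
      Set.InjOn K (univ.image f : Finset I) ∧ (univ.image f).image K = univ.image ι := by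
    intro f K hK
    refine ⟨fun i hi i' hi' h => ?_, ?_⟩
    · obtain ⟨j, -, rfl⟩ := mem_image.1 hi
      obtain ⟨j', -, rfl⟩ := mem_image.1 hi'
      rw [hK, hK] at h
      rw [hιinj h]
    · rw [image_image]
      exact congrArg (univ.image ·) (funext hK)
  obtain ⟨n, hn, hperm⟩ := permanent_mask (R := MvPolynomial σ ℂ) (clsR A₀ (univ.image ρ) Jρ)
    (clsC A₀ (univ.image γ) Jγ) (fun _ => 1)
    (cls_card A₀ _ _ Jρ Jγ (hinj ρ Jρ hJρ').1 (hinj γ Jγ hJγ').1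
      ((hinj ρ Jρ hJρ').2.trans (hinj γ Jγ hJγ').2.symm)
      (by rw [card_image_of_injective _ hρ, card_univ, hc]))
  have hmem : ∀ (f : J → I) (i : I), i ∈ univ.image f ↔ i ∈ Set.range f := by simp
  have hout : ∀ (f : J → I) (i : I), (Sum.inr i : A ⊕ I) ∉ Set.range (Sum.inr ∘ f) →
      i ∉ Set.range f := fun f i h ⟨j, hj⟩ => h ⟨j, congrArg Sum.inr hj⟩
  refine ⟨(Nm A₀ κ r₁ r₂ c₁ c₂ α β ξ Y).permanent, -∑ i, α i - ∑ c, β c, n, hn, ?_, ?_⟩
  · rw [permanent_map, permanent_factor _ (Matrix.of fun a b => if clsR A₀ (univ.image ρ) Jρ a =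
      clsC A₀ (univ.image γ) Jγ b then (1 : MvPolynomial σ ℂ) else 0) (Sum.inr ∘ ρ) (Sum.inr ∘ γ)
      (Sum.inr_injective.comp hρ) (Sum.inr_injective.comp hγ), hperm]
    · rw [Finset.prod_const_one, mul_smul_comm, mul_one]
      congr 2
      ext1 j j'
      simp only [of_apply, map_apply, Function.comp_apply, Nm, map_mul, spec_rename,
        spec_tm_zero (hY0 _ _)]
      rw [hαρ, hβγ]
      by_cases h : ξ (ρ j) (γ j') = u (ρ j) + v (γ j')
      · rw [if_pos h, if_pos (by omega), one_mul]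
      · rw [if_neg h, if_neg (by omega), zero_mul]
    · rintro (a | i) ha j
      · by_cases h : a ∈ A₀ <;> simp [Nm, h, spec_nent_pos _ (hβc j).1 (hβc j).2]
      · simp only [map_apply, Function.comp_apply, Nm, map_mul, spec_tm_zero (hY0 _ _)]
        rw [if_neg (hY1 _ _ fun h => hout ρ i ha h.1).ne', zero_mul]
    · rintro (a | i) ha j
      · by_cases h : a ∈ A₀ <;> simp [clsR, clsC, h]
      · have := hout ρ i ha
        simp only [of_apply, Function.comp_apply, clsR, clsC, hmem, if_neg this,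
          if_pos (Set.mem_range_self j)]
        simp
    · rintro (a | i) ha (b | c) hc'
      · by_cases hab : a = b
        · subst hab
          by_cases h : a ∈ A₀ <;> simp [Nm, clsR, clsC, h]
        · by_cases h : a ∈ A₀ <;> by_cases h' : b ∈ A₀ <;> simp [Nm, clsR, clsC, h, h', hab]
      · have h1 := hout γ c hc'
        simp only [map_apply, of_apply, Nm, clsR, clsC, hmem, if_neg h1, hβ0 c h1]
        by_cases h : a ∈ A₀ <;> simp [h, spec_nent_min _ (hS0' c h1).2]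
      · have h1 := hout ρ i ha
        simp only [map_apply, of_apply, Nm, clsR, clsC, hmem, if_neg h1, hα0 i h1]
        by_cases h : b ∈ A₀ <;> simp [h, spec_nent_min _ (hS0 i h1).2]
      · have h1 := hout ρ i ha
        have h2 := hout γ c hc'
        simp only [map_apply, of_apply, Nm, map_mul, spec_tm_zero (hY0 _ _), clsR, clsC, hmem,
          if_neg h1, if_neg h2]
        rw [if_neg (hY1 _ _ fun h => h1 h.1).ne', zero_mul]
        simp
    · intro j j'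
      simp only [of_apply, Function.comp_apply, clsR, clsC, hmem, if_pos (Set.mem_range_self _),
        hJρ', hJγ', Sum.inr.injEq, hιinj.eq_iff]
  · intro t ht
    have hprod : ∀ f : I → ℤ, ∏ a : A ⊕ I, (C (t ^ (-(Sum.elim (fun _ => 0) f a : ℤ))) :
        MvPolynomial σ ℂ) = C (t ^ (-∑ i, f i)) := by
      intro f
      rw [Fintype.prod_sum_type, ← Finset.sum_neg_distrib, zpow_finsum ht, map_prod]
      simp
    rw [permanent_map, sub_eq_add_neg, zpow_add₀ ht, map_mul, ← hprod, ← hprod,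
      ← permanent_scale, Nm_ne A₀ κ r₁ r₂ c₁ c₂ α β ξ Y ht hαr' hβc' hY0]

/-- The bordered matrix at row time `k` and column time `L`. -/
noncomputable def Xt2 {A I σ : Type} [DecidableEq A] (μ : ℤ) (b d b' d' : I → ℤ) (ξ : I → I → ℤ)
    (Y : I → I → MvPolynomial σ ℂ) (t : ℂ) (A₀ : Finset A) (κ : A → ℂ) (k L : ℤ) :
    Matrix (A ⊕ I) (A ⊕ I) (MvPolynomial σ ℂ) :=
  Xm t A₀ κ (fun i => tent₁ μ (d i) k) (fun i => tent₂ μ (b i) k)
    (fun c => tent₁ μ (d' c) L) (fun c => tent₂ μ (b' c) L) ξ Y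

lemma dperm_Xt2 {A I σ : Type} [Fintype A] [Fintype I] [DecidableEq A] [DecidableEq I]
    (μ : ℤ) (b d b' d' : I → ℤ) (ξ : I → I → ℤ) (Y : I → I → MvPolynomial σ ℂ)
    {t : ℂ} (ht : t ≠ 0) (A₁ : Finset A) (κ : A → ℂ) (hκ : Function.Injective κ) (a₀ : A)
    (ha₀ : a₀ ∈ A₁) (k₀ k L₀ L : ℤ) :
    ∃ W : Matrix (A ⊕ I) (A ⊕ I) ℂ,
      dperm (Xt2 μ b d b' d' ξ Y t A₁ κ k₀ L₀) (W.map (algebraMap ℂ _)) =
        (Xt2 μ b d b' d' ξ Y t (A₁.erase a₀) (fun _ => 0) k L).permanent := by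
  obtain ⟨W, hW⟩ := two_sided (R := MvPolynomial σ ℂ) (A₁.map Function.Embedding.inl)
    (Sum.inl a₀ : A ⊕ I) (by simpa using ha₀) (Sum.elim (fun a => 1 + κ a * t) fun _ => 0)
    (by
      intro u hu v hv huv
      obtain ⟨a, -, rfl⟩ := mem_map.1 hu
      obtain ⟨a', -, rfl⟩ := mem_map.1 hv
      simp only [Function.Embedding.inl_apply, Sum.elim_inl, add_right_inj] at huv
      rw [hκ (mul_right_cancel₀ ht huv)])
    (t ^ (2 * μ * (L₀ - L))) (t ^ (2 * μ * (L - L₀))) (t ^ (2 * μ * (k₀ - k))) (t ^ (2 * μ * (k - k₀)))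
  refine ⟨W, ?_⟩
  have z1 : ∀ (u v e : ℤ), (t ^ (2 * μ * (u - v))) • (C (t ^ tent₁ μ e u) : MvPolynomial σ ℂ) =
      C (t ^ tent₁ μ e v) := by
    intro u v e
    rw [smul_eq_C_mul, ← map_mul, ← zpow_add₀ ht]
    congr 2
    unfold tent₁; ring
  have z2 : ∀ (u v e : ℤ), (t ^ (2 * μ * (v - u))) • (C (t ^ tent₂ μ e u) : MvPolynomial σ ℂ) =
      C (t ^ tent₂ μ e v) := by
    intro u v e
    rw [smul_eq_C_mul, ← map_mul, ← zpow_add₀ ht]
    congr 2
    unfold tent₂; ring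
  rw [hW _ (Sum.elim (fun _ => 0) fun c => C (t ^ tent₁ μ (d' c) L₀))
    (Sum.elim (fun _ => 0) fun c => C (t ^ tent₂ μ (b' c) L₀))
    (Sum.elim (fun _ => 0) fun i => C (t ^ tent₁ μ (d i) k₀))
    (Sum.elim (fun _ => 0) fun i => C (t ^ tent₂ μ (b i) k₀))]
  · congr 1
    ext1 u v
    rcases u with a | i <;> rcases v with a' | c
    · by_cases h1 : a = a₀
      · subst h1
        by_cases h2 : a' = a
        · subst h2; simp [Xt2, Xm]
        · simp [Xt2, Xm, h2, Ne.symm h2]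
      · by_cases h2 : a' = a₀
        · subst h2; simp [Xt2, Xm, h1]
        · by_cases h3 : a ∈ A₁
          · simp [Xt2, Xm, h1, h2, h3]
          · by_cases h4 : a' ∈ A₁
            · have : a ≠ a' := fun h => h3 (h ▸ h4)
              simp [Xt2, Xm, h1, h2, h3, h4, this]
            · simp [Xt2, Xm, h1, h2, h3, h4]
    · by_cases h1 : a = a₀
      · subst h1; simp [Xt2, Xm]
      · by_cases h3 : a ∈ A₁
        · simp [Xt2, Xm, h1, h3, z1, z2, uent, -eq_intCast, -map_zpow₀]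
        · simp [Xt2, Xm, h1, h3]
    · by_cases h1 : a' = a₀
      · subst h1; simp [Xt2, Xm]
      · by_cases h3 : a' ∈ A₁
        · simp [Xt2, Xm, h1, h3, z1, z2, uent, -eq_intCast, -map_zpow₀]
        · simp [Xt2, Xm, h1, h3]
    · simp [Xt2, Xm]
  · intro u hu v
    obtain ⟨a, ha, rfl⟩ := mem_map.1 hu
    rcases v with a' | c
    · simp [Xt2, Xm, ha]
    · simp [Xt2, Xm, ha, uent, smul_eq_C_mul]
  · intro u hu v
    obtain ⟨a, ha, rfl⟩ := mem_map.1 hu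
    rcases v with a' | c
    · have : ¬ (a' = a ∧ a' ∉ A₁) := fun h => h.2 (h.1 ▸ ha)
      simp [Xt2, Xm, this]
    · simp [Xt2, Xm, ha, uent, smul_eq_C_mul]
  · intro u hu
    obtain ⟨a, ha, rfl⟩ := mem_map.1 hu
    simp

lemma aff_Xt2 {A I σ : Type} [DecidableEq A] (μ : ℤ) (b d b' d' : I → ℤ) (ξ : I → I → ℤ)
    (Y : I → I → MvPolynomial σ ℂ) (hY : ∀ i j, Aff (Y i j)) (t : ℂ) (A₁ : Finset A) (κ : A → ℂ)
    (k L : ℤ) (u v) : Aff (Xt2 μ b d b' d' ξ Y t A₁ κ k L u v) := by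
  have h0 : Aff (0 : MvPolynomial σ ℂ) := Submodule.zero_mem _
  rcases u with a | i <;> rcases v with a' | c <;> simp only [Xt2, Xm]
  · split_ifs
    exacts [aff_one, h0]
  · split_ifs
    exacts [aff_C _, h0]
  · split_ifs
    exacts [aff_C _, h0]
  · exact (hY _ _).C_mul _

/-- At row time `k` and column time `L` the alive rows and columns number `w`, and the permanent
of the tight alive entries is `P`. -/
def Init {I I' σ : Type} (b d : I → ℤ) (b' d' : I' → ℤ) (ξ : I → I' → ℤ)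
    (Y : I → I' → MvPolynomial σ ℂ) (k L : ℤ) (w : ℕ) (P : MvPolynomial σ ℂ) : Prop :=
  ∃ (J : Type) (_ : Fintype J) (_ : DecidableEq J) (ρ : J → I) (γ : J → I') (u : I → ℤ)
    (v : I' → ℤ), Function.Injective ρ ∧ Function.Injective γ ∧ Fintype.card J = w ∧
    (∀ i, (b i ≤ k ∧ k < d i) ↔ i ∈ Set.range ρ) ∧
    (∀ c, (b' c ≤ L ∧ L < d' c) ↔ c ∈ Set.range γ) ∧
    (∀ j j', u (ρ j) + v (γ j') ≤ ξ (ρ j) (γ j')) ∧
    (Matrix.of fun j j' =>
      if ξ (ρ j) (γ j') = u (ρ j) + v (γ j') then Y (ρ j) (γ j') else 0).permanent = P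

lemma Init.trop {A I σ : Type} [Fintype A] [Fintype I] [DecidableEq A] [DecidableEq I]
    {b d b' d' : I → ℤ} {ξ : I → I → ℤ} {Y : I → I → MvPolynomial σ ℂ} {k L : ℤ} {w : ℕ}
    {Q : MvPolynomial σ ℂ} (h : Init b d b' d' ξ Y k L w Q) (hbd : ∀ i, b i ≤ d i)
    (hbd' : ∀ i, b' i ≤ d' i) (A₀ : Finset A) (κ : A → ℂ) (hc : A₀.card + w = Fintype.card I) :
    ∀ᶠ μ in atTop, ∃ (P : MvPolynomial (Unit ⊕ σ) ℂ) (E : ℤ) (n : ℕ), n ≠ 0 ∧
      spec (fun _ => 0) P = n • Q ∧ ∀ t : ℂ, t ≠ 0 →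
        spec (fun _ => t) P = C (t ^ E) * (Xt2 μ b d b' d' ξ Y t A₀ κ k L).permanent := by
  obtain ⟨J, _, _, ρ, γ, u, v, hρ, hγ, rfl, hr, hc', huv, rfl⟩ := h
  have h1 : ∀ᶠ μ in atTop, ∀ ic : I × I, |ξ ic.1 ic.2| + |u ic.1| + |v ic.2| < μ :=
    Filter.eventually_all.2 fun ic => eventually_gt_atTop _
  filter_upwards [h1, eventually_gt_atTop 0] with μ hμ hμ0
  exact trop2 A₀ κ _ _ _ _ ξ Y ρ γ hρ hγ u v μ (fun i c => hμ (i, c))
    (fun j => tent_alive hμ0 ((hr _).2 ⟨j, rfl⟩))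
    (fun i hi => tent_dead hμ0 (hbd i) fun h => hi ((hr _).1 h))
    (fun j => tent_alive hμ0 ((hc' _).2 ⟨j, rfl⟩))
    (fun i hi => tent_dead hμ0 (hbd' i) fun h => hi ((hc' _).1 h)) huv hc

/-- An interval design yields a polar system of the permanent with as many nondegenerate
solutions as its initial system. -/
theorem assemble2 {A I V : Type} [Fintype A] [Fintype I] [Fintype V] [DecidableEq A]
    [DecidableEq I] [DecidableEq V] (w : ℕ) (b d b' d' : I → ℤ) (ξ : I → I → ℤ)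
    (Y : I → I → MvPolynomial (Option V) ℂ) (hY : ∀ i j, Aff (Y i j))
    (hbd : ∀ i, b i ≤ d i) (hbd' : ∀ i, b' i ≤ d' i) (hwI : w + 1 ≤ Fintype.card I)
    (hA : Fintype.card I ≤ Fintype.card A + w)
    (k₀ L₀ : ℤ) (h₀ : Init b d b' d' ξ Y k₀ L₀ w (X none))
    (k L : Option V → ℤ) (F : Option V → MvPolynomial (Option V) ℂ)
    (hF : ∀ v, Init b d b' d' ξ Y (k v) (L v) (w + 1) (F v)) (Z : Finset (Option V → ℂ))
    (hZ : ∀ z ∈ Z, Good (fun j : Option V => j.elim (X none) fun v => F (some v)) (F none) z) :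
    ∃ (Xt : (A ⊕ I) × (A ⊕ I) → MvPolynomial (Option V) ℂ) (W : V → (A ⊕ I) × (A ⊕ I) → ℂ)
      (W₀ : (A ⊕ I) × (A ⊕ I) → ℂ) (Z' : Finset (Option V → ℂ)), (∀ a, Aff (Xt a)) ∧
      Z'.card = Z.card ∧ ∀ z ∈ Z', Good (sys Xt W (permPoly (A ⊕ I)))
        (aeval Xt (dirD W₀ (permPoly (A ⊕ I)))) z := by
  classical
  obtain ⟨A₁, -, hA₁⟩ := Finset.exists_subset_card_eq (s := (univ : Finset A))
    (n := Fintype.card I - w) (by rw [card_univ]; omega)
  obtain ⟨a₀, ha₀⟩ : A₁.Nonempty := by rw [← Finset.card_pos]; omega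
  set κ : A → ℂ := fun a => ((Fintype.equivFin A a : ℕ) : ℂ) with hκdef
  have hκ : Function.Injective κ := fun i j h =>
    (Fintype.equivFin A).injective (Fin.ext (Nat.cast_injective (R := ℂ) h))
  obtain ⟨μ, ⟨P₀, E₀, n₀, hn₀, hP₀, hP₀'⟩, hv⟩ := ((h₀.trop hbd hbd' A₁ κ (by omega)).and
    (Filter.eventually_all.2 fun v => (hF v).trop hbd hbd' (A₁.erase a₀) (fun _ => 0)
      (by rw [card_erase_of_mem ha₀]; omega))).exists
  choose P E n hn hP hP' using hv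
  have hnC : ∀ {m : ℕ}, m ≠ 0 → ∀ Q : MvPolynomial (Option V) ℂ, C (m : ℂ)⁻¹ * (m • Q) = Q := by
    intro m hm Q
    rw [nsmul_eq_mul, ← mul_assoc, ← map_natCast (C : ℂ →+* MvPolynomial (Option V) ℂ), ← map_mul,
      inv_mul_cancel₀ (Nat.cast_ne_zero.2 hm), map_one, one_mul]
  have hev := persist (π := Unit) (fun j : Option V => j.elim (C (n₀ : ℂ)⁻¹ * P₀)
    fun v => C (n (some v) : ℂ)⁻¹ * P (some v))
    (C (n none : ℂ)⁻¹ * P none) (fun _ => 0) Z (by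
      intro z hz
      have := hZ z hz
      convert this using 2 with j
      · cases j with
        | none => simp only [Option.elim, map_mul, algHom_C, algebraMap_eq, hP₀, hnC hn₀]
        | some v => simp only [Option.elim, map_mul, algHom_C, algebraMap_eq, hP, hnC (hn _)]
      · simp only [map_mul, algHom_C, algebraMap_eq, hP, hnC (hn _)])
  have hcont : Tendsto (fun t : ℂ => (fun _ : Unit => t)) (𝓝[≠] 0) (𝓝 fun _ => 0) :=
    (Continuous.tendsto (by fun_prop) 0).mono_left nhdsWithin_le_nhds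
  obtain ⟨t, ⟨Z', hZ', hgood⟩, ht⟩ := ((hcont.eventually hev).and self_mem_nhdsWithin).exists
  have ht : t ≠ 0 := ht
  choose W hW using fun v => dperm_Xt2 μ b d b' d' ξ Y ht A₁ κ hκ a₀ ha₀ k₀ (k v) L₀ (L v)
  set Xs := Xt2 μ b d b' d' ξ Y t A₁ κ k₀ L₀ with hXs
  set s : Option V → ℂ := fun v => (n v : ℂ)⁻¹ * t ^ E v with hs
  have hd : ∀ (c : ℂ) (v : Option V),
      aeval (fun ab : (A ⊕ I) × (A ⊕ I) => Xs ab.1 ab.2)
        (dirD (fun ab => c * W v ab.1 ab.2 - 0 * W v ab.1 ab.2) (permPoly (A ⊕ I))) =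
      C c * dperm Xs ((W v).map (algebraMap ℂ _)) := by
    intro c v
    rw [← sub_zero (C c * _), ← zero_mul (dperm Xs ((W v).map (algebraMap ℂ _))),
      aeval_dirD_permPoly, ← dperm_lin]
    congr 1
    ext1 a b
    simp
  have hsp : ∀ v, spec (fun _ => t) (C (n v : ℂ)⁻¹ * P v) =
      C (s v) * dperm Xs ((W v).map (algebraMap ℂ _)) := by
    intro v
    rw [map_mul, hP' v t ht, hW v, hs]
    simp only [algHom_C, algebraMap_eq, map_mul, mul_assoc]
  refine ⟨fun ab => Xs ab.1 ab.2,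
    fun v ab => s (some v) * W (some v) ab.1 ab.2 - 0 * W (some v) ab.1 ab.2,
    fun ab => s none * W none ab.1 ab.2 - 0 * W none ab.1 ab.2, Z',
    fun ab => aff_Xt2 _ _ _ _ _ _ _ hY _ _ _ _ _ _ _, hZ', fun z hz => ?_⟩
  refine Good.of_scale (fun j => j.elim ((n₀ : ℂ)⁻¹ * t ^ E₀) fun _ => 1) ?_ ?_
  · rintro (_ | v)
    · exact mul_ne_zero (inv_ne_zero (Nat.cast_ne_zero.2 hn₀)) (zpow_ne_zero _ ht)
    · exact one_ne_zero
  · have := hgood z hz
    convert this using 2 with j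
    · cases j with
      | none =>
        simp only [Option.elim, sys, aeval_permPoly, map_mul, algHom_C, algebraMap_eq,
          hP₀' t ht, mul_assoc]
        rfl
      | some v => simp only [Option.elim, sys, hd, hsp, map_one, one_mul]
    · rw [hd, hsp]

end Pool.Agent.Lib.MP_8a52c3_lc.PermDet
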